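import Pool.Agent.H32.HW.Anal

/-!
Completion of a ring of families of numbers in the weight topology, and the stripping of the
top weight.
-/

namespace Pool.Agent.H32.HW

open Matrix

variable {N : ℕ}

/-- The ring of all families of complex numbers. -/
abbrev Fam (N : ℕ) : Type := Idx N → ℂ

/-- Subrings which contain `q`, `1 / q`, are stable under complex conjugation and consist of
families of polynomial growth. -/
structure Adm (A : Subring (Fam N)) : Prop where
  q_mem : qf ∈ A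
  qinv_mem : (qf : Fam N)⁻¹ ∈ A
  star_mem : ∀ t ∈ A, star t ∈ A
  gr : ∀ t ∈ A, ∃ w : ℤ, Gr w t

theorem Adm.gr_nat {A : Subring (Fam N)} (hA : Adm A) {t : Fam N} (ht : t ∈ A) :
    ∃ w : ℕ, Gr (w : ℤ) t := by
  obtain ⟨w, hw⟩ := hA.gr t ht
  exact ⟨w.toNat, hw.mono (Int.self_le_toNat w)⟩

theorem hat_gr {A : Subring (Fam N)} (hA : Adm A) {t : Fam N}
    (ht : ∀ m : ℕ, ∃ r ∈ A, Gr (-(m : ℤ)) (t - r)) : ∃ w : ℕ, Gr (w : ℤ) t := by
  obtain ⟨r, hr, h⟩ := ht 0
  obtain ⟨w, hw⟩ := hA.gr_nat hr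
  refine ⟨w, ?_⟩
  have := hw.add (h.mono (by simp : (-((0 : ℕ) : ℤ)) ≤ w))
  rwa [add_sub_cancel] at this

/-- The completion of `A` in the weight topology. -/
def hat (A : Subring (Fam N)) (hA : Adm A) : Subring (Fam N) where
  carrier := {t | ∀ m : ℕ, ∃ r ∈ A, Gr (-(m : ℤ)) (t - r)}
  mul_mem' := by
    intro t u ht hu m
    obtain ⟨wu, hwu⟩ := hat_gr hA hu
    obtain ⟨r, hr, h1⟩ := ht (m + wu)
    obtain ⟨wr, hwr⟩ := hA.gr_nat hr
    obtain ⟨s, hs, h2⟩ := hu (m + wr)
    refine ⟨r * s, A.mul_mem hr hs, ?_⟩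
    have e : t * u - r * s = (t - r) * u + r * (u - s) := by ring
    rw [e]
    refine ((h1.mul hwu).mono ?_).add ((hwr.mul h2).mono ?_)
    · push_cast; linarith
    · push_cast; linarith
  one_mem' := fun m => ⟨1, A.one_mem, by rw [sub_self]; exact Gr.zero _⟩
  add_mem' := by
    intro t u ht hu m
    obtain ⟨r, hr, h1⟩ := ht m
    obtain ⟨s, hs, h2⟩ := hu m
    refine ⟨r + s, A.add_mem hr hs, ?_⟩
    have e : t + u - (r + s) = (t - r) + (u - s) := by ring
    rw [e]
    exact h1.add h2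
  zero_mem' := fun m => ⟨0, A.zero_mem, by rw [sub_self]; exact Gr.zero _⟩
  neg_mem' := by
    intro t ht m
    obtain ⟨r, hr, h1⟩ := ht m
    refine ⟨-r, A.neg_mem hr, ?_⟩
    have e : -t - -r = -(t - r) := by ring
    rw [e]
    exact h1.neg

variable {A : Subring (Fam N)} (hA : Adm A)

theorem mem_hat {t : Fam N} : t ∈ hat A hA ↔ ∀ m : ℕ, ∃ r ∈ A, Gr (-(m : ℤ)) (t - r) := Iff.rfl

theorem hat_of_mem {t : Fam N} (ht : t ∈ A) : t ∈ hat A hA := fun m =>
  ⟨t, ht, by rw [sub_self]; exact Gr.zero _⟩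

theorem hat_star {t : Fam N} (ht : t ∈ hat A hA) : star t ∈ hat A hA := fun m => by
  obtain ⟨r, hr, h1⟩ := ht m
  refine ⟨star r, hA.star_mem r hr, ?_⟩
  rw [← star_sub]
  exact h1.star

theorem hat_complete {t : Fam N} (ht : ∀ m : ℕ, ∃ r ∈ hat A hA, Gr (-(m : ℤ)) (t - r)) :
    t ∈ hat A hA := by
  intro m
  obtain ⟨r, hr, h1⟩ := ht m
  obtain ⟨s, hs, h2⟩ := hr m
  refine ⟨s, hs, ?_⟩
  have e : t - s = (t - r) + (r - s) := by ring
  rw [e]
  exact h1.add h2

theorem hat_qf_zpow (e : ℤ) : (qf : Fam N) ^ e ∈ hat A hA := by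
  apply hat_of_mem
  obtain ⟨n, rfl | rfl⟩ := e.eq_nat_or_neg
  · rw [zpow_natCast]
    exact A.pow_mem hA.q_mem n
  · rw [_root_.zpow_neg, zpow_natCast, ← inv_pow]
    exact A.pow_mem hA.qinv_mem n

theorem qf_zpow_mul (e f : ℤ) : (qf : Fam N) ^ e * qf ^ f = qf ^ (e + f) := by
  funext x
  simp only [Pi.mul_apply, Pi.pow_apply]
  rw [zpow_add₀ (qf_ne_zero x)]

theorem Gr.pow {w : ℤ} {t : Fam N} (ht : Gr w t) (n : ℕ) : Gr (n * w) (t ^ n) := by
  have := Gr.prod (s := Finset.range n) (w := fun _ => w) (t := fun _ => t) (fun _ _ => ht)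
  simpa using this

/-- Approximate division by an element whose square absolute value is `q ^ e (1 + small)`. -/
theorem approx_div {u s t : Fam N} {e f : ℤ} {n : ℕ} (hu : u ∈ hat A hA) (gu : Gr e u)
    (huu : Gr (2 * e - 1) (star u * u - qf ^ e)) (hs : s ∈ hat A hA)
    (hut : Gr (e + f - n) (u * t - s)) (gt : Gr f t) :
    ∃ t' ∈ hat A hA, Gr (f - n) (t - t') := by
  set z : Fam N := star u * qf ^ (-e) with hz
  have hz1 : z ∈ hat A hA := (hat A hA).mul_mem (hat_star hA hu) (hat_qf_zpow hA _)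
  have hz2 : Gr (-e) z := by
    have := (gu.star).mul (Gr.qf_zpow (N := N) (-e))
    exact this.mono (by linarith)
  set v : Fam N := z * u - 1 with hv
  have hv1 : v ∈ hat A hA := (hat A hA).sub_mem ((hat A hA).mul_mem hz1 hu) (hat A hA).one_mem
  have hv2 : Gr (-1) v := by
    have e1 : v = (star u * u - qf ^ e) * qf ^ (-e) := by
      have h1 : (qf : Fam N) ^ e * qf ^ (-e) = 1 := by
        rw [qf_zpow_mul, add_neg_cancel, zpow_zero]
      rw [hv, hz]
      linear_combination h1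
    rw [e1]
    exact (huu.mul (Gr.qf_zpow (N := N) (-e))).mono (by linarith)
  set g : Fam N := ∑ l ∈ Finset.range n, (-v) ^ l with hg
  have hg1 : g ∈ hat A hA := (hat A hA).sum_mem (fun l _ =>
    (hat A hA).pow_mem ((hat A hA).neg_mem hv1) l)
  have hg2 : Gr 0 g := Gr.sum (fun l _ => ((hv2.neg).pow l).mono (by
    have : (0 : ℤ) ≤ l := Int.natCast_nonneg l
    linarith))
  have hg3 : g * (1 + v) = 1 - (-v) ^ n := by
    have := geom_sum_mul_neg (-v) n
    rwa [sub_neg_eq_add] at this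
  refine ⟨g * z * s, (hat A hA).mul_mem ((hat A hA).mul_mem hg1 hz1) hs, ?_⟩
  have e2 : t - g * z * s = (-v) ^ n * t + g * z * (u * t - s) := by
    have e3 : z * u = 1 + v := by rw [hv]; ring
    have e4 : g * z * (u * t) = (g * (1 + v)) * t := by rw [← e3]; ring
    rw [mul_sub, e4, hg3]
    ring
  rw [e2]
  refine ((((hv2.neg).pow n).mul gt).mono ?_).add (((hg2.mul hz2).mul hut).mono ?_)
  · linarith
  · linarith

/-! ### Determinants -/

theorem Gr.neg_one_pow (σ : ℤˣ) : Gr 0 (((σ : ℤ) : Fam N)) := by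
  rcases Int.units_eq_one_or σ with h | h
  · rw [h]; simpa using Gr.one
  · rw [h]; simpa using Gr.one.neg

theorem Gr.det {b : ℕ} {u v : Fin b → ℤ} {M : Matrix (Fin b) (Fin b) (Fam N)}
    (h : ∀ i j, Gr (u i + v j) (M i j)) : Gr (∑ i, u i + ∑ i, v i) M.det := by
  rw [Matrix.det_apply']
  apply Gr.sum
  intro σ _
  have h1 := Gr.prod (s := Finset.univ) (w := fun i => u (σ i) + v i) (t := fun i => M (σ i) i)
    (fun i _ => h _ _)
  have h2 := (Gr.neg_one_pow (N := N) (Equiv.Perm.sign σ)).mul h1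
  rw [Finset.sum_add_distrib, Equiv.sum_comp σ u, zero_add] at h2
  exact h2

theorem Gr.prod_sub {ι : Type*} {w : ι → ℤ} {s : Finset ι} {f g : ι → Fam N}
    (hf : ∀ i ∈ s, Gr (w i) (f i)) (hg : ∀ i ∈ s, Gr (w i) (g i))
    (h : ∀ i ∈ s, Gr (w i - 1) (f i - g i)) :
    Gr (∑ i ∈ s, w i - 1) (∏ i ∈ s, f i - ∏ i ∈ s, g i) := by
  classical
  induction s using Finset.induction_on with
  | empty => simpa using Gr.zero (N := N) _
  | insert i s hi ih =>
    rw [Finset.prod_insert hi, Finset.prod_insert hi, Finset.sum_insert hi]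
    have e : f i * ∏ j ∈ s, f j - g i * ∏ j ∈ s, g j
        = (f i - g i) * ∏ j ∈ s, f j + g i * (∏ j ∈ s, f j - ∏ j ∈ s, g j) := by ring
    rw [e]
    refine (((h i (by simp)).mul (Gr.prod (fun j hj => hf j (by simp [hj])))).mono ?_).add
      (((hg i (by simp)).mul (ih (fun j hj => hf j (by simp [hj]))
        (fun j hj => hg j (by simp [hj])) (fun j hj => h j (by simp [hj])))).mono ?_)
    · linarith
    · linarith

theorem Gr.det_sub {b : ℕ} {u v : Fin b → ℤ} {M M' : Matrix (Fin b) (Fin b) (Fam N)}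
    (h : ∀ i j, Gr (u i + v j) (M i j)) (h' : ∀ i j, Gr (u i + v j) (M' i j))
    (hs : ∀ i j, Gr (u i + v j - 1) (M i j - M' i j)) :
    Gr (∑ i, u i + ∑ i, v i - 1) (M.det - M'.det) := by
  rw [Matrix.det_apply', Matrix.det_apply', ← Finset.sum_sub_distrib]
  apply Gr.sum
  intro σ _
  rw [← mul_sub]
  have h1 := Gr.prod_sub (s := Finset.univ) (w := fun i => u (σ i) + v i)
    (f := fun i => M (σ i) i) (g := fun i => M' (σ i) i)
    (fun i _ => h _ _) (fun i _ => h' _ _) (fun i _ => hs _ _)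
  have h2 := (Gr.neg_one_pow (N := N) (Equiv.Perm.sign σ)).mul h1
  rw [Finset.sum_add_distrib, Equiv.sum_comp σ u, zero_add] at h2
  exact h2

theorem det_mem {S : Subring (Fam N)} {b : ℕ} {M : Matrix (Fin b) (Fin b) (Fam N)}
    (h : ∀ i j, M i j ∈ S) : M.det ∈ S := by
  rw [Matrix.det_apply']
  apply S.sum_mem
  intro σ _
  exact S.mul_mem (intCast_mem S _) (S.prod_mem (fun i _ => h _ _))

theorem adjugate_mem {S : Subring (Fam N)} {b : ℕ} {M : Matrix (Fin b) (Fin b) (Fam N)}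
    (h : ∀ i j, M i j ∈ S) (i j : Fin b) : M.adjugate i j ∈ S := by
  rw [Matrix.adjugate_apply]
  apply det_mem
  intro k l
  rw [Matrix.updateRow_apply]
  split_ifs with hk
  · rw [Pi.single_apply]
    split_ifs
    · exact S.one_mem
    · exact S.zero_mem
  · exact h _ _

theorem Gr.adjugate {b : ℕ} {u v : Fin b → ℤ} {M : Matrix (Fin b) (Fin b) (Fam N)}
    (h : ∀ i j, Gr (u i + v j) (M i j)) (i j : Fin b) :
    Gr (∑ i, u i + ∑ i, v i - u j - v i) (M.adjugate i j) := by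
  rw [Matrix.adjugate_apply]
  have h1 : ∀ k l, Gr (Function.update u j (-v i) k + v l)
      (M.updateRow j (Pi.single i 1) k l) := by
    intro k l
    rw [Matrix.updateRow_apply, Function.update_apply]
    split_ifs with hk
    · rw [Pi.single_apply]
      split_ifs with hl
      · rw [hl, neg_add_cancel]
        exact Gr.one
      · exact Gr.zero _
    · exact h _ _
  have h2 := Gr.det h1
  rw [Finset.sum_update_of_mem (Finset.mem_univ j)] at h2
  have h3 : ∑ k, u k = u j + ∑ k ∈ Finset.univ \ {j}, u k := by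
    rw [← Finset.sum_sdiff (Finset.subset_univ {j}), Finset.sum_singleton, add_comm]
  refine h2.mono ?_
  rw [h3]
  linarith

end Pool.Agent.H32.HW
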