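import Pool.Agent.H32.HW.Pub

/-!
L-functions of families of numbers `t (p, k)`: basic analytic operations and a closure lemma.
-/

namespace Pool.Agent.H32.HW

open Complex Filter Topology

variable {N : ℕ}

/-- `q = p ^ k`. -/
def Idx.q (x : Idx N) : ℕ := x.p ^ x.k

/-- The square root of `q`. -/
noncomputable def Idx.r (x : Idx N) : ℝ := Real.sqrt x.q

/-- Growth: `|t (p, k)| ≤ C p ^ (k w / 2)`. -/
def Gr (w : ℤ) (t : Idx N → ℂ) : Prop := ∃ C : ℝ, 0 ≤ C ∧ ∀ x, ‖t x‖ ≤ C * x.r ^ w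

theorem Idx.q_pos (x : Idx N) : 0 < x.q := pow_pos x.prime.pos _

theorem Idx.two_le_q (x : Idx N) : 2 ≤ x.q :=
  le_trans x.prime.two_le (Nat.le_self_pow x.pos _)

theorem Idx.r_pos (x : Idx N) : 0 < x.r := Real.sqrt_pos.2 (by exact_mod_cast x.q_pos)

theorem Idx.one_le_r (x : Idx N) : 1 ≤ x.r := by
  rw [Idx.r, Real.one_le_sqrt]
  exact_mod_cast x.q_pos

theorem Idx.r_sq (x : Idx N) : x.r ^ 2 = x.q := by
  rw [Idx.r, Real.sq_sqrt (Nat.cast_nonneg _)]

theorem Idx.r_eq (x : Idx N) : x.r = (x.p : ℝ) ^ ((x.k : ℝ) / 2) := by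
  rw [Idx.r, Idx.q, Real.sqrt_eq_rpow, Nat.cast_pow, ← Real.rpow_natCast, ← Real.rpow_mul
    (Nat.cast_nonneg _)]
  congr 1
  ring

theorem Gr.add {w : ℤ} {t u : Idx N → ℂ} (ht : Gr w t) (hu : Gr w u) : Gr w (t + u) := by
  obtain ⟨C, hC, h⟩ := ht
  obtain ⟨D, hD, h'⟩ := hu
  refine ⟨C + D, by linarith, fun x => ?_⟩
  rw [add_mul]
  exact (norm_add_le _ _).trans (add_le_add (h x) (h' x))

theorem Gr.neg {w : ℤ} {t : Idx N → ℂ} (ht : Gr w t) : Gr w (-t) := by
  obtain ⟨C, hC, h⟩ := ht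
  exact ⟨C, hC, fun x => by rw [Pi.neg_apply, norm_neg]; exact h x⟩

theorem Gr.sub {w : ℤ} {t u : Idx N → ℂ} (ht : Gr w t) (hu : Gr w u) : Gr w (t - u) := by
  rw [sub_eq_add_neg]
  exact ht.add hu.neg

theorem Gr.mul {w v : ℤ} {t u : Idx N → ℂ} (ht : Gr w t) (hu : Gr v u) : Gr (w + v) (t * u) := by
  obtain ⟨C, hC, h⟩ := ht
  obtain ⟨D, hD, h'⟩ := hu
  refine ⟨C * D, by positivity, fun x => ?_⟩
  rw [Pi.mul_apply, norm_mul, zpow_add₀ x.r_pos.ne']
  calc ‖t x‖ * ‖u x‖ ≤ (C * x.r ^ w) * (D * x.r ^ v) :=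
        mul_le_mul (h x) (h' x) (norm_nonneg _) (mul_nonneg hC (zpow_nonneg x.r_pos.le _))
    _ = _ := by ring

theorem Gr.mono {w v : ℤ} {t : Idx N → ℂ} (ht : Gr w t) (h : w ≤ v) : Gr v t := by
  obtain ⟨C, hC, h'⟩ := ht
  refine ⟨C, hC, fun x => (h' x).trans ?_⟩
  gcongr
  exact x.one_le_r

theorem Gr.zero (w : ℤ) : Gr w (0 : Idx N → ℂ) := ⟨0, le_refl _, fun x => by simp⟩

theorem Gr.one : Gr 0 (1 : Idx N → ℂ) := ⟨1, by norm_num, fun x => by simp⟩

theorem Gr.star {w : ℤ} {t : Idx N → ℂ} (ht : Gr w t) : Gr w (star t) := by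
  obtain ⟨C, hC, h⟩ := ht
  exact ⟨C, hC, fun x => by rw [Pi.star_apply, norm_star]; exact h x⟩

theorem Gr.sum {ι : Type*} {w : ℤ} {s : Finset ι} {t : ι → Idx N → ℂ} (h : ∀ i ∈ s, Gr w (t i)) :
    Gr w (∑ i ∈ s, t i) := by
  classical
  induction s using Finset.induction_on with
  | empty => simpa using Gr.zero w
  | insert i s hi ih =>
    rw [Finset.sum_insert hi]
    exact (h i (by simp)).add (ih (fun j hj => h j (by simp [hj])))

theorem Gr.prod {ι : Type*} {w : ι → ℤ} {s : Finset ι} {t : ι → Idx N → ℂ}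
    (h : ∀ i ∈ s, Gr (w i) (t i)) : Gr (∑ i ∈ s, w i) (∏ i ∈ s, t i) := by
  classical
  induction s using Finset.induction_on with
  | empty => simpa using Gr.one
  | insert i s hi ih =>
    rw [Finset.prod_insert hi, Finset.sum_insert hi]
    exact (h i (by simp)).mul (ih (fun j hj => h j (by simp [hj])))

/-- The injection of the set of indices into the set of all pairs. -/
def Idx.toPair (x : Idx N) : Nat.Primes × ℕ := (⟨x.p, x.prime⟩, x.k)

theorem Idx.toPair_injective : Function.Injective (Idx.toPair (N := N)) := by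
  rintro ⟨p, k, h1, h2, h3⟩ ⟨p', k', h1', h2', h3'⟩ h
  have e1 : p = p' := congrArg (fun z : Nat.Primes × ℕ => (z.1 : ℕ)) h
  have e2 : k = k' := congrArg (fun z : Nat.Primes × ℕ => z.2) h
  subst e1
  subst e2
  rfl

/-- The dominating series. -/
theorem dominate {t : Idx N → ℂ} {w : ℤ} {C : ℝ} (hC : 0 ≤ C) (h : ∀ x, ‖t x‖ ≤ C * x.r ^ w)
    {τ : ℝ} (hτ : 1 < τ) :
    Summable (fun x : Idx N => C * 2 ^ τ * ((x.p : ℝ) ^ (-τ) * ((2 : ℝ) ^ (-τ)) ^ x.k)) ∧
    ∀ s : ℂ, (w : ℝ) / 2 + τ ≤ s.re → ∀ x : Idx N,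
      ‖lterm t s x‖ ≤ C * 2 ^ τ * ((x.p : ℝ) ^ (-τ) * ((2 : ℝ) ^ (-τ)) ^ x.k) := by
  constructor
  · apply Summable.mul_left
    have h1 : Summable (fun p : Nat.Primes => (p : ℝ) ^ (-τ)) :=
      Nat.Primes.summable_rpow.2 (by linarith)
    have h2 : Summable (fun k : ℕ => ((2 : ℝ) ^ (-τ)) ^ k) := by
      apply summable_geometric_of_lt_one (by positivity)
      exact Real.rpow_lt_one_of_one_lt_of_neg (by norm_num) (by linarith)
    have h3 := h1.mul_of_nonneg h2 (fun p => by positivity) (fun k => by positivity)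
    have h4 := h3.comp_injective (Idx.toPair_injective (N := N))
    exact h4
  · intro s hs x
    have hp2 : (2 : ℝ) ≤ x.p := by exact_mod_cast x.prime.two_le
    have hp : (1 : ℝ) ≤ x.p := by linarith
    have hp0 : (0 : ℝ) < x.p := by linarith
    have hk1 : (1 : ℝ) ≤ x.k := by exact_mod_cast Nat.one_le_iff_ne_zero.2 x.pos
    unfold lterm
    rw [norm_mul, norm_div, Complex.norm_natCast_cpow_of_pos x.prime.pos, Complex.norm_natCast]
    have e3 : (-((x.k : ℂ) * s)).re = -((x.k : ℝ) * s.re) := by simp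
    rw [e3]
    have h1 : ‖t x‖ / (x.k : ℝ) ≤ C * x.r ^ w :=
      le_trans (div_le_self (norm_nonneg _) hk1) (h x)
    have h2 : (x.p : ℝ) ^ (-((x.k : ℝ) * s.re)) ≤ (x.p : ℝ) ^ (-((x.k : ℝ) * (w / 2 + τ))) := by
      apply Real.rpow_le_rpow_of_exponent_le hp
      have : (x.k : ℝ) * (w / 2 + τ) ≤ (x.k : ℝ) * s.re :=
        mul_le_mul_of_nonneg_left hs (by linarith)
      linarith
    have e4 : x.r ^ w = (x.p : ℝ) ^ ((x.k : ℝ) * (w / 2)) := by
      rw [x.r_eq, ← Real.rpow_intCast, ← Real.rpow_mul hp0.le]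
      congr 1
      ring
    calc ‖t x‖ / (x.k : ℝ) * (x.p : ℝ) ^ (-((x.k : ℝ) * s.re))
        ≤ (C * x.r ^ w) * (x.p : ℝ) ^ (-((x.k : ℝ) * (w / 2 + τ))) :=
          mul_le_mul h1 h2 (by positivity) (mul_nonneg hC (zpow_nonneg x.r_pos.le _))
      _ = C * (x.p : ℝ) ^ (-(x.k * τ)) := by
          rw [e4, mul_assoc, ← Real.rpow_add hp0]
          congr 2
          ring
      _ = C * (((x.p : ℝ) ^ (-τ)) * ((x.p : ℝ) ^ (-τ)) ^ (x.k - 1)) := by
          rw [← pow_succ', Nat.sub_add_cancel (Nat.one_le_iff_ne_zero.2 x.pos),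
            ← Real.rpow_natCast ((x.p : ℝ) ^ (-τ)) x.k, ← Real.rpow_mul hp0.le]
          congr 2
          ring
      _ ≤ C * (((x.p : ℝ) ^ (-τ)) * ((2 : ℝ) ^ (-τ)) ^ (x.k - 1)) := by
          have h5 : (x.p : ℝ) ^ (-τ) ≤ (2 : ℝ) ^ (-τ) :=
            Real.rpow_le_rpow_of_nonpos (by norm_num) hp2 (by linarith)
          gcongr
      _ = C * 2 ^ τ * ((x.p : ℝ) ^ (-τ) * ((2 : ℝ) ^ (-τ)) ^ x.k) := by
          obtain ⟨m, hm⟩ := Nat.exists_eq_succ_of_ne_zero x.pos
          rw [hm, Nat.succ_sub_one, pow_succ]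
          have : (2 : ℝ) ^ τ * 2 ^ (-τ) = 1 := by
            rw [← Real.rpow_add (by norm_num)]
            simp
          linear_combination (-C * (x.p : ℝ) ^ (-τ) * ((2 : ℝ) ^ (-τ)) ^ m) * this

theorem Gr.summable {t : Idx N → ℂ} {w : ℤ} (ht : Gr w t) {s : ℂ} (hs : 1 + (w : ℝ) / 2 < s.re) :
    Summable (lterm t s) := by
  obtain ⟨C, hC, h⟩ := ht
  obtain ⟨h1, h2⟩ := dominate hC h (τ := s.re - w / 2) (by linarith)
  exact Summable.of_norm_bounded h1 (h2 s (by linarith))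

theorem Gr.analytic {t : Idx N → ℂ} {w : ℤ} (ht : Gr w t) {s : ℂ} (hs : 1 + (w : ℝ) / 2 < s.re) :
    AnalyticAt ℂ (LF t) s := by
  obtain ⟨C, hC, h⟩ := ht
  obtain ⟨τ, hτ1, hτ2⟩ := exists_between (show (1 : ℝ) < s.re - w / 2 by linarith)
  obtain ⟨h1, h2⟩ := dominate hC h hτ1
  have hU : IsOpen {s : ℂ | (w : ℝ) / 2 + τ < s.re} :=
    isOpen_lt continuous_const Complex.continuous_re
  have hd : DifferentiableOn ℂ (fun s => ∑' x, lterm t s x) {s : ℂ | (w : ℝ) / 2 + τ < s.re} := by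
    refine differentiableOn_tsum_of_summable_norm h1 (fun x => ?_) hU
      (fun x w hw => h2 w (le_of_lt hw) x)
    unfold lterm
    apply Differentiable.differentiableOn
    have hp : ((x.p : ℕ) : ℂ) ≠ 0 := by exact_mod_cast x.prime.ne_zero
    intro w
    apply DifferentiableAt.const_mul
    apply DifferentiableAt.const_cpow _ (Or.inl hp)
    fun_prop
  exact (hd.analyticAt (hU.mem_nhds (show (w : ℝ) / 2 + τ < s.re by linarith))).cexp

theorem LF_ne_zero (t : Idx N → ℂ) (s : ℂ) : LF t s ≠ 0 := exp_ne_zero _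

theorem LF_add {t u : Idx N → ℂ} {s : ℂ} (ht : Summable (lterm t s)) (hu : Summable (lterm u s)) :
    LF (t + u) s = LF t s * LF u s := by
  unfold LF
  rw [← exp_add, ← ht.tsum_add hu]
  congr 1
  apply tsum_congr
  intro x
  unfold lterm
  rw [Pi.add_apply]
  ring

theorem LF_neg (t : Idx N → ℂ) (s : ℂ) : LF (-t) s = (LF t s)⁻¹ := by
  unfold LF
  rw [← exp_neg, ← tsum_neg]
  congr 1
  apply tsum_congr
  intro x
  unfold lterm
  rw [Pi.neg_apply]
  ring

/-- The function `(p, k) ↦ q = p ^ k`. -/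
noncomputable def qf : Idx N → ℂ := fun x => (x.q : ℂ)

theorem qf_ne_zero (x : Idx N) : qf x ≠ 0 := by
  unfold qf
  exact_mod_cast x.q_pos.ne'

theorem LF_shift (t : Idx N → ℂ) (j : ℤ) (s : ℂ) :
    LF (qf ^ j * t) s = LF t (s - j) := by
  unfold LF
  congr 1
  apply tsum_congr
  intro x
  unfold lterm
  have hp : ((x.p : ℕ) : ℂ) ≠ 0 := by exact_mod_cast x.prime.ne_zero
  have e1 : -((x.k : ℂ) * (s - j)) = ((x.k * j : ℤ) : ℂ) + -((x.k : ℂ) * s) := by
    push_cast; ring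
  rw [e1, cpow_add _ _ hp, cpow_intCast, zpow_mul, zpow_natCast, Pi.mul_apply, Pi.pow_apply]
  simp only [qf, Idx.q, Nat.cast_pow]
  ring

theorem Gr.qf_zpow (j : ℤ) : Gr (2 * j) ((qf : Idx N → ℂ) ^ j) := by
  refine ⟨1, zero_le_one, fun x => ?_⟩
  rw [Pi.pow_apply, norm_zpow, one_mul, zpow_mul, zpow_ofNat, x.r_sq]
  simp [qf]

variable {E : Set ℝ}

theorem Good.add {t u : Idx N → ℂ} (ht : Good E t) (hu : Good E u) {w v : ℤ}
    (bt : Gr w t) (bu : Gr v u) : Good E (t + u) := by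
  obtain ⟨g, g1, g2, c, g3⟩ := ht
  obtain ⟨g', g1', g2', c', g3'⟩ := hu
  refine ⟨g * g', fun s => (g1 s).mul (g1' s), fun s hs => ?_,
    max (max c c') (max (1 + (w : ℝ) / 2) (1 + (v : ℝ) / 2)), fun s hs => ?_⟩
  · rw [meromorphicOrderAt_mul (g1 s) (g1' s)] at hs
    by_cases h0 : meromorphicOrderAt g s = 0
    · rw [h0, zero_add] at hs
      exact g2' s hs
    · exact g2 s h0
  · simp only [max_lt_iff] at hs
    rw [LF_add (bt.summable hs.2.1) (bu.summable hs.2.2), Pi.mul_apply, g3 s hs.1.1, g3' s hs.1.2]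

theorem Good.neg {t : Idx N → ℂ} (ht : Good E t) : Good E (-t) := by
  obtain ⟨g, g1, g2, c, g3⟩ := ht
  refine ⟨g⁻¹, fun s => (g1 s).inv, fun s hs => g2 s ?_, c, fun s hs => ?_⟩
  · intro h0
    rw [meromorphicOrderAt_inv, h0, neg_zero] at hs
    exact hs rfl
  · rw [LF_neg, Pi.inv_apply, g3 s hs]

theorem Good.zero : Good E (0 : Idx N → ℂ) := by
  refine ⟨fun _ => 1, fun s => MeromorphicAt.const 1 s, fun s hs => ?_, 0, fun s _ => ?_⟩
  · exfalso
    apply hs
    rw [meromorphicOrderAt_const]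
    simp
  · unfold LF lterm
    simp

theorem mem_add_int (hE : ∀ x : ℝ, x + 1 ∈ E ↔ x ∈ E) (x : ℝ) (j : ℤ) : x + j ∈ E ↔ x ∈ E := by
  induction j with
  | zero => simp
  | succ j ih =>
    rw [← ih, ← hE (x + ((j : ℤ) : ℝ))]
    push_cast
    rw [add_assoc]
  | pred j ih =>
    rw [← ih, ← hE (x + ((-(j : ℤ) - 1 : ℤ) : ℝ))]
    push_cast
    rw [add_assoc]
    simp

theorem Good.shift (hE : ∀ x : ℝ, x + 1 ∈ E ↔ x ∈ E) {t : Idx N → ℂ} (ht : Good E t) (j : ℤ) :
    Good E (qf ^ j * t) := by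
  obtain ⟨g, g1, g2, c, g3⟩ := ht
  refine ⟨fun s => g (s + (-(j : ℂ))), fun s => ?_, fun s hs => ?_, c + j, fun s hs => ?_⟩
  · exact (g1 (s + (-(j : ℂ)))).comp_analyticAt (f := g) (g := fun s => s + (-(j : ℂ)))
      (by fun_prop)
  · rw [meromorphicOrderAt_fun_comp_add_const_eq_meromorphicOrderAt] at hs
    have := g2 _ hs
    have h1 := (mem_add_int hE (s + (-(j : ℂ))).re j).2 this
    simpa using h1
  · rw [LF_shift, sub_eq_add_neg]
    apply g3
    simp only [add_re, neg_re, intCast_re]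
    linarith

/-- **Closure lemma.**  A family which for every `m` differs from a good family by `O(q ^ (-m/2))`
is good. -/
theorem Good.of_approx {t : Idx N → ℂ} {w : ℤ} (bt : Gr w t)
    (h : ∀ m : ℕ, ∃ r : Idx N → ℂ, Good E r ∧ Gr (-(m : ℤ)) (t - r)) : Good E t := by
  choose r hr hd using h
  choose g g1 g2 c g3 using hr
  -- the function on the half plane `Re s > 1 - m / 2`
  let f : ℕ → ℂ → ℂ := fun m s => g m s * LF (t - r m) s
  let U : ℕ → Set ℂ := fun m => {s : ℂ | 1 - (m : ℝ) / 2 < s.re}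
  have hU : ∀ m, IsOpen (U m) := fun m => isOpen_lt continuous_const Complex.continuous_re
  have hanal : ∀ m, ∀ s ∈ U m, AnalyticAt ℂ (LF (t - r m)) s := by
    intro m s hs
    apply (hd m).analytic
    simp only [U, Set.mem_ofPred_eq] at hs
    push_cast
    linarith
  have hf : ∀ m, ∀ s ∈ U m, MeromorphicAt (f m) s := fun m s hs =>
    (g1 m s).mul (hanal m s hs).meromorphicAt
  have hford : ∀ m, ∀ s ∈ U m, meromorphicOrderAt (f m) s ≠ 0 → s.re ∈ E := by
    intro m s hs h0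
    apply g2 m s
    have e : meromorphicOrderAt (f m) s = meromorphicOrderAt (g m) s := by
      have : f m = g m * LF (t - r m) := rfl
      rw [this, meromorphicOrderAt_mul (g1 m s) (hanal m s hs).meromorphicAt,
        (hanal m s hs).meromorphicNFAt.meromorphicOrderAt_eq_zero_iff.2 (LF_ne_zero _ _), add_zero]
    rwa [e] at h0
  -- far to the right all are the L-function of `t`
  have hright : ∀ m, ∀ s : ℂ, max (c m) (max (1 + (w : ℝ) / 2) 1) < s.re → f m s = LF t s := by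
    intro m s hs
    simp only [max_lt_iff] at hs
    have h1 : Summable (lterm (t - r m) s) := by
      apply (hd m).summable
      have : (0 : ℝ) ≤ m := Nat.cast_nonneg _
      push_cast
      linarith [hs.2.2]
    have h2 : Summable (lterm t s) := bt.summable hs.2.1
    have h3 : Summable (lterm (r m) s) := by
      have := h2.sub h1
      refine this.congr (fun x => ?_)
      unfold lterm
      rw [Pi.sub_apply]
      ring
    have h4 := LF_add h3 h1
    rw [add_sub_cancel] at h4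
    simp only [f]
    rw [h4, g3 m s hs.1]
  -- identity theorem
  have hident : ∀ m n, m ≤ n → ∀ s ∈ U m, f m =ᶠ[𝓝[≠] s] f n := by
    intro m n hmn s hs
    have hsub : U m ⊆ U n := by
      intro z hz
      simp only [U, Set.mem_ofPred_eq] at hz ⊢
      have : (m : ℝ) ≤ n := by exact_mod_cast hmn
      linarith
    have hm : MeromorphicOn (f m - f n) (U m) := fun z hz =>
      (hf m z hz).sub (hf n z (hsub hz))
    have hconv : Convex ℝ (U m) := convex_halfSpace_re_gt _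
    have hconn : IsPreconnected (U m) := hconv.isPreconnected
    by_contra hne
    have h1 : meromorphicOrderAt (f m - f n) s ≠ ⊤ := by
      intro htop
      apply hne
      rw [meromorphicOrderAt_eq_top_iff] at htop
      filter_upwards [htop] with z hz
      exact sub_eq_zero.1 hz
    -- a point far to the right
    obtain ⟨R, hR⟩ : ∃ R : ℝ, max (max (c m) (max (1 + (w : ℝ) / 2) 1))
        (max (c n) (max (1 + (w : ℝ) / 2) 1)) < R ∧ 1 - (m : ℝ) / 2 < R := by
      obtain ⟨R, hR⟩ := exists_gt (max (max (max (c m) (max (1 + (w : ℝ) / 2) 1))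
        (max (c n) (max (1 + (w : ℝ) / 2) 1))) (1 - (m : ℝ) / 2))
      exact ⟨R, (max_lt_iff.1 hR).1, (max_lt_iff.1 hR).2⟩
    have hRU : ((R : ℝ) : ℂ) ∈ U m := by
      simp only [U, Set.mem_ofPred_eq, ofReal_re]
      exact hR.2
    have h2 := hm.meromorphicOrderAt_ne_top_of_isPreconnected hconn hs hRU h1
    apply h2
    rw [meromorphicOrderAt_eq_top_iff]
    have hO : IsOpen {z : ℂ | max (max (c m) (max (1 + (w : ℝ) / 2) 1))
        (max (c n) (max (1 + (w : ℝ) / 2) 1)) < z.re} :=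
      isOpen_lt continuous_const Complex.continuous_re
    have hmem : ((R : ℝ) : ℂ) ∈ {z : ℂ | max (max (c m) (max (1 + (w : ℝ) / 2) 1))
        (max (c n) (max (1 + (w : ℝ) / 2) 1)) < z.re} := by
      simp only [Set.mem_ofPred_eq, ofReal_re]
      exact hR.1
    filter_upwards [nhdsWithin_le_nhds (hO.mem_nhds hmem)] with z hz
    have hz' := max_lt_iff.1 (show _ < _ from hz)
    rw [Pi.sub_apply, hright m z hz'.1, hright n z hz'.2, sub_self]
  -- the index of a half plane which contains `s`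
  let M : ℂ → ℕ := fun s => ⌈2 * (1 - s.re)⌉₊ + 1
  have hM : ∀ s, s ∈ U (M s) := by
    intro s
    have := Nat.le_ceil (2 * (1 - s.re))
    simp only [U, M, Set.mem_ofPred_eq]
    push_cast
    linarith
  have hident' : ∀ m n, ∀ s ∈ U m, s ∈ U n → f m =ᶠ[𝓝[≠] s] f n := by
    intro m n s hm hn
    rcases le_total m n with h | h
    · exact hident m n h s hm
    · exact (hident n m h s hn).symm
  let G : ℂ → ℂ := fun s => limUnder (𝓝[≠] s) (f (M s))
  -- near every point `G` is one of the `f m`, off the point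
  have hG : ∀ s₀ : ℂ, G =ᶠ[𝓝[≠] s₀] f (M s₀) := by
    intro s₀
    have h1 : ∀ᶠ z in 𝓝[≠] s₀, AnalyticAt ℂ (f (M s₀)) z :=
      (hf (M s₀) s₀ (hM s₀)).eventually_analyticAt
    have h2 : ∀ᶠ z in 𝓝[≠] s₀, z ∈ U (M s₀) :=
      nhdsWithin_le_nhds ((hU (M s₀)).mem_nhds (hM s₀))
    filter_upwards [h1, h2] with z hz1 hz2
    have h3 : f (M z) =ᶠ[𝓝[≠] z] f (M s₀) := hident' _ _ z (hM z) hz2
    have h4 : Tendsto (f (M s₀)) (𝓝[≠] z) (𝓝 (f (M s₀) z)) :=
      hz1.continuousAt.tendsto.mono_left nhdsWithin_le_nhds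
    exact (h4.congr' h3.symm).limUnder_eq
  refine ⟨G, fun s => ?_, fun s hs => ?_, max (1 + (w : ℝ) / 2) (max (c 0) 1) , fun s hs => ?_⟩
  · exact (hf (M s) s (hM s)).congr (hG s).symm
  · rw [meromorphicOrderAt_congr (hG s)] at hs
    exact hford _ s (hM s) hs
  · simp only [max_lt_iff] at hs
    have h0 : s ∈ U 0 := by
      simp only [U, Set.mem_ofPred_eq, Nat.cast_zero, zero_div, sub_zero]
      exact hs.2.2
    have h3 : f (M s) =ᶠ[𝓝[≠] s] f 0 := hident' _ _ s (hM s) h0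
    have hO : IsOpen {z : ℂ | max (c 0) (max (1 + (w : ℝ) / 2) 1) < z.re} :=
      isOpen_lt continuous_const Complex.continuous_re
    have hmem : s ∈ {z : ℂ | max (c 0) (max (1 + (w : ℝ) / 2) 1) < z.re} := by
      simp only [Set.mem_ofPred_eq, max_lt_iff]
      exact ⟨hs.2.1, hs.1, hs.2.2⟩
    have h5 : f 0 =ᶠ[𝓝[≠] s] LF t := by
      filter_upwards [nhdsWithin_le_nhds (hO.mem_nhds hmem)] with z hz
      exact hright 0 z hz
    have h4 : Tendsto (LF t) (𝓝[≠] s) (𝓝 (LF t s)) :=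
      (bt.analytic hs.1).continuousAt.tendsto.mono_left nhdsWithin_le_nhds
    exact (h4.congr' (h3.trans h5).symm).limUnder_eq

end Pool.Agent.H32.HW
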