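import Pool.Agent.H32.HW.Sys

/-!
The number of solutions of the system.
-/

namespace Pool.Agent.H32.HW

open Finset Polynomial

theorem card_eq_of_rel {α β : Type*} (Rel : α → β → Prop) (h1 : ∀ a, ∃ b, Rel a b)
    (h2 : ∀ b, ∃ a, Rel a b) (h3 : ∀ a b b', Rel a b → Rel a b' → b = b')
    (h4 : ∀ a a' b, Rel a b → Rel a' b → a = a') : Nat.card α = Nat.card β := by
  choose f hf using h1
  apply Nat.card_congr
  apply Equiv.ofBijective f
  constructor
  · intro a a' h
    have := hf a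
    rw [h] at this
    exact h4 _ _ _ this (hf a')
  · intro b
    obtain ⟨a, ha⟩ := h2 b
    exact ⟨a, h3 _ _ _ (hf a) ha⟩

variable {n r : ℕ} {s ι : Type}
variable {K U : Type*} [Field K] [Field U] [Algebra K U] [Finite K] [IsAlgClosed U]

omit [Finite K] [IsAlgClosed U] in
/-- A monic polynomial of degree `n` with `n` different zeros is separable. -/
theorem sep_of_zeros (y : JJ r s × Fin n → K) {ρ : Fin n → U} (hρ : Function.Injective ρ)
    (hr : ∀ i, aeval (ρ i) (gP y) = 0) (i : Fin n) : aeval (ρ i) (derivative (gP y)) ≠ 0 := by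
  have h1 : (gP y).map (algebraMap K U) = ∏ j, (X - C (ρ j)) := by
    rw [← sub_eq_zero]
    have hm1 : ((gP y).map (algebraMap K U)).Monic := (gP_monic y).map _
    have hm2 : (∏ j, (X - C (ρ j))).Monic := monic_prod_of_monic _ _ (fun j _ => monic_X_sub_C _)
    have hd1 : ((gP y).map (algebraMap K U)).natDegree = n := by rw [natDegree_map, gP_natDegree]
    have hd2 : (∏ j, (X - C (ρ j))).natDegree = n := by
      rw [natDegree_prod_of_monic _ _ (fun j _ => monic_X_sub_C _)]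
      simp
    by_contra hne
    have hlt : ((gP y).map (algebraMap K U) - ∏ j, (X - C (ρ j))).natDegree < n := by
      have hn : (n : WithBot ℕ) = ((gP y).map (algebraMap K U)).degree := by
        rw [degree_eq_natDegree hm1.ne_zero, hd1]
      rw [natDegree_lt_iff_degree_lt hne, hn]
      apply degree_sub_lt_left
      · rw [degree_eq_natDegree hm1.ne_zero, degree_eq_natDegree hm2.ne_zero, hd1, hd2]
      · exact hm1.ne_zero
      · rw [hm1.leadingCoeff, hm2.leadingCoeff]
    apply hne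
    refine eq_zero_of_natDegree_lt_card_of_eval_eq_zero _ hρ (fun j => ?_)
      (by rwa [Fintype.card_fin])
    rw [eval_sub, eval_map_algebraMap, hr, eval_prod, Finset.prod_eq_zero (Finset.mem_univ j),
      sub_zero]
    simp
  have h2 : ((gP y).map (algebraMap K U)).Separable := by
    rw [h1]
    exact separable_prod_X_sub_C_iff.2 hρ
  rw [separable_map] at h2
  exact h2.aeval_derivative_ne_zero (hr i)

theorem card_LS (F : ι → MvPolynomial s ℤ) :
    Nat.card (WW U (Nat.card K) n r F) = Nat.card (LS K U n r F) := by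
  classical
  apply card_eq_of_rel (fun w z =>
    z.2.1 = w.2.1.1.1 ∧
    (∀ i l, aeval (z.2.1 i) (pj z.1.1 (Sum.inr (Sum.inl (Sum.inl l)))) = (w.2.2.1 l).1.1 i) ∧
    ∀ i t, aeval (z.2.1 i) (pj z.1.1 (Sum.inr (Sum.inr t))) = w.2.2.2.1 i t)
  · rintro ⟨σ, ⟨⟨ρ, hρσ⟩, hρ⟩, θ, ⟨v, hv, hvσ⟩⟩
    simp only at *
    -- the monic polynomial
    obtain ⟨cg, hcg⟩ := interp (K := K) (w := fun i => -ρ i ^ n) hρ hρσ (fun i => by
      have h1 := map_neg (frobHom K U) (ρ i ^ n)
      rw [frobHom_apply, frobHom_apply, ← pow_mul, mul_comm, pow_mul, hρσ] at h1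
      exact h1)
    let y0 : JJ r s × Fin n → K := fun x => if x.1 = Sum.inl false then cg x.2 else 0
    have hg0 : gP y0 = X ^ n + pol cg := by
      simp [gP, pj, y0]
    have hr0 : ∀ i, aeval (ρ i) (gP y0) = 0 := by
      intro i
      rw [hg0, map_add, hcg]
      simp
    have hder : ∀ i, aeval (ρ i) (derivative (gP y0)) ≠ 0 := sep_of_zeros y0 hρ hr0
    obtain ⟨cb, hcb⟩ := interp (K := K) (w := fun i => (aeval (ρ i) (derivative (gP y0)))⁻¹) hρ
      hρσ (fun i => by rw [inv_pow, frob_aeval, hρσ])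
    have hth : ∀ l, ∃ c : Fin n → K, ∀ i, aeval (ρ i) (pol c) = (θ l).1.1 i := fun l =>
      interp (K := K) hρ hρσ (θ l).1.2
    choose cth hcth using hth
    have hrh : ∀ l, ∃ c : Fin n → K, ∀ i, aeval ((θ l).1.1 i) (pol c) = ρ i := fun l =>
      interp (K := K) (θ l).2 (θ l).1.2 hρσ
    choose crh hcrh using hrh
    have hvv : ∀ t, ∃ c : Fin n → K, ∀ i, aeval (ρ i) (pol c) = v i t := fun t =>
      interp (K := K) hρ hρσ (fun i => hvσ i t)
    choose cv hcv using hvv
    let y : JJ r s × Fin n → K := fun x => match x.1 with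
      | Sum.inl false => cg x.2
      | Sum.inl true => cb x.2
      | Sum.inr (Sum.inl (Sum.inl l)) => cth l x.2
      | Sum.inr (Sum.inl (Sum.inr l)) => crh l x.2
      | Sum.inr (Sum.inr t) => cv t x.2
    have hg : gP y = gP y0 := by
      rw [hg0]
      rfl
    have hr : ∀ i, aeval (ρ i) (gP y) = 0 := by rw [hg]; exact hr0
    have hb : pj y (Sum.inl true) = pol cb := rfl
    have ht : ∀ l, pj y (Sum.inr (Sum.inl (Sum.inl l))) = pol (cth l) := fun l => rfl
    have hrr : ∀ l, pj y (Sum.inr (Sum.inl (Sum.inr l))) = pol (crh l) := fun l => rfl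
    have hvt : ∀ t, pj y (Sum.inr (Sum.inr t)) = pol (cv t) := fun t => rfl
    have hsol : ∀ x, MvPolynomial.aeval y (sysF n r F x) = 0 := by
      rw [data_of_sol y hρ hr]
      refine ⟨fun i => ?_, fun i l => ?_, fun i f => ?_⟩
      · rw [hb, hcb, hg, inv_mul_cancel₀ (hder i)]
      · rw [ht, hrr, hcth, hcrh]
      · simp only [hvt, hcv]
        exact hv i f
    refine ⟨⟨⟨y, hsol⟩, ⟨ρ, hρ, hr⟩⟩, rfl, fun i l => ?_, fun i t => ?_⟩
    · simp only
      rw [ht, hcth]
    · simp only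
      rw [hvt, hcv]
  · rintro ⟨⟨y, hy⟩, ⟨ρ, hρ, hr⟩⟩
    simp only at *
    obtain ⟨σ, hσ⟩ := exists_perm y hρ hr
    obtain ⟨h1, h2, h3⟩ := (data_of_sol y hρ hr).1 hy
    have hfr : ∀ (P : K[X]) (i : Fin n), (aeval (ρ i) P) ^ Nat.card K = aeval (ρ (σ i)) P :=
      fun P i => by rw [frob_aeval, hσ]
    refine ⟨⟨σ, ⟨⟨ρ, hσ⟩, hρ⟩, fun l => ⟨⟨fun i => aeval (ρ i)
      (pj y (Sum.inr (Sum.inl (Sum.inl l)))), fun i => hfr _ i⟩, fun i j hij => ?_⟩,
      ⟨fun i t => aeval (ρ i) (pj y (Sum.inr (Sum.inr t))), h3, fun i t => hfr _ i⟩⟩,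
      rfl, fun i l => rfl, fun i t => rfl⟩
    apply hρ
    simp only at hij
    rw [← h2 i l, ← h2 j l, hij]
  · rintro ⟨σ, ⟨⟨ρ, hρσ⟩, hρ⟩, θ, ⟨v, hv, hvσ⟩⟩ ⟨⟨y, hy⟩, ⟨ρ1, hρ1, hr1⟩⟩
      ⟨⟨y', hy'⟩, ⟨ρ2, hρ2, hr2⟩⟩ ⟨h1, h2, h3⟩ ⟨h1', h2', h3'⟩
    simp only at *
    subst h1
    subst h1'
    obtain ⟨a1, a2, a3⟩ := (data_of_sol y hρ hr1).1 hy
    obtain ⟨b1, b2, b3⟩ := (data_of_sol y' hρ hr2).1 hy'
    have key : ∀ j : JJ r s, (fun i => y (j, i)) = fun i => y' (j, i) := by
      have hg : (fun i => y (Sum.inl false, i)) = fun i => y' (Sum.inl false, i) := by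
        apply pol_unique hρ
        intro i
        have e1 := hr1 i
        have e2 := hr2 i
        rw [gP, map_add] at e1 e2
        exact add_left_cancel (e1.trans e2.symm)
      have hgP : gP y = gP y' := by
        rw [gP, gP, pj, pj, hg]
      rintro ((_ | _) | (l | l) | t)
      · exact hg
      · apply pol_unique hρ
        intro i
        have e1 := a1 i
        have e2 := b1 i
        rw [← hgP] at e2
        exact mul_right_cancel₀ (right_ne_zero_of_mul_eq_one e1) (e1.trans e2.symm)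
      · apply pol_unique hρ
        intro i
        exact (h2 i l).trans (h2' i l).symm
      · apply pol_unique (θ l).2
        intro i
        have e1 := a2 i l
        have e2 := b2 i l
        rw [h2 i l] at e1
        rw [h2' i l] at e2
        exact e1.trans e2.symm
      · apply pol_unique hρ
        intro i
        exact (h3 i t).trans (h3' i t).symm
    have hyy : y = y' := by
      funext ⟨j, i⟩
      exact congrFun (key j) i
    subst hyy
    rfl
  · rintro ⟨σ, ⟨⟨ρ, hρσ⟩, hρ⟩, θ, ⟨v, hv, hvσ⟩⟩ ⟨σ', ⟨⟨ρ', hρσ'⟩, hρ'⟩, θ', ⟨v', hv', hvσ'⟩⟩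
      ⟨⟨y, hy⟩, ⟨ρ1, hρ1, hr1⟩⟩ ⟨h1, h2, h3⟩ ⟨h1', h2', h3'⟩
    simp only at *
    subst h1
    subst h1'
    have hσ : σ = σ' := by
      ext i
      have : ρ1 (σ i) = ρ1 (σ' i) := (hρσ i).symm.trans (hρσ' i)
      rw [hρ this]
    subst hσ
    have hθ : θ = θ' := by
      funext l
      apply Subtype.ext
      apply Subtype.ext
      funext i
      exact (h2 i l).symm.trans (h2' i l)
    subst hθ
    have hvv : v = v' := by
      funext i t
      exact (h3 i t).symm.trans (h3' i t)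
    subst hvv
    rfl

end Pool.Agent.H32.HW
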