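import Pool.Agent.H32.HW.Pub

/-!
Definitions for the second version of the theorem on the separation of weights: smooth affine
cubic hypersurfaces over `ℤ`, affine schemes over `ℤ[1/N]`, and the ring of families of numbers
which they generate.
-/

namespace Pool.Agent.H32.HW

open Complex Finset

/-- The numbers of points of the affine cubic hypersurface `T (x, y, z) = 1` over `ℤ`, where `T`
is the trilinear form with coefficients `T i j l`.  (It is smooth over `ℤ`: at each point of it,
over any field, the sum of the products of the `x i` with the partial derivatives of `T` with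
respect to the `x i` is `T = 1`.) -/
noncomputable def cubic {a b c : ℕ} (T : Fin a → Fin b → Fin c → ℤ) (x : Idx 1) : ℕ :=
  Nat.card {v : (Fin a → x.K) × (Fin b → x.K) × (Fin c → x.K) //
    ∑ i, ∑ j, ∑ l, (T i j l : x.K) * v.1 i * v.2.1 j * v.2.2 l = 1}

/-- The zeta functions of all affine cubic hypersurfaces `T (x, y, z) = 1` over `ℤ`, with `T` a
trilinear form with coefficients `-1, 0, 1`, extend to meromorphic functions on `ℂ`, all of whose
zeros and poles have their real parts in `E`. -/
def Cubics (E : Set ℝ) : Prop := ∀ (a b c : ℕ) (T : Fin a → Fin b → Fin c → ℤ),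
  (∀ i j l, T i j l = -1 ∨ T i j l = 0 ∨ T i j l = 1) → Good E (fun x : Idx 1 => (cubic T x : ℂ))

variable {N : ℕ}

/-- The numbers of points, over the fields with `p ^ k` elements, of the closed subscheme of the
affine space over `ℤ[1/N]` with coordinates indexed by `σ`, defined by a finite set `F` of
polynomials. -/
noncomputable def affine {σ : Type} (F : Finset (MvPolynomial σ ℤ)) (N : ℕ) (x : Idx N) : ℕ :=
  Nat.card {v : σ → x.K // ∀ f ∈ F, MvPolynomial.aeval v f = 0}

/-- The point counts of all affine schemes of finite type over `ℤ[1/N]`, the point counts of all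
projective schemes `X` over `ℤ[1/N]`, and the traces of the powers of Frobenius on the `m`-th
exterior power of the cohomology of `X` in degree `i`, for all `i` and `m` (if `X` has Frobenius
eigenvalues as in `Weil`, for instance if `X` is smooth). -/
def Gens2 (N : ℕ) : Set (Idx N → ℂ) :=
  {u | ∃ (σ : Type) (_ : Fintype σ) (F : Finset (MvPolynomial σ ℤ)),
    u = (fun x => (affine F N x : ℂ)) ∨
      ((∀ f ∈ F, ∃ d : ℕ, f.IsHomogeneous d) ∧ (u = (fun x => (points F N x : ℂ)) ∨
        ∃ (n : ℕ) (b : ℕ → ℕ) (α : (i : ℕ) → ℕ → Fin (b i) → ℂ) (i m : ℕ),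
          Weil N n b α (fun x => (points F N x : ℤ)) ∧ i < n ∧ u = ext α i m))}

end Pool.Agent.H32.HW
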