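import Pool.Agent.H32.HW.Final
import Pool.Agent.H32.HW.Pub2

/-!
Smooth affine cubic hypersurfaces over `ℤ` suffice.
-/

namespace Pool.Agent.H32.HW

open Finset Pool.Agent.H73.Zeta

variable {N : ℕ} {E : Set ℝ}

/-! ### Counting -/

section field

variable {K : Type} [Field K] [Finite K]

/-- All values of a form which is linear in the first variables. -/
theorem cnt_values {V W : Type*} [AddCommGroup V] [Module K V] [Finite V] [Finite W]
    (f : V → W → K) (hf : ∀ (c : K) (v : V) (w : W), f (c • v) w = c * f v w) :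
    ((Nat.card V * Nat.card W : ℕ) : ℤ) = cnt (fun z : V × W => f z.1 z.2 = 0) +
      ((Nat.card K : ℤ) - 1) * cnt (fun z : V × W => f z.1 z.2 = 1) := by
  classical
  have := Fintype.ofFinite K
  have := Fintype.ofFinite V
  have := Fintype.ofFinite W
  have h1 := cnt_prod (fun u : (V × W) × K => f u.1.1 u.1.2 = u.2)
  have h2 := cnt_prod' (fun u : (V × W) × K => f u.1.1 u.1.2 = u.2)
  have h3 : ∀ z : V × W, cnt (fun c : K => f z.1 z.2 = c) = 1 := fun z => by
    have := cnt_eq (f z.1 z.2)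
    rw [← this]
    exact cnt_congr (fun c => eq_comm)
  rw [Finset.sum_congr rfl (fun z _ => h3 z)] at h1
  have h4 : ∀ c : K, c ≠ 0 → cnt (fun z : V × W => f z.1 z.2 = c) =
      cnt (fun z : V × W => f z.1 z.2 = 1) := by
    intro c hc
    let e : V × W ≃ V × W :=
      { toFun := fun z => (c • z.1, z.2)
        invFun := fun z => (c⁻¹ • z.1, z.2)
        left_inv := fun z => by simp [smul_smul, inv_mul_cancel₀ hc]
        right_inv := fun z => by simp [smul_smul, mul_inv_cancel₀ hc] }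
    rw [← cnt_equiv e (fun z : V × W => f z.1 z.2 = c)]
    apply cnt_congr
    intro z
    show f (c • z.1) z.2 = c ↔ _
    rw [hf]
    constructor
    · intro h
      exact mul_left_cancel₀ hc (h.trans (mul_one c).symm)
    · intro h
      rw [h, mul_one]
  have h5 : ∑ c : K, cnt (fun z : V × W => f z.1 z.2 = c) = cnt (fun z : V × W => f z.1 z.2 = 0) +
      ((Nat.card K : ℤ) - 1) * cnt (fun z : V × W => f z.1 z.2 = 1) := by
    rw [← Finset.add_sum_erase _ _ (Finset.mem_univ (0 : K))]
    congr 1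
    rw [Finset.sum_congr rfl (fun c hc => h4 c (Finset.ne_of_mem_erase hc)), Finset.sum_const,
      Finset.card_erase_of_mem (Finset.mem_univ _), nsmul_eq_mul, Nat.card_eq_fintype_card,
      Finset.card_univ, Nat.cast_sub Fintype.card_pos, Nat.cast_one]
  rw [← h5, ← h2, h1]
  simp only [Finset.sum_const, Finset.card_univ, mul_one, nsmul_eq_mul,
    Fintype.card_prod, Nat.card_eq_fintype_card]

end field

/-- The numbers of points of `T (x, y, z) = 1`. -/
noncomputable def cubCount {a b c : ℕ} (T : Fin a → Fin b → Fin c → ℤ) : Counts :=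
  fun p k => (Nat.card {z : (Fin a → FF p k) × (Fin b → FF p k) × (Fin c → FF p k) //
    ∑ i, ∑ j, ∑ l, (T i j l : FF p k) * z.1 i * z.2.1 j * z.2.2 l = 1} : ℤ)

theorem cub_good (h : Cubics E) {a b c : ℕ} (T : Fin a → Fin b → Fin c → ℤ)
    (hT : ∀ i j l, T i j l = -1 ∨ T i j l = 0 ∨ T i j l = 1) : GB E (cubCount T) := by
  constructor
  · obtain ⟨g, g1, g2, C, g3⟩ := h a b c T hT
    have hc : ∀ (p : Nat.Primes) (k : ℕ), k ≠ 0 → (p : ℕ) ∣ 1 → cubCount T p k = 0 :=
      fun p k _ hd => absurd hd (fun h1 => p.2.one_lt.ne' (Nat.dvd_one.1 h1))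
    refine ⟨g, g1, g2, C, fun s hs => ?_⟩
    rw [g3 s hs, zeta_eq_LF (N := 1) hc]
    rfl
  · exact bdd_cnt (α := fun p k => (Fin a → FF p k) × (Fin b → FF p k) × (Fin c → FF p k))
      (a + (b + c)) (fun p k hk => by
        rw [Nat.card_prod, Nat.card_prod]
        push_cast
        rw [card_fun, card_fun, card_fun, card_FF p hk, Fintype.card_fin, Fintype.card_fin,
          Fintype.card_fin]
        ring) _

theorem cub_one (p : Nat.Primes) {k : ℕ} (hk : k ≠ 0) :
    cubCount (fun (_ : Fin 1) (_ : Fin 1) (_ : Fin 1) => (1 : ℤ)) p k =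
      ((p : ℤ) ^ k - 1) * (((p : ℤ) ^ k - 1) * 1) := by
  have := Fintype.ofFinite (FF p k)
  have h1 : (Nat.card (FF p k)ˣ : ℤ) = (p : ℤ) ^ k - 1 := by
    rw [← card_FF p hk, Nat.card_units, Nat.cast_sub Nat.card_pos, Nat.cast_one]
  let e : {z : (Fin 1 → FF p k) × (Fin 1 → FF p k) × (Fin 1 → FF p k) //
      ∑ _i, ∑ _j, ∑ _l, ((1 : ℤ) : FF p k) * z.1 _i * z.2.1 _j * z.2.2 _l = 1} ≃
      (FF p k)ˣ × (FF p k)ˣ :=
    { toFun := fun z =>
        have hz : z.1.1 0 * z.1.2.1 0 * z.1.2.2 0 = 1 := by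
          have := z.2
          simpa using this
        (Units.mkOfMulEqOne (z.1.1 0) (z.1.2.1 0 * z.1.2.2 0) (by linear_combination hz),
          Units.mkOfMulEqOne (z.1.2.1 0) (z.1.1 0 * z.1.2.2 0) (by linear_combination hz))
      invFun := fun u => ⟨(fun _ => (u.1 : FF p k), fun _ => (u.2 : FF p k),
        fun _ => ((u.1⁻¹ * u.2⁻¹ : (FF p k)ˣ) : FF p k)), by
          simp only [Finset.univ_unique, Finset.sum_const, Finset.card_singleton, one_smul,
            Int.cast_one, one_mul]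
          rw [← Units.val_mul, ← Units.val_mul]
          have : u.1 * u.2 * (u.1⁻¹ * u.2⁻¹) = 1 := by
            rw [mul_mul_mul_comm]; simp
          rw [this, Units.val_one]⟩
      left_inv := by
        rintro ⟨⟨x, y, z⟩, h⟩
        have hz : x 0 * y 0 * z 0 = 1 := by simpa using h
        apply Subtype.ext
        have hx0 : x 0 ≠ 0 := fun h0 => by rw [h0] at hz; simp at hz
        have hy0 : y 0 ≠ 0 := fun h0 => by rw [h0] at hz; simp at hz
        refine Prod.ext (funext fun i => ?_) (Prod.ext (funext fun i => ?_) (funext fun i => ?_))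
        · rw [Subsingleton.elim i 0]; rfl
        · rw [Subsingleton.elim i 0]; rfl
        · rw [Subsingleton.elim i 0]
          show ((Units.mkOfMulEqOne (x 0) (y 0 * z 0) _)⁻¹ *
            (Units.mkOfMulEqOne (y 0) (x 0 * z 0) _)⁻¹ : (FF p k)ˣ).val = z 0
          rw [Units.val_mul, Units.val_inv_eq_inv_val, Units.val_inv_eq_inv_val]
          show (x 0)⁻¹ * (y 0)⁻¹ = z 0
          field_simp
          linear_combination -hz
      right_inv := by
        rintro ⟨u, v⟩
        apply Prod.ext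
        · apply Units.ext; rfl
        · apply Units.ext; rfl }
  have h2 := Nat.card_congr e
  unfold cubCount
  rw [h2, Nat.card_prod]
  push_cast
  rw [h1, mul_one]

theorem tri_of_cubics (hE : ∀ x : ℝ, x + 1 ∈ E ↔ x ∈ E) (h : Cubics E) : Tri E := by
  have hone : GB E (fun _ _ => (1 : ℤ)) := by
    have h1 := cub_good h (fun (_ : Fin 1) (_ : Fin 1) (_ : Fin 1) => (1 : ℤ))
      (fun _ _ _ => Or.inr (Or.inr rfl))
    exact GB.div hE (GB.div hE (h1.congr (fun p k hk => cub_one p hk)))
  intro a b c T hT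
  have hc := cub_good h T hT
  have hq := hone.shift hE (a + (b + c))
  have h1 := hc.shift hE 1
  refine ((hq.sub (h1.sub hc)).congr (fun p k hk => ?_)).1
  have := Fintype.ofFinite (FF p k)
  have h2 := cnt_values (K := FF p k) (V := Fin a → FF p k)
    (W := (Fin b → FF p k) × (Fin c → FF p k))
    (fun x w => ∑ i, ∑ j, ∑ l, (T i j l : FF p k) * x i * w.1 j * w.2 l)
    (fun r x w => by
      simp only [Finset.mul_sum, Pi.smul_apply, smul_eq_mul]
      refine Finset.sum_congr rfl fun i _ => Finset.sum_congr rfl fun j _ =>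
        Finset.sum_congr rfl fun l _ => ?_
      ring)
  rw [Nat.card_prod] at h2
  push_cast at h2
  rw [card_fun, card_fun, card_fun, card_FF p hk, Fintype.card_fin, Fintype.card_fin,
    Fintype.card_fin] at h2
  have h3 : cnt (fun z : (Fin a → FF p k) × ((Fin b → FF p k) × (Fin c → FF p k)) =>
      ∑ i, ∑ j, ∑ l, (T i j l : FF p k) * z.1 i * z.2.1 j * z.2.2 l = 0) = triCount T p k := rfl
  have h4 : cnt (fun z : (Fin a → FF p k) × ((Fin b → FF p k) × (Fin c → FF p k)) =>
      ∑ i, ∑ j, ∑ l, (T i j l : FF p k) * z.1 i * z.2.1 j * z.2.2 l = 1) = cubCount T p k := rfl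
  rw [h3, h4] at h2
  have h5 : ((p : ℤ) ^ k) ^ (a + (b + c)) = ((p : ℤ) ^ k) ^ a * (((p : ℤ) ^ k) ^ b *
      ((p : ℤ) ^ k) ^ c) := by rw [pow_add, pow_add]
  show ((p : ℤ) ^ k) ^ (a + (b + c)) * 1 - (((p : ℤ) ^ k) ^ 1 * cubCount T p k - cubCount T p k) = _
  rw [h5, mul_one, h2]
  ring

end Pool.Agent.H32.HW
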