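import Mathlib

/-!
Counting families of points which a self map permutes in a prescribed way.
-/

namespace Pool.Agent.H32.HW

open Finset

variable {V : Type*} (φ : V → V)

/-- Families `v` of points, indexed by `α`, with `φ ^ (ℓ i) (v i) = v (σ i)`. -/
def VS {α : Type*} (σ : Equiv.Perm α) (ℓ : α → ℕ) : Type _ :=
  {v : α → V // ∀ i, φ^[ℓ i] (v i) = v (σ i)}

/-- Their number. -/
noncomputable def vc {α : Type*} (σ : Equiv.Perm α) (ℓ : α → ℕ) : ℕ := Nat.card (VS φ σ ℓ)

theorem vc_equiv {α β : Type*} (e : α ≃ β) (σ : Equiv.Perm α) (ℓ : α → ℕ) :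
    vc φ (e.permCongr σ) (fun b => ℓ (e.symm b)) = vc φ σ ℓ := by
  unfold vc
  apply Nat.card_congr
  refine
    { toFun := fun v => ⟨fun a => v.1 (e a), fun a => ?_⟩
      invFun := fun v => ⟨fun b => v.1 (e.symm b), fun b => ?_⟩
      left_inv := fun v => Subtype.ext (funext fun b => by simp)
      right_inv := fun v => Subtype.ext (funext fun a => by simp) }
  · have := v.2 (e a)
    simpa using this
  · have := v.2 (e.symm b)
    simpa using this

/-- The number of fixed points of `φ ^ m`. -/
noncomputable def fx (m : ℕ) : ℕ := Nat.card {v : V // φ^[m] v = v}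

theorem vc_none {α : Type*} [DecidableEq α] (τ : Equiv.Perm α) (ℓ : Option α → ℕ) :
    vc φ (Equiv.Perm.decomposeOption.symm (none, τ)) ℓ =
      fx φ (ℓ none) * vc φ τ (fun i => ℓ (some i)) := by
  unfold vc fx
  rw [← Nat.card_prod]
  apply Nat.card_congr
  refine
    { toFun := fun v => (⟨v.1 none, ?_⟩, ⟨fun i => v.1 (some i), fun i => ?_⟩)
      invFun := fun v => ⟨fun o => Option.elim o v.1.1 v.2.1, fun o => ?_⟩
      left_inv := fun v => Subtype.ext (funext fun o => by cases o <;> rfl)
      right_inv := fun v => rfl }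
  · have := v.2 none
    simpa using this
  · have := v.2 (some i)
    simpa using this
  · cases o with
    | none => simpa using v.1.2
    | some i => simpa using v.2.2 i

theorem vc_some {α : Type*} [DecidableEq α] (τ : Equiv.Perm α) (j : α) (ℓ : Option α → ℕ) :
    vc φ (Equiv.Perm.decomposeOption.symm (some j, τ)) ℓ =
      vc φ τ (fun i => (if τ i = j then ℓ none else 0) + ℓ (some i)) := by
  unfold vc
  apply Nat.card_congr
  have h0 : ∀ i, (Equiv.Perm.decomposeOption.symm (some j, τ)) (some i) =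
      if τ i = j then none else some (τ i) := by
    intro i
    rw [Equiv.Perm.decomposeOption_symm_apply]
    simp only [Equiv.Perm.mul_apply, Equiv.optionCongr_apply, Option.map_some]
    split_ifs with h
    · rw [h, Equiv.swap_apply_right]
    · rw [Equiv.swap_apply_of_ne_of_ne (by simp) (by simpa using h)]
  have h1 : (Equiv.Perm.decomposeOption.symm (some j, τ)) none = some j := by
    rw [Equiv.Perm.decomposeOption_symm_apply]
    simp
  refine
    { toFun := fun v => ⟨fun i => v.1 (some i), fun i => ?_⟩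
      invFun := fun w => ⟨fun o => Option.elim o
        (φ^[ℓ (some (τ.symm j))] (w.1 (τ.symm j))) w.1, fun o => ?_⟩
      left_inv := fun v => Subtype.ext (funext fun o => ?_)
      right_inv := fun v => rfl }
  · have h2 := v.2 (some i)
    rw [h0] at h2
    show φ^[(if τ i = j then ℓ none else 0) + ℓ (some i)] (v.1 (some i)) = v.1 (some (τ i))
    split_ifs with h
    · rw [if_pos h] at h2
      have h3 := v.2 none
      rw [h1] at h3
      rw [Function.iterate_add_apply, h2, h3, h]
    · rw [if_neg h] at h2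
      rw [zero_add, h2]
  · cases o with
    | none =>
      rw [h1]
      have h2 : φ^[(if τ (τ.symm j) = j then ℓ none else 0) + ℓ (some (τ.symm j))]
        (w.1 (τ.symm j)) = w.1 (τ (τ.symm j)) := w.2 (τ.symm j)
      rw [if_pos (by simp), Function.iterate_add_apply, Equiv.apply_symm_apply] at h2
      exact h2
    | some i =>
      rw [h0]
      have h2 : φ^[(if τ i = j then ℓ none else 0) + ℓ (some i)] (w.1 i) = w.1 (τ i) := w.2 i
      split_ifs with h
      · have : i = τ.symm j := by rw [← h]; simp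
        rw [this]
        rfl
      · rw [if_neg h, zero_add] at h2
        exact h2
  · cases o with
    | none =>
      have h2 := v.2 (some (τ.symm j))
      rw [h0, if_pos (by simp)] at h2
      exact h2
    | some i => rfl

/-- The total number, over all permutations. -/
noncomputable def tc {α : Type*} [Fintype α] [DecidableEq α] (ℓ : α → ℕ) : ℕ :=
  ∑ σ : Equiv.Perm α, vc φ σ ℓ

theorem tc_equiv {α β : Type*} [Fintype α] [DecidableEq α] [Fintype β] [DecidableEq β]
    (e : α ≃ β) (ℓ : α → ℕ) : tc φ (fun b => ℓ (e.symm b)) = tc φ ℓ := by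
  unfold tc
  rw [← Equiv.sum_comp e.permCongr]
  exact Finset.sum_congr rfl (fun σ _ => vc_equiv φ e σ ℓ)

theorem tc_option {α : Type*} [Fintype α] [DecidableEq α] (ℓ : Option α → ℕ) :
    tc φ ℓ = fx φ (ℓ none) * tc φ (fun i => ℓ (some i)) +
      ∑ j, tc φ (fun i => (if i = j then ℓ none else 0) + ℓ (some i)) := by
  unfold tc
  rw [← Equiv.sum_comp Equiv.Perm.decomposeOption.symm, Fintype.sum_prod_type,
    Fintype.sum_option]
  congr 1
  · rw [Finset.mul_sum]
    exact Finset.sum_congr rfl (fun τ _ => vc_none φ τ ℓ)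
  · rw [Finset.sum_comm]
    rw [Finset.sum_comm (s := (Finset.univ : Finset α)) (t := (Finset.univ : Finset (Equiv.Perm α)))]
    apply Finset.sum_congr rfl
    intro τ _
    rw [← Equiv.sum_comp τ]
    apply Finset.sum_congr rfl
    intro j _
    rw [vc_some]
    simp only [EmbeddingLike.apply_eq_iff_eq]

/-- All lengths are `1`. -/
noncomputable def S1 (n : ℕ) : ℕ := tc φ (fun _ : Fin n => 1)

/-- All lengths are `1`, except for one, which is `m`. -/
noncomputable def S2 (n m : ℕ) : ℕ := tc φ (fun o : Option (Fin n) => Option.elim o m (fun _ => 1))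

theorem S1_succ (n : ℕ) : S1 φ (n + 1) = S2 φ n 1 := by
  unfold S1 S2
  rw [← tc_equiv φ (finSuccEquiv n)]
  congr 1
  funext o
  cases o <;> rfl

theorem bump (n m : ℕ) (j : Fin (n + 1)) :
    tc φ (fun i : Fin (n + 1) => (if i = j then m else 0) + 1) = S2 φ n (m + 1) := by
  unfold S2
  rw [← tc_equiv φ (finSuccEquiv' j)]
  congr 1
  funext o
  cases o with
  | none => simp
  | some i =>
    have h1 : (finSuccEquiv' j).symm (some i) ≠ j := by
      rw [finSuccEquiv'_symm_some]
      exact Fin.succAbove_ne j i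
    show (if (finSuccEquiv' j).symm (some i) = j then m else 0) + 1 = 1
    rw [if_neg h1]

theorem S2_zero (m : ℕ) : S2 φ 0 m = fx φ m * S1 φ 0 := by
  unfold S2 S1
  rw [tc_option]
  simp only [Option.elim_none, Option.elim_some, Finset.univ_eq_empty, Finset.sum_empty, add_zero]

theorem S2_succ (n m : ℕ) :
    S2 φ (n + 1) m = fx φ m * S1 φ (n + 1) + (n + 1) * S2 φ n (m + 1) := by
  rw [S2, tc_option]
  simp only [Option.elim_none, Option.elim_some]
  rw [S1, Finset.sum_congr rfl (fun j _ => bump φ n m j), Finset.sum_const, Finset.card_univ,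
    Fintype.card_fin, smul_eq_mul]

theorem S1_zero : S1 φ 0 = 1 := by
  unfold S1 tc vc VS
  rw [Fintype.sum_unique]
  have : Unique {v : Fin 0 → V // ∀ i, φ^[1] (v i) = v ((default : Equiv.Perm (Fin 0)) i)} :=
    { default := ⟨fun i => i.elim0, fun i => i.elim0⟩
      uniq := fun v => Subtype.ext (funext fun i => i.elim0) }
  exact Nat.card_unique

theorem S2_formula (n m : ℕ) : (S2 φ n m : ℂ) = (n.factorial : ℂ) *
    ∑ j ∈ range (n + 1), (fx φ (m + j) : ℂ) * ((S1 φ (n - j) : ℂ) / ((n - j).factorial : ℂ)) := by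
  induction n generalizing m with
  | zero =>
    rw [S2_zero, S1_zero]
    simp [S1_zero]
  | succ n ih =>
    rw [S2_succ]
    have h0 : ((n + 1).factorial : ℂ) ≠ 0 := by exact_mod_cast Nat.factorial_ne_zero _
    have h2 : ((n + 1).factorial : ℂ) = ((n : ℂ) + 1) * (n.factorial : ℂ) := by
      rw [Nat.factorial_succ]; push_cast; ring
    have h3 : ∑ j ∈ range (n + 1 + 1), (fx φ (m + j) : ℂ) *
        ((S1 φ (n + 1 - j) : ℂ) / ((n + 1 - j).factorial : ℂ)) =
        (∑ j ∈ range (n + 1), (fx φ (m + 1 + j) : ℂ) *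
        ((S1 φ (n - j) : ℂ) / ((n - j).factorial : ℂ))) +
        (fx φ m : ℂ) * ((S1 φ (n + 1) : ℂ) / ((n + 1).factorial : ℂ)) := by
      rw [Finset.sum_range_succ' _ (n + 1)]
      congr 1
      apply Finset.sum_congr rfl
      intro j _
      rw [Nat.add_sub_add_right, show m + (j + 1) = m + 1 + j by ring]
    have h4 : ((n + 1).factorial : ℂ) * ((fx φ m : ℂ) * ((S1 φ (n + 1) : ℂ) /
        ((n + 1).factorial : ℂ))) = (fx φ m : ℂ) * (S1 φ (n + 1) : ℂ) := by
      field_simp
    rw [h3, mul_add, h4, h2, Nat.cast_add, Nat.cast_mul, Nat.cast_mul, ih (m + 1)]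
    push_cast
    ring

/-- The recursion for the numbers `S1 n / n!`. -/
theorem S1_rec (n : ℕ) : ((n : ℂ) + 1) * ((S1 φ (n + 1) : ℂ) / ((n + 1).factorial : ℂ)) =
    ∑ j ∈ range (n + 1), (fx φ (j + 1) : ℂ) * ((S1 φ (n - j) : ℂ) / ((n - j).factorial : ℂ)) := by
  rw [S1_succ, S2_formula, Nat.factorial_succ]
  have h0 : (n.factorial : ℂ) ≠ 0 := by exact_mod_cast Nat.factorial_ne_zero _
  have h1 : ((n : ℂ) + 1) ≠ 0 := Nat.cast_add_one_ne_zero n
  push_cast
  field_simp
  apply Finset.sum_congr rfl
  intro j _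
  rw [add_comm 1 j]

end Pool.Agent.H32.HW
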