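import Pool.Agent.H32.HW.Anal

/-!
Euler products.
-/

namespace Pool.Agent.H32.HW

open Complex Filter Topology

variable {N : ℕ}

/-- The set of indices as a product. -/
def idxEquiv (N : ℕ) : {p : ℕ // p.Prime ∧ ¬ p ∣ N} × ℕ ≃ Idx N where
  toFun z := ⟨z.1.1, z.2 + 1, z.1.2.1, z.1.2.2, Nat.succ_ne_zero _⟩
  invFun x := (⟨x.p, x.prime, x.ndvd⟩, x.k - 1)
  left_inv := fun z => rfl
  right_inv := fun x => by
    ext
    · rfl
    · exact Nat.sub_add_cancel (Nat.one_le_iff_ne_zero.2 x.pos)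

/-- The Euler product. -/
theorem LF_euler {b : ℕ} (β : ℕ → Fin b → ℂ) (w : ℕ)
    (h : ∀ p : ℕ, p.Prime → ¬ p ∣ N → ∀ j, ‖β p j‖ = (p : ℝ) ^ ((w : ℝ) / 2)) {s : ℂ}
    (hs : 1 + (w : ℝ) / 2 < s.re) :
    LF (fun x : Idx N => ∑ j, β x.p j ^ x.k) s =
      ∏' p : {p : ℕ // p.Prime ∧ ¬ p ∣ N}, (∏ j, (1 - β p j * (p : ℂ) ^ (-s)))⁻¹ := by
  have hgr : Gr (w : ℤ) (fun x : Idx N => ∑ j, β x.p j ^ x.k) := by
    refine ⟨b, Nat.cast_nonneg _, fun x => ?_⟩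
    have h1 : ∀ j, ‖β x.p j ^ x.k‖ = x.r ^ (w : ℤ) := by
      intro j
      rw [norm_pow, h x.p x.prime x.ndvd j, x.r_eq, zpow_natCast, ← Real.rpow_natCast,
        ← Real.rpow_natCast, ← Real.rpow_mul (Nat.cast_nonneg _),
        ← Real.rpow_mul (Nat.cast_nonneg _)]
      congr 1
      ring
    refine (norm_sum_le _ _).trans ?_
    rw [Finset.sum_congr rfl (fun j _ => h1 j), Finset.sum_const, Finset.card_univ,
      Fintype.card_fin, nsmul_eq_mul]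
  have hsum := hgr.summable (s := s) (by rw [Int.cast_natCast]; exact hs)
  have h1 : HasSum (fun z : {p : ℕ // p.Prime ∧ ¬ p ∣ N} × ℕ =>
      lterm (fun x : Idx N => ∑ j, β x.p j ^ x.k) s (idxEquiv N z))
      (∑' x, lterm (fun x : Idx N => ∑ j, β x.p j ^ x.k) s x) :=
    (Equiv.hasSum_iff (idxEquiv N)).2 hsum.hasSum
  -- the Euler factor
  have hz : ∀ (p : {p : ℕ // p.Prime ∧ ¬ p ∣ N}) (j : Fin b),
      ‖β p j * (p : ℂ) ^ (-s)‖ < 1 := by
    intro p j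
    have hp : (1 : ℝ) < (p : ℕ) := by exact_mod_cast p.2.1.one_lt
    rw [norm_mul, h p.1 p.2.1 p.2.2 j, Complex.norm_natCast_cpow_of_pos p.2.1.pos,
      ← Real.rpow_add (by linarith)]
    apply Real.rpow_lt_one_of_one_lt_of_neg hp
    rw [neg_re]
    linarith
  have h2 : ∀ p : {p : ℕ // p.Prime ∧ ¬ p ∣ N}, HasSum (fun k : ℕ =>
      lterm (fun x : Idx N => ∑ j, β x.p j ^ x.k) s (idxEquiv N (p, k)))
      (∑ j, -Complex.log (1 - β p j * (p : ℂ) ^ (-s))) := by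
    intro p
    have h3 : ∀ j : Fin b, HasSum (fun k : ℕ => (β p j * (p : ℂ) ^ (-s)) ^ (k + 1) /
        ((k + 1 : ℕ) : ℂ)) (-Complex.log (1 - β p j * (p : ℂ) ^ (-s))) := by
      intro j
      have h4 := Complex.hasSum_taylorSeries_neg_log (hz p j)
      rw [← hasSum_nat_add_iff' 1] at h4
      simpa using h4
    refine (hasSum_sum (fun j (_ : j ∈ Finset.univ) => h3 j)).congr_fun ?_
    intro k
    have hp0 : ((p : ℕ) : ℂ) ≠ 0 := by exact_mod_cast p.2.1.ne_zero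
    show (∑ j, β p.1 j ^ (k + 1)) / ((k + 1 : ℕ) : ℂ) *
      ((p : ℕ) : ℂ) ^ (-(((k + 1 : ℕ) : ℂ) * s)) = _
    rw [show -(((k + 1 : ℕ) : ℂ) * s) = ((k + 1 : ℕ) : ℂ) * (-s) by ring,
      Complex.cpow_nat_mul, Finset.sum_div, Finset.sum_mul]
    apply Finset.sum_congr rfl
    intro j _
    rw [mul_pow]
    ring
  have h3 := h1.prod_fiberwise h2
  have h4 := h3.cexp
  unfold LF
  rw [← h4.tprod_eq]
  apply tprod_congr
  intro p
  show cexp (∑ j, -Complex.log (1 - β p j * (p : ℂ) ^ (-s))) = _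
  rw [Complex.exp_sum, ← Finset.prod_inv_distrib]
  apply Finset.prod_congr rfl
  intro j _
  rw [Complex.exp_neg, Complex.exp_log]
  intro h0
  have := hz p j
  rw [← sub_eq_zero.1 h0, norm_one] at this
  exact lt_irrefl _ this

end Pool.Agent.H32.HW
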