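import Pool.Agent.H32.HW.Main
import Pool.Agent.H32.HW.Euler
import Pool.Agent.H90.HW.GoodSegre

/-!
The main theorems.
-/

namespace Pool.Agent.H32.HW

open Finset Pool.Agent.H73.Zeta

variable {N : ℕ} {E : Set ℝ}

/-! ### Comparison with the definitions of H73 -/

theorem points_eq {σ : Type} (F : Finset (MvPolynomial σ ℤ)) :
    (fun x : Idx N => (points F N x : ℂ)) = pc F N := by
  funext x
  unfold pc projCount
  rw [if_neg (show ¬ ((x.pr : ℕ) ∣ N) from x.ndvd)]
  push_cast
  rfl

theorem good_iff {σ : Type} (F : Finset (MvPolynomial σ ℤ)) :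
    Pool.Agent.H73.Zeta.Good E (projCount F N) ↔
      Good E (fun x : Idx N => (points F N x : ℂ)) := by
  have hc : ∀ (p : Nat.Primes) (k : ℕ), k ≠ 0 → (p : ℕ) ∣ N → projCount F N p k = 0 := by
    intro p k _ hd
    unfold projCount
    rw [if_pos hd]
  rw [points_eq]
  constructor
  · exact good_transfer hc
  · rintro ⟨g, g1, g2, C, g3⟩
    exact ⟨g, g1, g2, C, fun s hs => by rw [g3 s hs, zeta_eq_LF hc]; rfl⟩

/-- The hypothesis on all linear sections of Segre varieties. -/
def SegreGood (E : Set ℝ) : Prop := ∀ (n a b : ℕ) (T : Fin n → Fin a → Fin b → ℤ),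
  (∀ i j l, T i j l = -1 ∨ T i j l = 0 ∨ T i j l = 1) → Good E (fun x : Idx 1 => (segre T x : ℂ))

theorem tri_of_segreGood (hE : ∀ x : ℝ, x + 1 ∈ E ↔ x ∈ E) (h : SegreGood E) : Tri E := by
  refine Pool.Agent.H90.HW.tri_of_segre hE (fun n a b T hT => ?_)
  obtain ⟨g, g1, g2, C, g3⟩ := h n a b T hT
  have hc : ∀ (p : Nat.Primes) (k : ℕ), k ≠ 0 → (p : ℕ) ∣ 1 →
      Pool.Agent.H90.HW.segreCount T p k = 0 := fun p k _ hd =>
    absurd hd (fun h1 => p.2.one_lt.ne' (Nat.dvd_one.1 h1))
  refine ⟨g, g1, g2, C, fun s hs => ?_⟩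
  rw [g3 s hs, zeta_eq_LF (N := 1) hc]
  rfl

/-! ### All schemes -/

theorem ext_eq_es {b : ℕ → ℕ} (α : (i : ℕ) → ℕ → Fin (b i) → ℂ) (i m : ℕ) :
    (ext α i m : Fam N) = es (ev α i) m := by
  funext x
  unfold ext es ev
  simp only [Finset.sum_apply, Finset.prod_apply]

theorem ext_mem {σ : Type} [Fintype σ] {F : Finset (MvPolynomial σ ℤ)}
    (hF : ∀ f ∈ F, ∃ d : ℕ, f.IsHomogeneous d) {n : ℕ} {b : ℕ → ℕ}
    {α : (i : ℕ) → ℕ → Fin (b i) → ℂ} (h : Weil N n b α (fun x => (points F N x : ℤ)))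
    {i : ℕ} (hi : i < n) (m : ℕ) : (ext α i m : Fam N) ∈ hat (A0 N) adm_A0 := by
  rw [ext_eq_es]
  refine separate adm_A0 n α (fun i hi x j => h.pure i hi x.p x.prime x.ndvd j) (pc F N)
    (fun x => ?_) (fun m => hs_pc_mem hF m) i hi m
  rw [← points_eq, ← h.trace x]
  push_cast
  rfl

/-- **Theorem B**, ring form. -/
theorem all_schemes (hE : ∀ x : ℝ, x + 1 ∈ E ↔ x ∈ E) (h : SegreGood E)
    (N : ℕ) (t : Idx N → ℂ) (ht : t ∈ Subring.closure (Gens N)) : Good E t := by
  have hT := tri_of_segreGood hE h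
  refine hat_good adm_A0 (fun t ht => A0_good hT hE ht) ?_
  have hle : Subring.closure (Gens N) ≤ hat (A0 N) adm_A0 := by
    rw [Subring.closure_le]
    rintro u ⟨σ, _, F, hF, rfl | ⟨n, b, α, i, m, hW, hi, rfl⟩⟩
    · rw [points_eq, pc_eq hF (Fintype.equivFin σ)]
      classical
      exact (hat (A0 N) adm_A0).sum_mem (fun j _ => hat_of_mem adm_A0 (cf_mem _))
    · exact ext_mem hF hW hi m
  exact hle ht

/-- **Theorem B**, for the single L-functions. -/
theorem single (hE : ∀ x : ℝ, x + 1 ∈ E ↔ x ∈ E) (h : SegreGood E)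
    (σ : Type) [Fintype σ] (F : Finset (MvPolynomial σ ℤ))
    (hF : ∀ f ∈ F, ∃ d : ℕ, f.IsHomogeneous d) (N n : ℕ) (b : ℕ → ℕ)
    (α : (i : ℕ) → ℕ → Fin (b i) → ℂ) (hW : Weil N n b α (fun x => (points F N x : ℤ)))
    (i : ℕ) (hi : i < n) :
    ∃ g : ℂ → ℂ, Meromorphic g ∧ (∀ s, meromorphicOrderAt g s ≠ 0 → s.re ∈ E) ∧
      ∃ c : ℝ, ∀ s : ℂ, c < s.re → g s = ∏' p : {p : ℕ // p.Prime ∧ ¬ p ∣ N},
        (∏ j, (1 - α i p j * (p : ℂ) ^ (-s)))⁻¹ := by
  have h1 : Good E (ext α i 1 : Fam N) := all_schemes hE h N _ (Subring.subset_closure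
    ⟨σ, inferInstance, F, hF, Or.inr ⟨n, b, α, i, 1, hW, hi, rfl⟩⟩)
  obtain ⟨g, g1, g2, c, g3⟩ := h1
  refine ⟨g, g1, g2, max c (1 + (i : ℝ) / 2), fun s hs => ?_⟩
  rw [max_lt_iff] at hs
  rw [g3 s hs.1, ← LF_euler (α i) i (hW.pure i hi) hs.2]
  congr 1
  funext x
  unfold ext
  rw [Finset.powersetCard_one, Finset.sum_map]
  simp

/-! ### One scheme -/

theorem psi_gr {w : ℕ} {t : Fam N} (ht : Gr (w : ℤ) t) (j : ℕ) :
    Gr (((j + 1 : ℕ) : ℤ) * w) (psi j t) := by
  obtain ⟨C, hC, h⟩ := ht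
  refine ⟨C, hC, fun x => (h (x.up j)).trans (le_of_eq ?_)⟩
  have h1 : (x.up j).r = x.r ^ (j + 1) := by
    have h2 : (x.up j).r ^ 2 = (x.r ^ (j + 1)) ^ 2 := by
      rw [Idx.r_sq, ← pow_mul, mul_comm, pow_mul, Idx.r_sq]
      show (((x.p ^ ((j + 1) * x.k) : ℕ)) : ℝ) = ((x.p ^ x.k : ℕ) : ℝ) ^ (j + 1)
      push_cast
      rw [← pow_mul, mul_comm]
    have h3 : 0 ≤ x.r ^ (j + 1) := pow_nonneg x.r_pos.le _
    exact (pow_left_inj₀ (x.up j).r_pos.le h3 two_ne_zero).1 h2
  rw [h1, zpow_mul, zpow_natCast, zpow_natCast, zpow_natCast]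

theorem hs_succ (t : Fam N) (n : ℕ) : hs t (n + 1) = fun x => (1 / ((n : ℂ) + 1)) *
    ∑ j : Fin (n + 1), (psi j t * hs t (n - j)) x := by
  funext x
  rw [hs]
  rfl

theorem hs_gr {w : ℕ} {t : Fam N} (ht : Gr (w : ℤ) t) (n : ℕ) :
    Gr ((n : ℤ) * w) (hs t n) := by
  induction n using Nat.strong_induction_on with
  | _ n ih =>
    cases n with
    | zero => rw [hs]; simpa using Gr.one
    | succ n =>
      have h1 : Gr (((n + 1 : ℕ) : ℤ) * w) (∑ j : Fin (n + 1), psi j t * hs t (n - j)) := by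
        apply Gr.sum
        intro j _
        refine ((psi_gr ht j).mul (ih (n - j) (by omega))).mono (le_of_eq ?_)
        rw [Nat.cast_sub (by omega)]
        push_cast
        ring
      obtain ⟨C, hC, h2⟩ := h1
      refine ⟨C, hC, fun x => ?_⟩
      rw [hs_succ, norm_mul, norm_div, norm_one]
      have h3 : ‖((n : ℂ) + 1)‖ = (n : ℝ) + 1 := by
        have : ((n : ℂ) + 1) = ((n + 1 : ℕ) : ℂ) := by push_cast; ring
        rw [this, Complex.norm_natCast]
        push_cast; ring
      have h4 := h2 x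
      rw [Finset.sum_apply] at h4
      rw [h3]
      refine le_trans ?_ h4
      have h5 : 1 / ((n : ℝ) + 1) ≤ 1 := by
        rw [div_le_one (by positivity)]
        have : (0 : ℝ) ≤ n := Nat.cast_nonneg n
        linarith
      calc 1 / ((n : ℝ) + 1) * ‖∑ j : Fin (n + 1), (psi j t * hs t (n - j)) x‖
          ≤ 1 * ‖∑ j : Fin (n + 1), (psi j t * hs t (n - j)) x‖ := by gcongr
        _ = _ := one_mul _

theorem hs_star {t : Fam N} (ht : star t = t) (n : ℕ) : star (hs t n) = hs t n := by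
  induction n using Nat.strong_induction_on with
  | _ n ih =>
    cases n with
    | zero => rw [hs, star_one]
    | succ n =>
      funext x
      rw [Pi.star_apply, hs_succ, star_mul', star_sum]
      congr 1
      · rw [star_div₀, star_one, star_add, star_one, Complex.star_def, Complex.conj_natCast]
      · apply Finset.sum_congr rfl
        intro j _
        rw [Pi.mul_apply, star_mul']
        congr 1
        · exact congrFun ht (x.up j)
        · exact congrFun (ih (n - j) (by omega)) x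

/-- The ring generated by `q`, `1 / q` and the complete symmetric operations on `t`. -/
def A1 (t : Fam N) : Subring (Fam N) := Subring.closure ({qf, qf⁻¹} ∪ Set.range (hs t))

theorem adm_A1 {w : ℕ} {t : Fam N} (ht : star t = t) (hw : Gr (w : ℤ) t) : Adm (A1 t) where
  q_mem := Subring.subset_closure (Or.inl (Or.inl rfl))
  qinv_mem := Subring.subset_closure (Or.inl (Or.inr rfl))
  star_mem := by
    intro u hu
    induction hu using Subring.closure_induction with
    | mem u hu =>
      rcases hu with (rfl | rfl) | ⟨m, rfl⟩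
      · rw [qf_star]
        exact Subring.subset_closure (Or.inl (Or.inl rfl))
      · have : star ((qf : Fam N)⁻¹) = qf⁻¹ := by
          funext x
          have := congrFun (qf_star (N := N)) x
          rw [Pi.star_apply] at this
          rw [Pi.star_apply, Pi.inv_apply, star_inv₀, this]
        rw [this]
        exact Subring.subset_closure (Or.inl (Or.inr rfl))
      · rw [hs_star ht]
        exact Subring.subset_closure (Or.inr ⟨m, rfl⟩)
    | zero => rw [star_zero]; exact Subring.zero_mem _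
    | one => rw [star_one]; exact Subring.one_mem _
    | add x y _ _ hx hy => rw [star_add]; exact Subring.add_mem _ hx hy
    | neg x _ hx => rw [star_neg]; exact Subring.neg_mem _ hx
    | mul x y _ _ hx hy => rw [star_mul']; exact Subring.mul_mem _ hx hy
  gr := by
    intro u hu
    induction hu using Subring.closure_induction with
    | mem u hu =>
      rcases hu with (rfl | rfl) | ⟨m, rfl⟩
      · have := Gr.qf_zpow (N := N) 1
        exact ⟨_, by simpa using this⟩
      · exact ⟨_, qinv_gr⟩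
      · exact ⟨_, hs_gr hw m⟩
    | zero => exact ⟨0, Gr.zero _⟩
    | one => exact ⟨0, Gr.one⟩
    | add x y _ _ hx hy =>
      obtain ⟨w, hw⟩ := hx
      obtain ⟨v, hv⟩ := hy
      exact ⟨max w v, (hw.mono (le_max_left _ _)).add (hv.mono (le_max_right _ _))⟩
    | neg x _ hx =>
      obtain ⟨w, hw⟩ := hx
      exact ⟨w, hw.neg⟩
    | mul x y _ _ hx hy =>
      obtain ⟨w, hw⟩ := hx
      obtain ⟨v, hv⟩ := hy
      exact ⟨w + v, hw.mul hv⟩

theorem gr_list {ι : Type*} {f : ι → Fam N} (P : ι → Prop) (hf : ∀ i, P i → ∃ w : ℤ, Gr w (f i))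
    (l : List ι) (hl : ∀ i ∈ l, P i) : ∃ w : ℤ, Gr w (l.map f).prod := by
  induction l with
  | nil => exact ⟨0, by simpa using Gr.one⟩
  | cons i l ih =>
    obtain ⟨w, hw⟩ := hf i (hl i (by simp))
    obtain ⟨v, hv⟩ := ih (fun j hj => hl j (by simp [hj]))
    exact ⟨w + v, by rw [List.map_cons, List.prod_cons]; exact hw.mul hv⟩

theorem ext_gr {n : ℕ} {b : ℕ → ℕ} {α : (i : ℕ) → ℕ → Fin (b i) → ℂ} {c : Idx N → ℤ}
    (h : Weil N n b α c) {i : ℕ} (hi : i < n) (m : ℕ) :
    ∃ w : ℤ, Gr w (ext α i m : Fam N) := by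
  rw [ext_eq_es]
  refine ⟨(m : ℤ) * i, Gr.sum (fun S hS => ?_)⟩
  have h1 := Gr.prod (s := S) (w := fun _ => (i : ℤ)) (t := fun j => (ev α i j : Fam N))
    (fun j _ => ev_gr (fun x => h.pure i hi x.p x.prime x.ndvd j))
  rw [Finset.sum_const, (Finset.mem_powersetCard.1 hS).2, nsmul_eq_mul] at h1
  exact h1

/-- **Theorem A.** -/
theorem one_scheme (hE : ∀ x : ℝ, x + 1 ∈ E ↔ x ∈ E) (N n : ℕ) (b : ℕ → ℕ)
    (α : (i : ℕ) → ℕ → Fin (b i) → ℂ) (c : Idx N → ℤ) (h : Weil N n b α c) :
    (∀ l : List ℕ, Good E (l.map (hs (fun x => (c x : ℂ)))).prod) ↔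
      ∀ l : List (ℕ × ℕ), (∀ z ∈ l, z.1 < n) →
        Good E (l.map (fun z => (ext α z.1 z.2 : Idx N → ℂ))).prod := by
  set t : Fam N := fun x => (c x : ℂ) with ht
  have htstar : star t = t := by
    funext x
    rw [Pi.star_apply, ht]
    exact star_intCast (c x)
  have htr : ∀ x : Idx N, t x = ∑ i ∈ Finset.range n, (-1) ^ i * ∑ j, α i x.p j ^ x.k := h.trace
  have hev : ∀ i < n, ∀ j, Gr (i : ℤ) (ev α i j : Fam N) := fun i hi j =>
    ev_gr (fun x => h.pure i hi x.p x.prime x.ndvd j)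
  have htgr : Gr ((n : ℕ) : ℤ) t := by
    have h1 : t = ∑ i ∈ Finset.range n, (-1 : Fam N) ^ i * ∑ j, (ev α i j : Fam N) := by
      funext x
      rw [htr x, Finset.sum_apply]
      apply Finset.sum_congr rfl
      intro i _
      rw [Pi.mul_apply, Finset.sum_apply]
      rfl
    rw [h1]
    apply Gr.sum
    intro i hi
    have hi' := Finset.mem_range.1 hi
    have h2 : Gr 0 ((-1 : Fam N) ^ i) := by
      rcases neg_one_pow_eq_or (Fam N) i with h3 | h3 <;> rw [h3]
      · exact Gr.one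
      · exact Gr.one.neg
    refine (h2.mul (Gr.sum (fun j _ => hev i hi' j))).mono ?_
    omega
  constructor
  · intro h1 l hl
    have hA := adm_A1 htstar htgr
    have hgood : ∀ u ∈ A1 t, Good E u := by
      intro u hu
      refine (good_closure (fun u hu => ?_) hu).2
      have h2 : ∃ (a : ℤ) (l : List ℕ), u = qf ^ a * (l.map (hs t)).prod := by
        induction hu using Submonoid.closure_induction with
        | mem u hu =>
          rcases hu with (rfl | rfl) | ⟨m, rfl⟩
          · exact ⟨1, [], by simp⟩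
          · exact ⟨-1, [], by simp⟩
          · exact ⟨0, [m], by simp⟩
        | one => exact ⟨0, [], by simp⟩
        | mul x y _ _ hx hy =>
          obtain ⟨a, l, rfl⟩ := hx
          obtain ⟨a', l', rfl⟩ := hy
          refine ⟨a + a', l ++ l', ?_⟩
          rw [List.map_append, List.prod_append, ← qf_zpow_mul]
          ring
      obtain ⟨a, l, rfl⟩ := h2
      obtain ⟨w, hw⟩ := gr_list (fun _ => True) (fun m _ => ⟨_, hs_gr htgr m⟩) l (by simp)
      exact ⟨⟨_, (Gr.qf_zpow a).mul hw⟩, (h1 l).shift hE a⟩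
    refine hat_good hA hgood ?_
    apply Subring.list_prod_mem
    intro u hu
    obtain ⟨z, hz, rfl⟩ := List.mem_map.1 hu
    rw [ext_eq_es]
    exact separate hA n α (fun i hi x j => h.pure i hi x.p x.prime x.ndvd j) t htr
      (fun m => hat_of_mem hA (Subring.subset_closure (Or.inr ⟨m, rfl⟩))) z.1 (hl z hz) z.2
  · intro h1 l
    -- the ring generated by the exterior powers
    let G : Set (Fam N) := {u | ∃ z : ℕ × ℕ, z.1 < n ∧ u = ext α z.1 z.2}
    have hgood : ∀ u ∈ Subring.closure G, Good E u := by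
      intro u hu
      refine (good_closure (fun u hu => ?_) hu).2
      have h2 : ∃ l : List (ℕ × ℕ), (∀ z ∈ l, z.1 < n) ∧
          u = (l.map (fun z => (ext α z.1 z.2 : Idx N → ℂ))).prod := by
        induction hu using Submonoid.closure_induction with
        | mem u hu =>
          obtain ⟨z, hz, rfl⟩ := hu
          exact ⟨[z], by simpa using hz, by simp⟩
        | one => exact ⟨[], by simp, by simp⟩
        | mul x y _ _ hx hy =>
          obtain ⟨l, hl, rfl⟩ := hx
          obtain ⟨l', hl', rfl⟩ := hy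
          refine ⟨l ++ l', fun z hz => ?_, by rw [List.map_append, List.prod_append]⟩
          rcases List.mem_append.1 hz with h3 | h3
          · exact hl z h3
          · exact hl' z h3
      obtain ⟨l, hl, rfl⟩ := h2
      exact ⟨gr_list (fun z : ℕ × ℕ => z.1 < n) (fun z hz => ext_gr h hz z.2) l hl, h1 l hl⟩
    apply hgood
    apply Subring.list_prod_mem
    intro u hu
    obtain ⟨m, _, rfl⟩ := List.mem_map.1 hu
    have hlins : ∀ i < n, PM (Subring.closure G) (lins (ev α i : Fin (b i) → Fam N)) := by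
      intro i hi
      refine ⟨?_, fun m => ?_⟩
      · unfold lins
        rw [map_prod]
        exact Finset.prod_eq_one (fun j _ => lin_zero _)
      · rw [coeff_lins, ← ext_eq_es]
        exact Subring.mul_mem _ (Subring.pow_mem _ (Subring.neg_mem _ (Subring.one_mem _)) _)
          (Subring.subset_closure ⟨(i, m), hi, rfl⟩)
    have hEv : PM (Subring.closure G) (∏ i ∈ (Finset.range n).filter (fun i => Even i),
        lins (ev α i : Fin (b i) → Fam N)) :=
      PM.prod (fun i hi => hlins i (Finset.mem_range.1 (Finset.mem_filter.1 hi).1))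
    have hOd : PM (Subring.closure G) (∏ i ∈ (Finset.range n).filter (fun i => ¬ Even i),
        lins (ev α i : Fin (b i) → Fam N)) :=
      PM.prod (fun i hi => hlins i (Finset.mem_range.1 (Finset.mem_filter.1 hi).1))
    obtain ⟨Q, hQ⟩ : ∃ Q : PowerSeries (Fam N),
        (∏ i ∈ (Finset.range n).filter (fun i => Even i),
          lins (ev α i : Fin (b i) → Fam N)) * Q = 1 :=
      ⟨PowerSeries.invOfUnit _ 1, PowerSeries.mul_invOfUnit _ 1 (by simpa using hEv.1)⟩
    have h2 : HS t = (∏ i ∈ (Finset.range n).filter (fun i => ¬ Even i),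
        lins (ev α i : Fin (b i) → Fam N)) * Q := by
      rw [← HS_trace n α t htr, mul_assoc, hQ, mul_one]
    have h3 := (hOd.mul (hEv.of_mul_eq_one hQ)).2 m
    rw [← h2, HS, PowerSeries.coeff_mk] at h3
    exact h3

end Pool.Agent.H32.HW
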