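import Pool.Agent.H32.HW.Cubic

/-!
The main theorem, second version: zeta functions of smooth affine cubic hypersurfaces over `ℤ`.
-/

namespace Pool.Agent.H32.HW

open Finset Pool.Agent.H73.Zeta

variable {N : ℕ} {E : Set ℝ}

theorem affine_eq {σ : Type} (F : Finset (MvPolynomial σ ℤ)) :
    (fun x : Idx N => (affine F N x : ℂ)) = cf (fun i : {f // f ∈ F} => i.1) := by
  funext x
  unfold affine cf
  have : Nat.card {v : σ → x.K // ∀ f ∈ F, MvPolynomial.aeval v f = 0} =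
      Nat.card {v : σ → FK x // ∀ i : {f // f ∈ F}, MvPolynomial.aeval v i.1 = 0} :=
    Nat.card_congr (Equiv.subtypeEquivRight (fun v =>
      ⟨fun h i => h i.1 i.2, fun h f hf => h ⟨f, hf⟩⟩))
  rw [this]

theorem all_schemes2 (hE : ∀ x : ℝ, x + 1 ∈ E ↔ x ∈ E) (h : Cubics E)
    (N : ℕ) (t : Idx N → ℂ) (ht : t ∈ Subring.closure (Gens2 N)) : Good E t := by
  have hT := tri_of_cubics hE h
  refine hat_good adm_A0 (fun t ht => A0_good hT hE ht) ?_
  have hle : Subring.closure (Gens2 N) ≤ hat (A0 N) adm_A0 := by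
    rw [Subring.closure_le]
    rintro u ⟨σ, _, F, rfl | ⟨hF, rfl | ⟨n, b, α, i, m, hW, hi, rfl⟩⟩⟩
    · rw [affine_eq]
      classical
      exact hat_of_mem adm_A0 (cf_mem _)
    · rw [points_eq, pc_eq hF (Fintype.equivFin σ)]
      classical
      exact (hat (A0 N) adm_A0).sum_mem (fun j _ => hat_of_mem adm_A0 (cf_mem _))
    · exact ext_mem hF hW hi m
  exact hle ht

theorem single2 (h : ∀ t ∈ Subring.closure (Gens2 N), Good E t)
    (σ : Type) [Fintype σ] (F : Finset (MvPolynomial σ ℤ))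
    (hF : ∀ f ∈ F, ∃ d : ℕ, f.IsHomogeneous d) (n : ℕ) (b : ℕ → ℕ)
    (α : (i : ℕ) → ℕ → Fin (b i) → ℂ) (hW : Weil N n b α (fun x => (points F N x : ℤ)))
    (i : ℕ) (hi : i < n) :
    ∃ g : ℂ → ℂ, Meromorphic g ∧ (∀ s, meromorphicOrderAt g s ≠ 0 → s.re ∈ E) ∧
      ∃ c : ℝ, ∀ s : ℂ, c < s.re → g s = ∏' p : {p : ℕ // p.Prime ∧ ¬ p ∣ N},
        (∏ j, (1 - α i p j * (p : ℂ) ^ (-s)))⁻¹ := by
  have h1 : Good E (ext α i 1 : Fam N) := h _ (Subring.subset_closure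
    ⟨σ, inferInstance, F, Or.inr ⟨hF, Or.inr ⟨n, b, α, i, 1, hW, hi, rfl⟩⟩⟩)
  obtain ⟨g, g1, g2, c, g3⟩ := h1
  refine ⟨g, g1, g2, max c (1 + (i : ℝ) / 2), fun s hs => ?_⟩
  rw [max_lt_iff] at hs
  rw [g3 s hs.1, ← LF_euler (α i) i (hW.pure i hi) hs.2]
  congr 1
  funext x
  unfold ext
  rw [Finset.powersetCard_one, Finset.sum_map]
  simp

open MvPolynomial in
/-- The equation of a cubic hypersurface. -/
noncomputable def cubPoly {a b c : ℕ} (T : Fin a → Fin b → Fin c → ℤ) :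
    MvPolynomial (Fin a ⊕ Fin b ⊕ Fin c) ℤ :=
  (∑ i, ∑ j, ∑ l, C (T i j l) * X (Sum.inl i) * X (Sum.inr (Sum.inl j)) *
    X (Sum.inr (Sum.inr l))) - 1

theorem cubic_eq {a b c : ℕ} (T : Fin a → Fin b → Fin c → ℤ) (x : Idx 1) :
    cubic T x = affine {cubPoly T} 1 x := by
  unfold cubic affine
  let e : (Fin a ⊕ Fin b ⊕ Fin c → x.K) ≃ (Fin a → x.K) × (Fin b → x.K) × (Fin c → x.K) :=
    (Equiv.sumArrowEquivProdArrow _ _ _).trans
      ((Equiv.refl _).prodCongr (Equiv.sumArrowEquivProdArrow _ _ _))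
  refine (Nat.card_congr (Equiv.subtypeEquiv e (fun v => ?_))).symm
  have h1 : (∀ f ∈ ({cubPoly T} : Finset (MvPolynomial (Fin a ⊕ Fin b ⊕ Fin c) ℤ)),
      MvPolynomial.aeval v f = 0) ↔ MvPolynomial.aeval v (cubPoly T) = 0 := by
    simp only [Finset.mem_singleton, forall_eq]
  rw [h1]
  unfold cubPoly
  rw [map_sub, map_one, sub_eq_zero]
  simp only [map_sum, map_mul, MvPolynomial.aeval_X]
  simp [e, Equiv.sumArrowEquivProdArrow]

theorem cubics_of_closure (h : ∀ t ∈ Subring.closure (Gens2 1), Good E t) : Cubics E := by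
  intro a b c T _
  apply h
  apply Subring.subset_closure
  refine ⟨Fin a ⊕ Fin b ⊕ Fin c, inferInstance, {cubPoly T}, Or.inl ?_⟩
  funext x
  rw [cubic_eq]

end Pool.Agent.H32.HW
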