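import Pool.Agent.H32.HW.Cyc

/-!
Frobenius on an algebraically closed field.
-/

namespace Pool.Agent.H32.HW

open Finset Polynomial

section fix

variable {U : Type*} [Field U]

/-- The power map. -/
def fr (q : ℕ) (z : U) : U := z ^ q

theorem fr_iterate (q m : ℕ) (z : U) : (fr q)^[m] z = z ^ (q ^ m) := by
  induction m with
  | zero => simp
  | succ m ih => rw [Function.iterate_succ_apply', ih, fr, ← pow_mul, pow_succ]

/-- The number of fixed points of `z ↦ z ^ Q`, for a power `Q ≠ 1` of the characteristic. -/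
theorem card_fix [IsAlgClosed U] (p : ℕ) [CharP U p] {Q : ℕ} (hQ : 1 < Q) (hp : p ∣ Q) :
    Nat.card {z : U // z ^ Q = z} = Q := by
  classical
  have h1 : (X ^ Q - X : U[X]).Separable := galois_poly_separable p Q hp
  have h2 : (X ^ Q - X : U[X]).natDegree = Q := FiniteField.X_pow_card_sub_X_natDegree_eq U hQ
  have h0 : (X ^ Q - X : U[X]) ≠ 0 := FiniteField.X_pow_card_sub_X_ne_zero U hQ
  have h3 := card_rootSet_eq_natDegree (K := U) h1 (IsAlgClosed.splits _)
  rw [h2, ← Nat.card_eq_fintype_card] at h3
  have h4 : ∀ z : U, z ^ Q = z ↔ z ∈ (X ^ Q - X : U[X]).rootSet U := by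
    intro z
    rw [mem_rootSet_of_ne h0]
    simp [sub_eq_zero]
  exact (Nat.card_congr (Equiv.subtypeEquivRight h4)).trans h3

theorem fx_fr [IsAlgClosed U] (p : ℕ) [CharP U p] {q : ℕ} (hq : 1 < q) (hp : p ∣ q) {m : ℕ}
    (hm : m ≠ 0) : fx (fr q : U → U) m = q ^ m := by
  unfold fx
  simp only [fr_iterate]
  exact card_fix p (Nat.one_lt_pow hm hq) (hp.trans (dvd_pow_self q hm))

theorem vc_fr [IsAlgClosed U] (p : ℕ) [CharP U p] {q : ℕ} (hq : 1 < q) (hp : p ∣ q)
    (α : Type) [Fintype α] (σ : Equiv.Perm α) (ℓ : α → ℕ) (hℓ : ∀ i, ℓ i ≠ 0) :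
    vc (fr q : U → U) σ ℓ = q ^ ∑ i, ℓ i := by
  classical
  revert σ ℓ hℓ
  refine Fintype.induction_empty_option (P := fun α _ => ∀ (σ : Equiv.Perm α) (ℓ : α → ℕ),
    (∀ i, ℓ i ≠ 0) → vc (fr q : U → U) σ ℓ = q ^ ∑ i, ℓ i) ?_ ?_ ?_ α
  · intro α β hβ e ih σ ℓ hℓ
    let _ := Fintype.ofEquiv β e.symm
    have h1 := ih (e.symm.permCongr σ) (fun a => ℓ (e a)) (fun a => hℓ _)
    have h2 := vc_equiv (fr q : U → U) e.symm σ ℓ
    simp only [Equiv.symm_symm] at h2
    rw [← h2, h1]
    congr 1
    exact Equiv.sum_comp e ℓ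
  · intro σ ℓ _
    unfold vc VS
    rw [Finset.univ_eq_empty, Finset.sum_empty, pow_zero]
    have : Unique {v : PEmpty → U // ∀ i, (fr q)^[ℓ i] (v i) = v (σ i)} :=
      { default := ⟨fun i => i.elim, fun i => i.elim⟩
        uniq := fun v => Subtype.ext (funext fun i => i.elim) }
    exact Nat.card_unique
  · intro α _ ih σ ℓ hℓ
    obtain ⟨⟨o, τ⟩, rfl⟩ := Equiv.Perm.decomposeOption.symm.surjective σ
    cases o with
    | none =>
      rw [vc_none, fx_fr p hq hp (hℓ none), ih τ _ (fun i => hℓ _), Fintype.sum_option, pow_add]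
    | some j =>
      rw [vc_some, ih τ _ (fun i => ?_), Fintype.sum_option, Finset.sum_add_distrib]
      · congr 2
        rw [← Equiv.sum_comp τ.symm]
        simp
      · exact fun h => hℓ (some i) (Nat.add_eq_zero_iff.1 h).2

end fix

section bad

variable {K U : Type*} [Field K] [Finite K] [Field U] [Algebra K U] [IsAlgClosed U]

/-- Families of numbers with prescribed action of Frobenius. -/
abbrev AS (U : Type*) [Field U] (q : ℕ) {α : Type} (σ : Equiv.Perm α) : Type _ :=
  {w : α → U // ∀ i, w i ^ q = w (σ i)}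

theorem card_AS {α : Type} [Fintype α] (σ : Equiv.Perm α) :
    Nat.card (AS U (Nat.card K) σ) = Nat.card K ^ Fintype.card α := by
  obtain ⟨p, hp⟩ := CharP.exists K
  have : CharP U p := charP_of_injective_algebraMap (algebraMap K U).injective p
  have _ := Fintype.ofFinite K
  obtain ⟨n, hpp, hn⟩ := FiniteField.card K p
  have h1 := vc_fr (U := U) p (q := Nat.card K) Finite.one_lt_card
    (by rw [Nat.card_eq_fintype_card, hn]; exact dvd_pow_self p n.ne_zero) α σ (fun _ => 1)
    (fun _ => one_ne_zero)
  rw [Finset.sum_const, smul_eq_mul, mul_one, Finset.card_univ] at h1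
  rw [← h1]
  rfl

instance finite_AS {α : Type} [Fintype α] (σ : Equiv.Perm α) :
    Finite (AS U (Nat.card K) σ) := by
  apply Nat.finite_of_card_ne_zero
  rw [card_AS (K := K)]
  exact pow_ne_zero _ (Nat.card_pos.ne')

theorem exists_ne {α : Type} [Fintype α] (σ : Equiv.Perm α) {i j : α} (hij : i ≠ j) :
    ∃ w : AS U (Nat.card K) σ, w.1 i ≠ w.1 j := by
  classical
  by_contra hcon
  push Not at hcon
  let s : Setoid α :=
    { r := fun a b => ∀ w : AS U (Nat.card K) σ, w.1 a = w.1 b
      iseqv := ⟨fun a w => rfl, fun h w => (h w).symm, fun h h' w => (h w).trans (h' w)⟩ }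
  have hσ : ∀ a b, s.r a b → s.r (σ a) (σ b) := by
    intro a b h w
    rw [← w.2, ← w.2, h w]
  let f : Quotient s → Quotient s := Quotient.map σ hσ
  have hsurj : Function.Surjective f := by
    intro a
    induction a using Quotient.inductionOn with
    | _ a =>
      refine ⟨Quotient.mk s (σ.symm a), ?_⟩
      show Quotient.mk s (σ (σ.symm a)) = _
      rw [Equiv.apply_symm_apply]
  have hbij : Function.Bijective f := hsurj.bijective_of_finite
  let τ : Equiv.Perm (Quotient s) := Equiv.ofBijective f hbij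
  have hcard : Fintype.card (Quotient s) < Fintype.card α := by
    apply Fintype.card_lt_of_surjective_not_injective (Quotient.mk s) Quotient.mk_surjective
    intro hinj
    exact hij (hinj (Quotient.sound hcon))
  let g : AS U (Nat.card K) σ → AS U (Nat.card K) τ := fun w =>
    ⟨Quotient.lift w.1 (fun a b h => h w), fun a => by
      induction a using Quotient.inductionOn with
      | _ a => exact w.2 a⟩
  have hg : Function.Injective g := by
    intro w w' h
    apply Subtype.ext
    funext a
    exact congrFun (congrArg Subtype.val h) (Quotient.mk s a)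
  have h1 := Nat.card_le_card_of_injective g hg
  rw [card_AS (K := K), card_AS (K := K)] at h1
  exact absurd h1 (not_le.2 (Nat.pow_lt_pow_right Finite.one_lt_card hcard))

theorem card_eq_le {α : Type} [Fintype α] (σ : Equiv.Perm α) {i j : α} (hij : i ≠ j) :
    Nat.card {w : AS U (Nat.card K) σ // w.1 i = w.1 j} * Nat.card K ≤
      Nat.card K ^ Fintype.card α := by
  obtain ⟨w₀, hw₀⟩ := exists_ne (K := K) (U := U) σ hij
  have _ := Fintype.ofFinite K
  have hK : ∀ c : K, (algebraMap K U c) ^ Nat.card K = algebraMap K U c := by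
    intro c
    rw [← map_pow, Nat.card_eq_fintype_card, FiniteField.pow_card]
  obtain ⟨p, hp⟩ := CharP.exists K
  have : CharP U p := charP_of_injective_algebraMap (algebraMap K U).injective p
  obtain ⟨n, hpp, hn⟩ := FiniteField.card K p
  have _ : Fact p.Prime := ⟨hpp⟩
  have hadd : ∀ x y : U, (x + y) ^ Nat.card K = x ^ Nat.card K + y ^ Nat.card K := by
    intro x y
    rw [Nat.card_eq_fintype_card, hn]
    exact add_pow_char_pow x y p n
  let g : {w : AS U (Nat.card K) σ // w.1 i = w.1 j} × K → AS U (Nat.card K) σ := fun z =>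
    ⟨fun a => algebraMap K U z.2 * w₀.1 a + z.1.1.1 a, fun a => by
      rw [hadd, mul_pow, hK, w₀.2, z.1.1.2]⟩
  have hg : Function.Injective g := by
    rintro ⟨⟨w, hw⟩, c⟩ ⟨⟨w', hw'⟩, c'⟩ h
    have h1 : ∀ a, algebraMap K U c * w₀.1 a + w.1 a = algebraMap K U c' * w₀.1 a + w'.1 a :=
      fun a => congrFun (congrArg Subtype.val h) a
    have h2 : algebraMap K U c = algebraMap K U c' := by
      have h3 := h1 i
      have h4 := h1 j
      rw [hw, hw'] at h3
      have h5 : (algebraMap K U c - algebraMap K U c') * (w₀.1 i - w₀.1 j) = 0 := by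
        linear_combination h3 - h4
      rcases mul_eq_zero.1 h5 with h6 | h6
      · exact sub_eq_zero.1 h6
      · exact absurd (sub_eq_zero.1 h6) hw₀
    have h3 : c = c' := (algebraMap K U).injective h2
    have h4 : w = w' := by
      apply Subtype.ext
      funext a
      have := h1 a
      rw [h2] at this
      exact add_left_cancel this
    subst h3
    subst h4
    rfl
  have h1 := Nat.card_le_card_of_injective g hg
  rwa [Nat.card_prod, card_AS (K := K)] at h1

/-- The number of families with two equal members is small. -/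
theorem card_bad {α : Type} [Fintype α] (σ : Equiv.Perm α) :
    Nat.card {w : AS U (Nat.card K) σ // ¬ Function.Injective w.1} * Nat.card K ≤
      Fintype.card α ^ 2 * Nat.card K ^ Fintype.card α := by
  classical
  -- every bad family has a pair of equal members
  let P : Type := {x : α × α // x.1 ≠ x.2}
  have hf : ∀ w : {w : AS U (Nat.card K) σ // ¬ Function.Injective w.1},
      ∃ x : P, w.1.1 x.1.1 = w.1.1 x.1.2 := by
    intro w
    have := w.2
    unfold Function.Injective at this
    push Not at this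
    obtain ⟨a, b, h1, h2⟩ := this
    exact ⟨⟨(a, b), h2⟩, h1⟩
  choose f hf using hf
  let g : {w : AS U (Nat.card K) σ // ¬ Function.Injective w.1} →
      Σ x : P, {w : AS U (Nat.card K) σ // w.1 x.1.1 = w.1 x.1.2} := fun w =>
    ⟨f w, ⟨w.1, hf w⟩⟩
  have hg : Function.Injective g := by
    intro w w' h
    have : (g w).2.1 = (g w').2.1 := by rw [h]
    exact Subtype.ext this
  have h1 := Nat.card_le_card_of_injective g hg
  rw [Nat.card_sigma] at h1
  calc Nat.card {w : AS U (Nat.card K) σ // ¬ Function.Injective w.1} * Nat.card K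
      ≤ (∑ x : P, Nat.card {w : AS U (Nat.card K) σ // w.1 x.1.1 = w.1 x.1.2}) * Nat.card K :=
        Nat.mul_le_mul_right _ h1
    _ = ∑ x : P, Nat.card {w : AS U (Nat.card K) σ // w.1 x.1.1 = w.1 x.1.2} * Nat.card K := by
        rw [Finset.sum_mul]
    _ ≤ ∑ _x : P, Nat.card K ^ Fintype.card α :=
        Finset.sum_le_sum (fun x _ => card_eq_le σ x.2)
    _ = Fintype.card P * Nat.card K ^ Fintype.card α := by
        rw [Finset.sum_const, Finset.card_univ, smul_eq_mul]
    _ ≤ Fintype.card α ^ 2 * Nat.card K ^ Fintype.card α := by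
        apply Nat.mul_le_mul_right
        have : Fintype.card P ≤ Fintype.card (α × α) := Fintype.card_subtype_le _
        rwa [Fintype.card_prod, ← sq] at this

end bad

end Pool.Agent.H32.HW
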