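import Pool.Agent.H32.HW.Frob

/-!
Interpolation of families of numbers which are permuted by Frobenius.
-/

namespace Pool.Agent.H32.HW

open Finset Polynomial

/-- The polynomial of degree `< n` with given coefficients. -/
noncomputable def pol {R : Type*} [CommRing R] {n : ℕ} (c : Fin n → R) : R[X] :=
  ∑ j, C (c j) * X ^ (j : ℕ)

theorem pol_map {R S : Type*} [CommRing R] [CommRing S] {n : ℕ} (c : Fin n → R) (f : R →+* S) :
    (pol c).map f = pol (fun j => f (c j)) := by
  simp [pol, Polynomial.map_sum]

theorem degree_pol_lt {R : Type*} [CommRing R] {n : ℕ} (c : Fin n → R) :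
    (pol c).degree < n := by
  rw [← mem_degreeLT]
  apply Submodule.sum_mem
  intro j _
  rw [mem_degreeLT]
  exact lt_of_le_of_lt (degree_C_mul_X_pow_le _ _) (by exact_mod_cast j.2)

theorem coeff_pol {R : Type*} [CommRing R] {n : ℕ} (c : Fin n → R) (j : Fin n) :
    (pol c).coeff j = c j := by
  rw [pol, finsetSum_coeff, Finset.sum_eq_single j]
  · simp
  · intro i _ hi
    rw [coeff_C_mul, coeff_X_pow, if_neg, mul_zero]
    intro h
    exact hi (Fin.ext h.symm)
  · intro h
    exact absurd (Finset.mem_univ _) h

theorem pol_injective {R : Type*} [CommRing R] {n : ℕ} :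
    Function.Injective (pol : (Fin n → R) → R[X]) := by
  intro c d h
  funext j
  rw [← coeff_pol c, h, coeff_pol]

section field

variable {K U : Type*} [Field K] [Field U] [Algebra K U]

theorem aeval_pol {n : ℕ} (c : Fin n → K) (z : U) :
    aeval z (pol c) = ∑ j, algebraMap K U (c j) * z ^ (j : ℕ) := by
  simp [pol, map_sum]

/-- A polynomial of degree `< n` with `n` different zeros is zero. -/
theorem eq_zero_of_roots {n : ℕ} {P : K[X]} (hP : P.degree < n) {u : Fin n → U}
    (hu : Function.Injective u) (h : ∀ i, aeval (u i) P = 0) : P = 0 := by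
  by_contra hne
  have h1 : P.natDegree < n := by
    rw [natDegree_lt_iff_degree_lt hne]
    exact hP
  have h2 := eq_zero_of_natDegree_lt_card_of_eval_eq_zero (P.map (algebraMap K U)) hu
    (fun i => by rw [eval_map_algebraMap]; exact h i)
    (by rwa [natDegree_map, Fintype.card_fin])
  exact hne ((Polynomial.map_eq_zero _).1 h2)

theorem pol_unique {n : ℕ} {c d : Fin n → K} {u : Fin n → U} (hu : Function.Injective u)
    (h : ∀ i, aeval (u i) (pol c) = aeval (u i) (pol d)) : c = d := by
  apply pol_injective
  rw [← sub_eq_zero]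
  refine eq_zero_of_roots (U := U) (n := n) ?_ hu (fun i => by rw [map_sub, h i, sub_self])
  exact lt_of_le_of_lt (degree_sub_le _ _) (max_lt (degree_pol_lt c) (degree_pol_lt d))

variable [Finite K] [IsAlgClosed U]

theorem mem_range_of_pow {z : U} (hz : z ^ Nat.card K = z) : ∃ c : K, algebraMap K U c = z := by
  obtain ⟨p, hp⟩ := CharP.exists K
  have : CharP U p := charP_of_injective_algebraMap (algebraMap K U).injective p
  have _ := Fintype.ofFinite K
  obtain ⟨n, hpp, hn⟩ := FiniteField.card K p
  have hdvd : p ∣ Nat.card K := by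
    rw [Nat.card_eq_fintype_card, hn]
    exact dvd_pow_self p n.ne_zero
  have hcard := card_fix (U := U) p (Q := Nat.card K) Finite.one_lt_card hdvd
  have hfin : Finite {z : U // z ^ Nat.card K = z} :=
    Nat.finite_of_card_ne_zero (by rw [hcard]; exact Nat.card_pos.ne')
  let f : K → {z : U // z ^ Nat.card K = z} := fun c => ⟨algebraMap K U c, by
    rw [← map_pow, Nat.card_eq_fintype_card, FiniteField.pow_card]⟩
  have hf : Function.Injective f := fun c d h =>
    (algebraMap K U).injective (congrArg Subtype.val h)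
  have hbij := (Nat.bijective_iff_injective_and_card f).2 ⟨hf, hcard.symm⟩
  obtain ⟨c, hc⟩ := hbij.2 ⟨z, hz⟩
  exact ⟨c, congrArg Subtype.val hc⟩

omit [IsAlgClosed U] in
theorem frob_add (x y : U) : (x + y) ^ Nat.card K = x ^ Nat.card K + y ^ Nat.card K := by
  obtain ⟨p, hp⟩ := CharP.exists K
  have : CharP U p := charP_of_injective_algebraMap (algebraMap K U).injective p
  have _ := Fintype.ofFinite K
  obtain ⟨n, hpp, hn⟩ := FiniteField.card K p
  have _ : Fact p.Prime := ⟨hpp⟩
  rw [Nat.card_eq_fintype_card, hn]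
  exact add_pow_char_pow x y p n

variable (K U) in
/-- The Frobenius ring homomorphism. -/
noncomputable def frobHom : U →+* U where
  toFun z := z ^ Nat.card K
  map_one' := one_pow _
  map_mul' x y := mul_pow x y _
  map_zero' := zero_pow Nat.card_pos.ne'
  map_add' := frob_add

omit [IsAlgClosed U] in
theorem frobHom_apply (z : U) : frobHom K U z = z ^ Nat.card K := rfl

omit [IsAlgClosed U] in
theorem frobHom_algebraMap (c : K) : frobHom K U (algebraMap K U c) = algebraMap K U c := by
  have _ := Fintype.ofFinite K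
  rw [frobHom_apply, ← map_pow, Nat.card_eq_fintype_card, FiniteField.pow_card]

omit [IsAlgClosed U] in
/-- Frobenius commutes with polynomials over `K`. -/
theorem frob_aeval (P : K[X]) (z : U) : (aeval z P) ^ Nat.card K = aeval (z ^ Nat.card K) P := by
  rw [← frobHom_apply, ← frobHom_apply, aeval_def, aeval_def, hom_eval₂]
  congr 1
  ext c
  simp [frobHom_algebraMap]

/-- Interpolation. -/
theorem interp {n : ℕ} {σ : Equiv.Perm (Fin n)} {u w : Fin n → U} (hu : Function.Injective u)
    (huσ : ∀ i, u i ^ Nat.card K = u (σ i)) (hwσ : ∀ i, w i ^ Nat.card K = w (σ i)) :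
    ∃ c : Fin n → K, ∀ i, aeval (u i) (pol c) = w i := by
  classical
  have hdet : (Matrix.vandermonde u).det ≠ 0 := Matrix.det_vandermonde_ne_zero_iff.2 hu
  have hunit : IsUnit (Matrix.vandermonde u).det := isUnit_iff_ne_zero.2 hdet
  -- the coefficients
  let c : Fin n → U := (Matrix.vandermonde u)⁻¹.mulVec w
  have hc : ∀ i, ∑ j, c j * u i ^ (j : ℕ) = w i := by
    intro i
    have h1 : (Matrix.vandermonde u).mulVec c = w := by
      simp only [c]
      rw [Matrix.mulVec_mulVec, Matrix.mul_nonsing_inv _ hunit, Matrix.one_mulVec]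
    have h2 := congrFun h1 i
    simp only [Matrix.mulVec, dotProduct, Matrix.vandermonde_apply] at h2
    rw [← h2]
    exact Finset.sum_congr rfl (fun j _ => mul_comm _ _)
  have hc' : ∀ i, ∑ j, (c j) ^ Nat.card K * u i ^ (j : ℕ) = w i := by
    intro i
    obtain ⟨i, rfl⟩ := σ.surjective i
    have h3 := congrArg (frobHom K U) (hc i)
    rw [map_sum, frobHom_apply (w i), hwσ] at h3
    rw [← h3]
    apply Finset.sum_congr rfl
    intro j _
    rw [map_mul, map_pow, frobHom_apply, frobHom_apply, huσ]
  have hfix : ∀ j, (c j) ^ Nat.card K = c j := by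
    have h1 : (Matrix.vandermonde u).mulVec (fun j => (c j) ^ Nat.card K) =
        (Matrix.vandermonde u).mulVec c := by
      funext i
      simp only [Matrix.mulVec, dotProduct, Matrix.vandermonde_apply]
      have h2 := (hc' i).trans (hc i).symm
      rw [Finset.sum_congr rfl (fun (j : Fin n) _ => mul_comm (u i ^ (j : ℕ))
          ((c j) ^ Nat.card K)),
        Finset.sum_congr rfl (fun (j : Fin n) _ => mul_comm (u i ^ (j : ℕ)) (c j))]
      exact h2
    have h2 := Matrix.mulVec_injective_of_isUnit ((Matrix.isUnit_iff_isUnit_det _).2 hunit) h1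
    exact fun j => congrFun h2 j
  choose d hd using fun j => mem_range_of_pow (K := K) (hfix j)
  refine ⟨d, fun i => ?_⟩
  rw [aeval_pol, ← hc i]
  exact Finset.sum_congr rfl (fun j _ => by rw [hd])

end field

end Pool.Agent.H32.HW
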