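import Pool.Agent.H32.HW.Real

/-!
The ring of point counts, projective schemes, and the main theorems.
-/

namespace Pool.Agent.H32.HW

open Finset Pool.Agent.H73.Zeta

variable {N : ℕ} {E : Set ℝ}

/-! ### Comparison of the two definitions of zeta functions -/

theorem zeta_eq_LF {c : Counts}
    (hc : ∀ (p : Nat.Primes) (k : ℕ), k ≠ 0 → (p : ℕ) ∣ N → c p k = 0) (s : ℂ) :
    zeta c s = LF (fun x : Idx N => (c x.pr x.k : ℂ)) s := by
  unfold zeta LF
  congr 1
  let e : Idx N → Nat.Primes × ℕ := fun x => (x.pr, x.k - 1)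
  have he : Function.Injective e := by
    rintro ⟨p, k, h1, h2, h3⟩ ⟨p', k', h1', h2', h3'⟩ h
    have e1 : p = p' := congrArg (fun z : Nat.Primes × ℕ => (z.1 : ℕ)) h
    have e2 : k - 1 = k' - 1 := congrArg (fun z : Nat.Primes × ℕ => z.2) h
    have e3 : k = k' := by omega
    subst e1
    subst e3
    rfl
  have hsupp : Function.support (term c s) ⊆ Set.range e := by
    rintro ⟨p, k⟩ h
    rw [Function.mem_support] at h
    have h1 : ¬ (p : ℕ) ∣ N := by
      intro hd
      apply h
      unfold term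
      rw [hc p (k + 1) (Nat.succ_ne_zero k) hd]
      simp
    exact ⟨⟨p, k + 1, p.2, h1, Nat.succ_ne_zero k⟩, rfl⟩
  rw [← he.tsum_eq hsupp]
  apply tsum_congr
  intro x
  have hk : x.k - 1 + 1 = x.k := Nat.sub_add_cancel (Nat.one_le_iff_ne_zero.2 x.pos)
  have hk' : ((x.k - 1 : ℕ) : ℂ) + 1 = (x.k : ℂ) := by
    exact_mod_cast congrArg (Nat.cast : ℕ → ℂ) hk
  show (c x.pr (x.k - 1 + 1) : ℂ) / (((x.k - 1 : ℕ) : ℂ) + 1) *
    ((x.p : ℕ) : ℂ) ^ (-((((x.k - 1 : ℕ) : ℂ) + 1) * s)) = _
  rw [hk, hk']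
  rfl

theorem good_transfer {c : Counts}
    (hc : ∀ (p : Nat.Primes) (k : ℕ), k ≠ 0 → (p : ℕ) ∣ N → c p k = 0)
    (h : Pool.Agent.H73.Zeta.Good E c) : Good E (fun x : Idx N => (c x.pr x.k : ℂ)) := by
  obtain ⟨g, g1, g2, C, g3⟩ := h
  exact ⟨g, g1, g2, C, fun s hs => by rw [g3 s hs, zeta_eq_LF hc]⟩

/-! ### Point counts of affine schemes -/

theorem cf_gr {s ι : Type} [Finite s] (F : ι → MvPolynomial s ℤ) :
    Gr (2 * (Nat.card s : ℕ)) (cf F : Fam N) := by
  refine ⟨1, zero_le_one, fun x => ?_⟩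
  have h1 : Nat.card {v : s → FK x // ∀ i, MvPolynomial.aeval v (F i) = 0} ≤
      x.q ^ Nat.card s := by
    have := Nat.card_le_card_of_injective
      (Subtype.val : {v : s → FK x // ∀ i, MvPolynomial.aeval v (F i) = 0} → (s → FK x))
      Subtype.val_injective
    rwa [Nat.card_fun, card_FK] at this
  rw [cf, Complex.norm_natCast, one_mul, zpow_mul, zpow_ofNat, x.r_sq, zpow_natCast]
  exact_mod_cast h1

theorem cf_star {s ι : Type} (F : ι → MvPolynomial s ℤ) : star (cf F : Fam N) = cf F := by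
  funext x
  rw [Pi.star_apply, cf, Complex.star_def, Complex.conj_natCast]

theorem qf_star : star (qf : Fam N) = qf := by
  funext x
  rw [Pi.star_apply, qf, Complex.star_def, Complex.conj_natCast]

/-- The empty system. -/
theorem cf_one : (cf (fun i : Empty => (i.elim : MvPolynomial Empty ℤ)) : Fam N) = 1 := by
  funext x
  unfold cf
  have : Unique {v : Empty → FK x // ∀ i : Empty, MvPolynomial.aeval v
      ((fun i : Empty => (i.elim : MvPolynomial Empty ℤ)) i) = 0} :=
    { default := ⟨fun i => i.elim, fun i => i.elim⟩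
      uniq := fun v => Subtype.ext (funext fun i => i.elim) }
  rw [Nat.card_unique]
  simp

/-- The affine line. -/
theorem cf_line : (cf (fun i : Empty => (i.elim : MvPolynomial Unit ℤ)) : Fam N) = qf := by
  funext x
  unfold cf qf
  have h1 : Nat.card {v : Unit → FK x // ∀ i : Empty, MvPolynomial.aeval v
      ((fun i : Empty => (i.elim : MvPolynomial Unit ℤ)) i) = 0} = Nat.card (FK x) := by
    apply Nat.card_congr
    exact
      { toFun := fun v => v.1 ()
        invFun := fun c => ⟨fun _ => c, fun i => i.elim⟩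
        left_inv := fun v => rfl
        right_inv := fun c => rfl }
  rw [h1, card_FK]

/-- The product of two systems. -/
theorem cf_mul {s ι s' ι' : Type} (F : ι → MvPolynomial s ℤ) (G : ι' → MvPolynomial s' ℤ) :
    (cf (Sum.elim (fun i => MvPolynomial.rename Sum.inl (F i))
      (fun i => MvPolynomial.rename Sum.inr (G i)) : ι ⊕ ι' → MvPolynomial (s ⊕ s') ℤ) : Fam N) =
      cf F * cf G := by
  funext x
  rw [Pi.mul_apply]
  unfold cf
  rw [← Nat.cast_mul, ← Nat.card_prod]
  congr 1
  apply Nat.card_congr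
  have e1 : ∀ (v : s ⊕ s' → FK x) (f : MvPolynomial s ℤ),
      MvPolynomial.aeval v (MvPolynomial.rename Sum.inl f) =
      MvPolynomial.aeval (fun t => v (Sum.inl t)) f := fun v f => by
    rw [MvPolynomial.aeval_rename]
    rfl
  have e2 : ∀ (v : s ⊕ s' → FK x) (f : MvPolynomial s' ℤ),
      MvPolynomial.aeval v (MvPolynomial.rename Sum.inr f) =
      MvPolynomial.aeval (fun t => v (Sum.inr t)) f := fun v f => by
    rw [MvPolynomial.aeval_rename]
    rfl
  refine
    { toFun := fun v => (⟨fun t => v.1 (Sum.inl t), fun i => ?_⟩,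
        ⟨fun t => v.1 (Sum.inr t), fun i => ?_⟩)
      invFun := fun w => ⟨Sum.elim w.1.1 w.2.1, fun i => ?_⟩
      left_inv := fun v => Subtype.ext (funext fun t => by cases t <;> rfl)
      right_inv := fun w => rfl }
  · rw [← e1]
    exact v.2 (Sum.inl i)
  · rw [← e2]
    exact v.2 (Sum.inr i)
  · rcases i with i | i
    · rw [Sum.elim_inl, e1]
      exact w.1.2 i
    · rw [Sum.elim_inr, e2]
      exact w.2.2 i

/-- The zeta function of an affine scheme over `ℤ[1/N]`. -/
theorem cf_good (hT : Tri E) (hE : ∀ x : ℝ, x + 1 ∈ E ↔ x ∈ E) {s ι : Type} [Fintype s]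
    [Fintype ι] (F : ι → MvPolynomial s ℤ) : Good E (cf F : Fam N) := by
  classical
  have h1 := gb_system hT hE (σ := Option s) (ι := ι ⊕ Unit)
    (Sum.elim (fun i => MvPolynomial.rename some (F i))
      (fun _ => MvPolynomial.C (N : ℤ) * MvPolynomial.X none - 1))
  have e2 : ∀ (p : Nat.Primes) (k : ℕ) (y : Option s → FF p k) (f : MvPolynomial s ℤ),
      MvPolynomial.aeval y (MvPolynomial.rename some f) =
      MvPolynomial.aeval (fun t => y (some t)) f := by
    intro p k y f
    rw [MvPolynomial.aeval_rename]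
    rfl
  have e3 : ∀ (p : Nat.Primes) (k : ℕ) (y : Option s → FF p k), MvPolynomial.aeval y
      (MvPolynomial.C (N : ℤ) * MvPolynomial.X none - 1 : MvPolynomial (Option s) ℤ) =
      ((N : ℤ) : FF p k) * y none - 1 := by
    intro p k y
    simp
  have c1 : ∀ (p : Nat.Primes) (k : ℕ), cnt (fun x : Option s → FF p k =>
      ∀ i, MvPolynomial.aeval x
      ((Sum.elim (fun i => MvPolynomial.rename some (F i))
      (fun _ : Unit => MvPolynomial.C (N : ℤ) * MvPolynomial.X none - 1)) i) = 0) =
      if ((N : ℤ) : FF p k) = 0 then 0 else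
        cnt (fun v : s → FF p k => ∀ i, MvPolynomial.aeval v (F i) = 0) := by
    intro p k
    rw [← cnt_inv]
    apply cnt_congr
    intro y
    constructor
    · intro h
      refine ⟨fun i => ?_, ?_⟩
      · rw [← e2]
        exact h (Sum.inl i)
      · rw [← e3]
        exact h (Sum.inr ())
    · rintro ⟨h, h'⟩ (i | u)
      · have := h i
        rw [← e2] at this
        exact this
      · rw [← e3] at h'
        exact h'
  have h2 := good_transfer (N := N) (fun p k _ hd => by
    rw [c1, if_pos ((cast_FF_eq_zero p k N).2 hd)]) h1.1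
  have h3 : (fun x : Idx N => ((cnt (fun y : Option s → FF x.pr x.k => ∀ i, MvPolynomial.aeval y
      ((Sum.elim (fun i => MvPolynomial.rename some (F i))
      (fun _ : Unit => MvPolynomial.C (N : ℤ) * MvPolynomial.X none - 1)) i) = 0) : ℤ) : ℂ)) =
      cf F := by
    funext x
    rw [c1, if_neg (fun h => x.ndvd ((cast_FF_eq_zero x.pr x.k N).1 h))]
    unfold cnt cf
    push_cast
    rfl
  rw [← h3]
  exact h2

/-! ### The ring of point counts -/

/-- Generators: `1 / q` and the point counts. -/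
def gens (N : ℕ) : Set (Fam N) :=
  {qf⁻¹} ∪ {t | ∃ (s ι : Type) (_ : Fintype s) (_ : Fintype ι) (F : ι → MvPolynomial s ℤ),
    t = cf F}

/-- The ring of point counts. -/
def A0 (N : ℕ) : Subring (Fam N) := Subring.closure (gens N)

theorem cf_mem {s ι : Type} [Fintype s] [Fintype ι] (F : ι → MvPolynomial s ℤ) :
    (cf F : Fam N) ∈ A0 N :=
  Subring.subset_closure (Or.inr ⟨s, ι, inferInstance, inferInstance, F, rfl⟩)

theorem qinv_gr : Gr (-2) ((qf : Fam N)⁻¹) := by
  have := Gr.qf_zpow (N := N) (-1)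
  simpa using this

theorem adm_A0 : Adm (A0 N) where
  q_mem := by
    rw [← cf_line]
    exact cf_mem _
  qinv_mem := Subring.subset_closure (Or.inl rfl)
  star_mem := by
    intro t ht
    induction ht using Subring.closure_induction with
    | mem t ht =>
      rcases ht with rfl | ⟨s, ι, _, _, F, rfl⟩
      · have : star ((qf : Fam N)⁻¹) = qf⁻¹ := by
          funext x
          have := congrFun (qf_star (N := N)) x
          rw [Pi.star_apply] at this
          rw [Pi.star_apply, Pi.inv_apply, star_inv₀, this]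
        rw [this]
        exact Subring.subset_closure (Or.inl rfl)
      · rw [cf_star]
        exact cf_mem F
    | zero => rw [star_zero]; exact (A0 N).zero_mem
    | one => rw [star_one]; exact (A0 N).one_mem
    | add x y _ _ hx hy => rw [star_add]; exact (A0 N).add_mem hx hy
    | neg x _ hx => rw [star_neg]; exact (A0 N).neg_mem hx
    | mul x y _ _ hx hy => rw [star_mul']; exact (A0 N).mul_mem hx hy
  gr := by
    intro t ht
    induction ht using Subring.closure_induction with
    | mem t ht =>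
      rcases ht with rfl | ⟨s, ι, _, _, F, rfl⟩
      · exact ⟨_, qinv_gr⟩
      · exact ⟨_, cf_gr F⟩
    | zero => exact ⟨0, Gr.zero _⟩
    | one => exact ⟨0, Gr.one⟩
    | add x y _ _ hx hy =>
      obtain ⟨w, hw⟩ := hx
      obtain ⟨v, hv⟩ := hy
      exact ⟨max w v, (hw.mono (le_max_left _ _)).add (hv.mono (le_max_right _ _))⟩
    | neg x _ hx =>
      obtain ⟨w, hw⟩ := hx
      exact ⟨w, hw.neg⟩
    | mul x y _ _ hx hy =>
      obtain ⟨w, hw⟩ := hx
      obtain ⟨v, hv⟩ := hy
      exact ⟨w + v, hw.mul hv⟩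

/-- A subring generated by a multiplicative set of good families consists of good families. -/
theorem good_closure {S : Set (Fam N)} (hS : ∀ t ∈ Submonoid.closure S,
    (∃ w : ℤ, Gr w t) ∧ Good E t) {t : Fam N} (ht : t ∈ Subring.closure S) :
    (∃ w : ℤ, Gr w t) ∧ Good E t := by
  rw [Subring.mem_closure_iff] at ht
  induction ht using AddSubgroup.closure_induction with
  | mem x hx => exact hS x hx
  | zero => exact ⟨⟨0, Gr.zero _⟩, Good.zero⟩
  | add x y _ _ hx hy =>
    obtain ⟨⟨w, hw⟩, gx⟩ := hx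
    obtain ⟨⟨v, hv⟩, gy⟩ := hy
    exact ⟨⟨max w v, (hw.mono (le_max_left _ _)).add (hv.mono (le_max_right _ _))⟩,
      gx.add gy hw hv⟩
  | neg x _ hx =>
    obtain ⟨⟨w, hw⟩, gx⟩ := hx
    exact ⟨⟨w, hw.neg⟩, gx.neg⟩

theorem hat_good {A : Subring (Fam N)} (hA : Adm A) (h : ∀ t ∈ A, Good E t) {t : Fam N}
    (ht : t ∈ hat A hA) : Good E t := by
  obtain ⟨w, hw⟩ := hat_gr hA ht
  refine Good.of_approx hw (fun m => ?_)
  obtain ⟨r, hr, h1⟩ := ht m
  exact ⟨r, h r hr, h1⟩

theorem A0_good (hT : Tri E) (hE : ∀ x : ℝ, x + 1 ∈ E ↔ x ∈ E) {t : Fam N} (ht : t ∈ A0 N) :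
    Good E t := by
  refine (good_closure (fun t ht => ?_) ht).2
  have h1 : ∃ (a : ℕ) (s ι : Type) (_ : Fintype s) (_ : Fintype ι) (F : ι → MvPolynomial s ℤ),
      t = (qf⁻¹) ^ a * cf F := by
    induction ht using Submonoid.closure_induction with
    | mem t ht =>
      rcases ht with rfl | ⟨s, ι, _, _, F, rfl⟩
      · exact ⟨1, Empty, Empty, inferInstance, inferInstance,
          fun i => (i.elim : MvPolynomial Empty ℤ), by rw [cf_one, pow_one, mul_one]⟩
      · exact ⟨0, s, ι, inferInstance, inferInstance, F, by rw [pow_zero, one_mul]⟩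
    | one => exact ⟨0, Empty, Empty, inferInstance, inferInstance,
          fun i => (i.elim : MvPolynomial Empty ℤ), by rw [cf_one, pow_zero, mul_one]⟩
    | mul x y _ _ hx hy =>
      obtain ⟨a, s, ι, _, _, F, rfl⟩ := hx
      obtain ⟨b, s', ι', _, _, G, rfl⟩ := hy
      refine ⟨a + b, s ⊕ s', ι ⊕ ι', inferInstance, inferInstance,
        Sum.elim (fun i => MvPolynomial.rename Sum.inl (F i))
          (fun i => MvPolynomial.rename Sum.inr (G i)), ?_⟩
      rw [cf_mul, pow_add]
      ring
  obtain ⟨a, s, ι, _, _, F, rfl⟩ := h1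
  refine ⟨⟨a * (-2) + _, (qinv_gr.pow a).mul (cf_gr F)⟩, ?_⟩
  have h2 := (cf_good (N := N) hT hE F).shift hE (-(a : ℤ))
  rwa [_root_.zpow_neg, zpow_natCast, ← inv_pow] at h2

/-- The complete symmetric operations on point counts belong to the completion. -/
theorem hs_mem {s ι : Type} [Fintype s] [Fintype ι] (F : ι → MvPolynomial s ℤ) (n : ℕ) :
    hs (cf F : Fam N) n ∈ hat (A0 N) adm_A0 := by
  intro M
  refine ⟨aa n F (M + n * Nat.card s), ?_, (approx_hs F n (M + n * Nat.card s)).mono ?_⟩
  · unfold aa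
    apply (A0 N).sum_mem
    intro r _
    refine (A0 N).mul_mem (intCast_mem _ _) ((A0 N).mul_mem ((A0 N).pow_mem ?_ _) (cf_mem _))
    exact Subring.subset_closure (Or.inl rfl)
  · push_cast
    have : (0 : ℤ) ≤ M := Int.natCast_nonneg M
    linarith

/-! ### Projective schemes -/

/-- The point counts of a projective scheme over `ℤ[1/N]`. -/
noncomputable def pc {σ : Type} (F : Finset (MvPolynomial σ ℤ)) (N : ℕ) : Fam N := fun x =>
  (projCount F N x.pr x.k : ℂ)

/-- The vectors in a cone, by their first nonzero coordinate. -/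
theorem card_cone {σ K : Type} [Fintype σ] [Field K] [Finite K] {d : ℕ} (e : σ ≃ Fin d)
    (P : (σ → K) → Prop) (hP : ∀ (a : Kˣ) (v : σ → K), P (a • v) ↔ P v) :
    Nat.card {v : σ → K // v ≠ 0 ∧ P v} = (Nat.card K - 1) * ∑ j : Fin d,
      Nat.card {v : σ → K // P v ∧ (∀ i, e i < j → v i = 0) ∧ v (e.symm j) = 1} := by
  classical
  have h1 : Nat.card (Kˣ × Σ j : Fin d,
      {v : σ → K // P v ∧ (∀ i, e i < j → v i = 0) ∧ v (e.symm j) = 1}) =
      (Nat.card K - 1) * ∑ j : Fin d,
      Nat.card {v : σ → K // P v ∧ (∀ i, e i < j → v i = 0) ∧ v (e.symm j) = 1} := by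
    rw [Nat.card_prod, Nat.card_units, Nat.card_sigma]
  rw [← h1]
  symm
  apply card_eq_of_rel (fun z w => w.1 = z.1 • z.2.2.1)
  · rintro ⟨a, j, v, hv, hv0, hv1⟩
    refine ⟨⟨a • v, fun h => ?_, (hP a v).2 hv⟩, rfl⟩
    have := congrFun h (e.symm j)
    rw [Pi.smul_apply, hv1, Units.smul_def, smul_eq_mul, mul_one] at this
    exact a.ne_zero this
  · rintro ⟨w, hw, hPw⟩
    obtain ⟨j, hj, hmin⟩ : ∃ j : Fin d, w (e.symm j) ≠ 0 ∧ ∀ i, i < j → w (e.symm i) = 0 := by
      have hne : (Finset.univ.filter (fun j : Fin d => w (e.symm j) ≠ 0)).Nonempty := by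
        by_contra hcon
        apply hw
        funext i
        by_contra hi
        apply hcon
        exact ⟨e i, by simpa using hi⟩
      refine ⟨(Finset.univ.filter (fun j : Fin d => w (e.symm j) ≠ 0)).min' hne, ?_, ?_⟩
      · have := Finset.min'_mem _ hne
        simpa using this
      · intro i hi
        by_contra hcon
        have : i ∈ Finset.univ.filter (fun j : Fin d => w (e.symm j) ≠ 0) := by simpa using hcon
        exact absurd (Finset.min'_le _ i this) (not_le.2 hi)
    let a : Kˣ := Units.mk0 _ hj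
    refine ⟨⟨a, j, a⁻¹ • w, (hP _ _).2 hPw, fun i hi => ?_, ?_⟩, ?_⟩
    · have := hmin (e i) hi
      rw [Equiv.symm_apply_apply] at this
      rw [Pi.smul_apply, this, smul_zero]
    · rw [Pi.smul_apply, Units.smul_def, smul_eq_mul, Units.val_inv_eq_inv_val]
      exact inv_mul_cancel₀ hj
    · simp only [smul_inv_smul]
  · rintro z w w' h h'
    exact Subtype.ext (h.trans h'.symm)
  · rintro ⟨a, j, v, hv, hv0, hv1⟩ ⟨a', j', v', hv', hv0', hv1'⟩ w h h'
    simp only at h h'
    have h2 : a • v = a' • v' := h.symm.trans h'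
    have hjj : j = j' := by
      rcases lt_trichotomy j j' with hlt | heq | hgt
      · exfalso
        have h3 := congrFun h2 (e.symm j)
        have h4 := hv0' (e.symm j) (by simpa using hlt)
        rw [Pi.smul_apply, Pi.smul_apply, hv1, h4, smul_zero, Units.smul_def, smul_eq_mul,
          mul_one] at h3
        exact a.ne_zero h3
      · exact heq
      · exfalso
        have h3 := congrFun h2 (e.symm j')
        have h4 := hv0 (e.symm j') (by simpa using hgt)
        rw [Pi.smul_apply, Pi.smul_apply, hv1', h4, smul_zero, Units.smul_def, smul_eq_mul,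
          mul_one] at h3
        exact a'.ne_zero h3.symm
    subst hjj
    have haa : a = a' := by
      have h3 := congrFun h2 (e.symm j)
      rw [Pi.smul_apply, Pi.smul_apply, hv1, hv1', Units.smul_def, Units.smul_def, smul_eq_mul,
        smul_eq_mul, mul_one, mul_one] at h3
      exact Units.ext h3
    subst haa
    have hvv : v = v' := by
      have := congrArg (fun u => a⁻¹ • u) h2
      simpa using this
    subst hvv
    rfl

/-- The system of equations of a piece of a projective scheme. -/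
noncomputable def piece {σ : Type} (F : Finset (MvPolynomial σ ℤ)) {d : ℕ} (e : σ ≃ Fin d)
    (j : Fin d) : {f // f ∈ F} ⊕ σ → MvPolynomial σ ℤ :=
  Sum.elim (fun f => f.1) (fun i => if e i < j then MvPolynomial.X i else
    if e i = j then MvPolynomial.X i - 1 else 0)

theorem piece_iff {σ K : Type} [Field K] (F : Finset (MvPolynomial σ ℤ)) {d : ℕ} (e : σ ≃ Fin d)
    (j : Fin d) (v : σ → K) : (∀ i, MvPolynomial.aeval v (piece F e j i) = 0) ↔
      (∀ f ∈ F, MvPolynomial.aeval v f = 0) ∧ (∀ i, e i < j → v i = 0) ∧ v (e.symm j) = 1 := by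
  constructor
  · intro h
    refine ⟨fun f hf => h (Sum.inl ⟨f, hf⟩), fun i hi => ?_, ?_⟩
    · have := h (Sum.inr i)
      simp only [piece, Sum.elim_inr] at this
      rwa [if_pos hi, MvPolynomial.aeval_X] at this
    · have := h (Sum.inr (e.symm j))
      simp only [piece, Sum.elim_inr, Equiv.apply_symm_apply, lt_self_iff_false, if_false,
        if_true, map_sub, MvPolynomial.aeval_X, map_one] at this
      exact sub_eq_zero.1 this
  · rintro ⟨h1, h2, h3⟩ (⟨f, hf⟩ | i)
    · exact h1 f hf
    · simp only [piece, Sum.elim_inr]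
      split_ifs with h4 h5
      · rw [MvPolynomial.aeval_X, h2 i h4]
      · have : i = e.symm j := by rw [← h5]; simp
        rw [map_sub, MvPolynomial.aeval_X, map_one, this, h3, sub_self]
      · rw [map_zero]

theorem pc_eq {σ : Type} [Fintype σ] {F : Finset (MvPolynomial σ ℤ)}
    (hF : ∀ f ∈ F, ∃ d, f.IsHomogeneous d) {d : ℕ} (e : σ ≃ Fin d) :
    pc F N = ∑ j : Fin d, cf (piece F e j) := by
  funext x
  rw [Finset.sum_apply]
  have h1 := proj_formula hF N x.pr x.pos
  rw [if_neg (show ¬ ((x.pr : ℕ) ∣ N) from x.ndvd)] at h1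
  have h2 := card_cone (K := FK x) e (fun v => ∀ f ∈ F, MvPolynomial.aeval v f = 0)
    (zeros_smul hF)
  have h3 : ∀ j : Fin d, Nat.card {v : σ → FK x // (∀ f ∈ F, MvPolynomial.aeval v f = 0) ∧
      (∀ i, e i < j → v i = 0) ∧ v (e.symm j) = 1} =
      Nat.card {v : σ → FK x // ∀ i, MvPolynomial.aeval v (piece F e j i) = 0} := fun j =>
    Nat.card_congr (Equiv.subtypeEquivRight (fun v => (piece_iff F e j v).symm))
  rw [Finset.sum_congr rfl (fun j _ => h3 j)] at h2
  unfold cnt at h1
  rw [h2] at h1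
  have hq2 := x.two_le_q
  have h4 : (((Nat.card (FK x) - 1 : ℕ) : ℤ)) = ((x.pr : ℕ) : ℤ) ^ x.k - 1 := by
    rw [card_FK, Nat.cast_sub (by omega)]
    unfold Idx.q
    push_cast
    rfl
  rw [Nat.cast_mul, h4] at h1
  have h5 : ((x.pr : ℕ) : ℤ) ^ x.k - 1 ≠ 0 := by
    have : ((x.pr : ℕ) : ℤ) ^ x.k = (x.q : ℤ) := by
      unfold Idx.q
      push_cast
      rfl
    rw [this]
    omega
  have h6 := mul_left_cancel₀ h5 h1
  unfold pc
  rw [h6]
  push_cast
  rfl

theorem HS_sum {ι : Type*} (s : Finset ι) (t : ι → Fam N) :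
    HS (∑ i ∈ s, t i) = ∏ i ∈ s, HS (t i) :=
  (Lg.HS _).unique (Lg.prod (fun i _ => Lg.HS (t i)))

theorem PM.prod {S : Subring (Fam N)} {ι : Type*} {s : Finset ι} {Y : ι → PowerSeries (Fam N)}
    (h : ∀ i ∈ s, PM S (Y i)) : PM S (∏ i ∈ s, Y i) := by
  classical
  induction s using Finset.induction_on with
  | empty =>
    refine ⟨by simp, fun m => ?_⟩
    rw [Finset.prod_empty, PowerSeries.coeff_one]
    split_ifs
    · exact S.one_mem
    · exact S.zero_mem
  | insert i s hi ih =>
    rw [Finset.prod_insert hi]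
    exact (h i (by simp)).mul (ih (fun j hj => h j (by simp [hj])))

/-- The complete symmetric operations on the point counts of projective schemes. -/
theorem hs_pc_mem {σ : Type} [Fintype σ] {F : Finset (MvPolynomial σ ℤ)}
    (hF : ∀ f ∈ F, ∃ d, f.IsHomogeneous d) (n : ℕ) : hs (pc F N) n ∈ hat (A0 N) adm_A0 := by
  classical
  have h1 : PM (hat (A0 N) adm_A0) (HS (pc F N)) := by
    rw [pc_eq hF (Fintype.equivFin σ), HS_sum]
    apply PM.prod
    intro j _
    refine ⟨HS_zero _, fun m => ?_⟩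
    rw [HS, PowerSeries.coeff_mk]
    exact hs_mem _ _
  have h2 := h1.2 n
  rwa [HS, PowerSeries.coeff_mk] at h2

end Pool.Agent.H32.HW
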