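import Pool.Agent.H32.HW.Alg

/-!
Stripping the top weight from a power series.
-/

namespace Pool.Agent.H32.HW

open Matrix PowerSeries

variable {N : ℕ}

/-- Power series with constant coefficient `1` whose `m`-th coefficient has weight `≤ m w`. -/
def PS (w : ℤ) (Y : PowerSeries (Fam N)) : Prop :=
  constantCoeff Y = 1 ∧ ∀ m : ℕ, Gr (m * w) (coeff m Y)

theorem PS.mul {w : ℤ} {Y Z : PowerSeries (Fam N)} (hY : PS w Y) (hZ : PS w Z) : PS w (Y * Z) := by
  refine ⟨by rw [map_mul, hY.1, hZ.1, one_mul], fun m => ?_⟩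
  rw [coeff_mul]
  apply Gr.sum
  rintro ⟨i, j⟩ hij
  replace hij : i + j = m := by simpa using hij
  refine ((hY.2 i).mul (hZ.2 j)).mono (le_of_eq ?_)
  rw [← hij]
  push_cast
  ring

theorem PS.one (w : ℤ) : PS w (1 : PowerSeries (Fam N)) := by
  refine ⟨by simp, fun m => ?_⟩
  rw [coeff_one]
  split_ifs with h
  · rw [h]; simpa using Gr.one
  · exact Gr.zero _

theorem PS.mono {w v : ℤ} {Y : PowerSeries (Fam N)} (hY : PS w Y) (h : w ≤ v) : PS v Y :=
  ⟨hY.1, fun m => (hY.2 m).mono (mul_le_mul_of_nonneg_left h (Int.natCast_nonneg m))⟩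

theorem PS.prod {ι : Type*} {w : ℤ} {s : Finset ι} {Y : ι → PowerSeries (Fam N)}
    (h : ∀ i ∈ s, PS w (Y i)) : PS w (∏ i ∈ s, Y i) := by
  classical
  induction s using Finset.induction_on with
  | empty => simpa using PS.one w
  | insert i s hi ih =>
    rw [Finset.prod_insert hi]
    exact (h i (by simp)).mul (ih (fun j hj => h j (by simp [hj])))

/-- The recursion for the coefficients of an inverse. -/
theorem coeff_inv_rec {Y Z : PowerSeries (Fam N)} (hY : constantCoeff Y = 1)
    (h : Y * Z = 1) (m : ℕ) (hm : m ≠ 0) :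
    coeff m Z = -∑ j ∈ Finset.range m, coeff (j + 1) Y * coeff (m - (j + 1)) Z := by
  have h1 : coeff m (Y * Z) = 0 := by rw [h, coeff_one, if_neg hm]
  rw [coeff_mul, Finset.Nat.sum_antidiagonal_eq_sum_range_succ
    (fun i j => coeff i Y * coeff j Z), Finset.sum_range_succ'] at h1
  rw [coeff_zero_eq_constantCoeff_apply, hY, one_mul, Nat.sub_zero] at h1
  linear_combination h1

theorem PS.of_mul_eq_one {w : ℤ} {Y Z : PowerSeries (Fam N)} (hY : PS w Y)
    (h : Y * Z = 1) : PS w Z := by
  have hZ : constantCoeff Z = 1 := by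
    have := congrArg constantCoeff h
    rwa [map_mul, hY.1, one_mul, map_one] at this
  refine ⟨hZ, fun m => ?_⟩
  induction m using Nat.strong_induction_on with
  | _ m ih =>
    rcases eq_or_ne m 0 with rfl | hm
    · rw [coeff_zero_eq_constantCoeff_apply, hZ]
      simpa using Gr.one
    · rw [coeff_inv_rec hY.1 h m hm]
      apply Gr.neg
      apply Gr.sum
      intro j hj
      rw [Finset.mem_range] at hj
      refine ((hY.2 (j + 1)).mul (ih (m - (j + 1)) (by omega))).mono (le_of_eq ?_)
      rw [Nat.cast_sub (by omega)]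
      push_cast
      ring

/-- Power series with constant coefficient `1` and coefficients in `S`. -/
def PM (S : Subring (Fam N)) (Y : PowerSeries (Fam N)) : Prop :=
  constantCoeff Y = 1 ∧ ∀ m : ℕ, coeff m Y ∈ S

theorem PM.mul {S : Subring (Fam N)} {Y Z : PowerSeries (Fam N)} (hY : PM S Y) (hZ : PM S Z) :
    PM S (Y * Z) := by
  refine ⟨by rw [map_mul, hY.1, hZ.1, one_mul], fun m => ?_⟩
  rw [coeff_mul]
  exact S.sum_mem (fun i _ => S.mul_mem (hY.2 _) (hZ.2 _))

theorem PM.of_mul_eq_one {S : Subring (Fam N)} {Y Z : PowerSeries (Fam N)} (hY : PM S Y)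
    (h : Y * Z = 1) : PM S Z := by
  have hZ : constantCoeff Z = 1 := by
    have := congrArg constantCoeff h
    rwa [map_mul, hY.1, one_mul, map_one] at this
  refine ⟨hZ, fun m => ?_⟩
  induction m using Nat.strong_induction_on with
  | _ m ih =>
    rcases eq_or_ne m 0 with rfl | hm
    · rw [coeff_zero_eq_constantCoeff_apply, hZ]
      exact S.one_mem
    · rw [coeff_inv_rec hY.1 h m hm]
      apply S.neg_mem
      apply S.sum_mem
      intro j hj
      rw [Finset.mem_range] at hj
      exact S.mul_mem (hY.2 (j + 1)) (ih (m - (j + 1)) (by omega))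

/-- The coefficients, with integer indices. -/
noncomputable def cz (H : PowerSeries (Fam N)) (m : ℤ) : Fam N :=
  if m < 0 then 0 else coeff m.toNat H

theorem cz_natCast (H : PowerSeries (Fam N)) (m : ℕ) : cz H m = coeff m H := by
  unfold cz
  rw [if_neg (by omega)]
  simp

theorem cz_neg (H : PowerSeries (Fam N)) {m : ℤ} (hm : m < 0) : cz H m = 0 := if_pos hm

theorem cz_mem {S : Subring (Fam N)} {H : PowerSeries (Fam N)} (h : ∀ m, coeff m H ∈ S) (m : ℤ) :
    cz H m ∈ S := by
  unfold cz
  split_ifs
  · exact S.zero_mem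
  · exact h _

theorem Gr.cz {w : ℤ} {H : PowerSeries (Fam N)} (h : ∀ m : ℕ, Gr (m * w) (coeff m H)) (m : ℤ) :
    Gr (m * w) (cz H m) := by
  rcases lt_or_ge m 0 with hm | hm
  · rw [cz_neg _ hm]
    exact Gr.zero _
  · obtain ⟨n, rfl⟩ := Int.eq_ofNat_of_zero_le hm
    rw [cz_natCast]
    exact h n

/-- The recurrence. -/
theorem rec_cz {b : ℕ} {C H Y : PowerSeries (Fam N)} (hC0 : constantCoeff C = 1)
    (hC : ∀ j, b < j → coeff j C = 0) (h : C * H = Y) (m : ℕ) :
    ∑ j : Fin b, cz H ((m : ℤ) - 1 - j) * coeff (j + 1) C = coeff m Y - coeff m H := by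
  have h1 : coeff m (C * H) = coeff m Y := by rw [h]
  rw [coeff_mul, Finset.Nat.sum_antidiagonal_eq_sum_range_succ
    (fun i j => coeff i C * coeff j H), Finset.sum_range_succ'] at h1
  rw [coeff_zero_eq_constantCoeff_apply, hC0, one_mul, Nat.sub_zero] at h1
  have h2 : ∑ j ∈ Finset.range m, coeff (j + 1) C * coeff (m - (j + 1)) H =
      ∑ j ∈ Finset.range (max m b), cz H ((m : ℤ) - 1 - j) * coeff (j + 1) C := by
    rw [← Finset.sum_subset (Finset.range_subset_range.2 (le_max_left m b))]
    · apply Finset.sum_congr rfl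
      intro j hj
      rw [Finset.mem_range] at hj
      have : ((m : ℤ) - 1 - j) = ((m - (j + 1) : ℕ) : ℤ) := by omega
      rw [this, cz_natCast, mul_comm]
    · intro j _ hj
      rw [Finset.mem_range, not_lt] at hj
      rw [cz_neg _ (by omega), zero_mul]
  have h3 : ∑ j : Fin b, cz H ((m : ℤ) - 1 - j) * coeff (j + 1) C =
      ∑ j ∈ Finset.range (max m b), cz H ((m : ℤ) - 1 - j) * coeff (j + 1) C := by
    rw [← Finset.sum_subset (Finset.range_subset_range.2 (le_max_right m b)),
      Finset.sum_range (fun j => cz H ((m : ℤ) - 1 - j) * coeff (j + 1) C)]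
    intro j _ hj
    rw [Finset.mem_range, not_lt] at hj
    rw [hC _ (by omega), mul_zero]
  rw [h3, ← h2]
  linear_combination h1

/-- The Toeplitz matrices. -/
noncomputable def TM (b : ℕ) (H : PowerSeries (Fam N)) (n : ℕ) : Matrix (Fin b) (Fin b) (Fam N) :=
  Matrix.of fun i j => cz H ((n : ℤ) + i - j)

/-- The companion matrix. -/
noncomputable def comp {b : ℕ} (C : PowerSeries (Fam N)) : Matrix (Fin b) (Fin b) (Fam N) :=
  Matrix.of fun i j => if (j : ℕ) = 0 then -coeff (i + 1) C else if (i : ℕ) + 1 = j then 1 else 0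

theorem TM_succ {b : ℕ} {C H : PowerSeries (Fam N)} (hC0 : constantCoeff C = 1)
    (hC : ∀ j, b < j → coeff j C = 0) (h : C * H = 1) (n : ℕ) :
    TM b H (n + 1) = TM b H n * comp C := by
  ext i j : 1
  rw [Matrix.mul_apply]
  by_cases hj : (j : ℕ) = 0
  · simp only [comp, Matrix.of_apply, hj, if_true, TM]
    have h1 := rec_cz hC0 hC h (n + 1 + i)
    rw [coeff_one, if_neg (by omega), zero_sub] at h1
    have e1 : (((n + 1 : ℕ) : ℤ) + (i : ℕ) - ((0 : ℕ) : ℤ)) = ((n + 1 + i : ℕ) : ℤ) := by
      push_cast; ring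
    rw [e1, cz_natCast]
    have e2 : ∑ l : Fin b, cz H (((n : ℕ) : ℤ) + (i : ℕ) - (l : ℕ)) * -coeff ((l : ℕ) + 1) C =
        -∑ l : Fin b, cz H (((n + 1 + i : ℕ) : ℤ) - 1 - (l : ℕ)) * coeff ((l : ℕ) + 1) C := by
      rw [← Finset.sum_neg_distrib]
      apply Finset.sum_congr rfl
      intro l _
      rw [mul_neg]
      congr 3
      push_cast; ring
    rw [e2, h1, neg_neg]
  · simp only [comp, Matrix.of_apply, hj, if_false, TM]
    have hj' : (j : ℕ) - 1 < b := by omega
    rw [Finset.sum_eq_single (⟨(j : ℕ) - 1, hj'⟩ : Fin b)]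
    · rw [if_pos (by simp only; omega), mul_one]
      congr 1
      simp only
      omega
    · intro l _ hl
      rw [if_neg, mul_zero]
      intro h1
      apply hl
      ext
      simp only
      omega
    · intro h1
      exact absurd (Finset.mem_univ _) h1

theorem det_TM_zero {b : ℕ} {H : PowerSeries (Fam N)} (hH : constantCoeff H = 1) :
    (TM b H 0).det = 1 := by
  rw [Matrix.det_of_isLowerTriangular]
  · apply Finset.prod_eq_one
    intro i _
    simp only [TM, Matrix.of_apply]
    have : (((0 : ℕ) : ℤ) + (i : ℕ) - (i : ℕ)) = ((0 : ℕ) : ℤ) := by simp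
    rw [this, cz_natCast, coeff_zero_eq_constantCoeff_apply, hH]
  · intro i j hij
    simp only [TM, Matrix.of_apply]
    apply cz_neg
    have : (i : ℕ) < (j : ℕ) := by
      simpa using hij
    push_cast
    omega

theorem det_TM {b : ℕ} {C H : PowerSeries (Fam N)} (hC0 : constantCoeff C = 1)
    (hC : ∀ j, b < j → coeff j C = 0) (h : C * H = 1) (n : ℕ) :
    (TM b H n).det = (comp (b := b) C).det ^ n := by
  have hH : constantCoeff H = 1 := by
    have := congrArg constantCoeff h
    rwa [map_mul, hC0, one_mul, map_one] at this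
  induction n with
  | zero => rw [det_TM_zero hH, pow_zero]
  | succ n ih => rw [TM_succ hC0 hC h, Matrix.det_mul, ih, pow_succ]

theorem det_comp {b : ℕ} (C : PowerSeries (Fam N)) (hC0 : constantCoeff C = 1) :
    (comp (b := b) C).det = (-1) ^ b * coeff b C := by
  cases b with
  | zero => rw [Matrix.det_fin_zero, pow_zero, one_mul, coeff_zero_eq_constantCoeff_apply, hC0]
  | succ b =>
    rw [Matrix.det_succ_row _ (Fin.last b), Finset.sum_eq_single 0]
    · have h1 : ((comp (b := b + 1) C).submatrix (Fin.last b).succAbove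
          (Fin.succAbove 0)) = 1 := by
        ext i j : 1
        simp only [comp, Matrix.submatrix_apply, Matrix.of_apply, Fin.succAbove_last,
          Fin.succAbove_zero, Fin.val_succ, Fin.val_castSucc, Matrix.one_apply]
        rw [if_neg (by omega)]
        by_cases hij : i = j
        · rw [if_pos (by rw [hij]), if_pos hij]
        · rw [if_neg, if_neg hij]
          intro h
          apply hij
          ext
          omega
      rw [h1, Matrix.det_one, mul_one]
      simp only [comp, Matrix.of_apply, Fin.val_last, Fin.val_zero, if_true, add_zero]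
      rw [pow_succ]
      ring
    · intro j _ hj
      have : (comp (b := b + 1) C) (Fin.last b) j = 0 := by
        simp only [comp, Matrix.of_apply, Fin.val_last]
        have h1 : (j : ℕ) ≠ 0 := fun h => hj (Fin.ext h)
        rw [if_neg h1, if_neg (by omega)]
      rw [this]
      ring
    · intro h
      exact absurd (Finset.mem_univ _) h

variable {A : Subring (Fam N)} (hA : Adm A)

/-- **Peeling lemma.** -/
theorem peel {b : ℕ} {W : ℤ} {C H Y : PowerSeries (Fam N)} (hCW : PS W C)
    (hC : ∀ j, b < j → coeff j C = 0) (hCb : star (coeff b C) * coeff b C = qf ^ (b * W))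
    (h : C * H = Y) (hY : PS (W - 1) Y) (hH : PM (hat A hA) H) :
    PM (hat A hA) C ∧ PM (hat A hA) Y := by
  have hC0 := hCW.1
  -- the inverse of `C`
  obtain ⟨T, hT⟩ : ∃ T : PowerSeries (Fam N), C * T = 1 :=
    ⟨invOfUnit C 1, mul_invOfUnit C 1 (by simpa using hC0)⟩
  have hTW : PS W T := hCW.of_mul_eq_one hT
  have hHY : H = T * Y := by
    rw [← h, ← mul_assoc, mul_comm T C, hT, one_mul]
  have hHW : PS W H := by
    rw [hHY]
    exact hTW.mul (hY.mono (by linarith))
  -- comparison of coefficients
  have hdiff : ∀ m : ℤ, Gr (m * W - 1) (cz H m - cz T m) := by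
    intro m
    rcases lt_or_ge m 0 with hm | hm
    · rw [cz_neg _ hm, cz_neg _ hm, sub_self]
      exact Gr.zero _
    · obtain ⟨n, rfl⟩ := Int.eq_ofNat_of_zero_le hm
      rw [cz_natCast, cz_natCast, hHY, mul_comm T Y, coeff_mul,
        Finset.Nat.sum_antidiagonal_eq_sum_range_succ (fun i j => coeff i Y * coeff j T),
        Finset.sum_range_succ', coeff_zero_eq_constantCoeff_apply, hY.1, one_mul, Nat.sub_zero,
        add_sub_cancel_right]
      apply Gr.sum
      intro j hj
      rw [Finset.mem_range] at hj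
      refine ((hY.2 (j + 1)).mul (hTW.2 (n - (j + 1)))).mono ?_
      rw [Nat.cast_sub (by omega)]
      push_cast
      have : (0 : ℤ) ≤ j := Int.natCast_nonneg j
      nlinarith
  -- weights of rows and columns
  let u : ℕ → Fin b → ℤ := fun n i => ((n : ℤ) + i) * W
  let v : Fin b → ℤ := fun j => -((j : ℤ) * W)
  have huv : ∀ n i j, u n i + v j = ((n : ℤ) + (i : ℕ) - (j : ℕ)) * W := by
    intro n i j
    simp only [u, v]
    ring
  have hsum : ∀ n, ∑ i, u n i + ∑ i, v i = n * (b * W) := by
    intro n
    rw [← Finset.sum_add_distrib]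
    have : ∀ i : Fin b, u n i + v i = n * W := fun i => by
      simp only [u, v]
      ring
    rw [Finset.sum_congr rfl (fun i _ => this i), Finset.sum_const, Finset.card_univ,
      Fintype.card_fin, nsmul_eq_mul]
    ring
  have hM1 : ∀ n i j, Gr (u n i + v j) (TM b H n i j) := by
    intro n i j
    rw [huv]
    exact Gr.cz hHW.2 _
  have hM2 : ∀ n i j, Gr (u n i + v j) (TM b T n i j) := by
    intro n i j
    rw [huv]
    exact Gr.cz hTW.2 _
  have hM3 : ∀ n i j, Gr (u n i + v j - 1) (TM b H n i j - TM b T n i j) := by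
    intro n i j
    rw [huv]
    exact hdiff _
  -- coefficients of `C` belong to the completion
  have key : ∀ j : Fin b, coeff ((j : ℕ) + 1) C ∈ hat A hA := by
    intro j
    apply hat_complete
    intro m
    -- the size of the matrix of coefficients
    let f : ℤ := ((j : ℕ) + 1 : ℕ) * W
    let n : ℕ := m + f.toNat
    have hMem : ∀ i l, TM b H n i l ∈ hat A hA := fun i l => cz_mem hH.2 _
    have hu : (TM b H n).det ∈ hat A hA := det_mem hMem
    have gu : Gr ((n : ℤ) * (b * W)) (TM b H n).det := by
      have := Gr.det (hM1 n)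
      rwa [hsum] at this
    have gu' : Gr ((n : ℤ) * (b * W)) (TM b T n).det := by
      have := Gr.det (hM2 n)
      rwa [hsum] at this
    have gd : Gr ((n : ℤ) * (b * W) - 1) ((TM b H n).det - (TM b T n).det) := by
      have := Gr.det_sub (hM1 n) (hM2 n) (hM3 n)
      rwa [hsum] at this
    have hTT : star (TM b T n).det * (TM b T n).det = qf ^ ((n : ℤ) * (b * W)) := by
      rw [det_TM hC0 hC hT, det_comp C hC0, star_pow, ← mul_pow, star_mul']
      have e1 : star ((-1 : Fam N) ^ b) = (-1) ^ b := by
        rw [star_pow, star_neg, star_one]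
      have e2 : ((-1 : Fam N) ^ b) * (-1) ^ b = 1 := by
        rw [← pow_add, ← two_mul, pow_mul, neg_one_sq, one_pow]
      have e3 : star ((-1 : Fam N) ^ b) * star (coeff b C) * ((-1) ^ b * coeff b C) =
          (star (coeff b C) * coeff b C) := by
        rw [e1]
        linear_combination (star (coeff b C) * coeff b C) * e2
      rw [e3, hCb]
      rw [← zpow_natCast, ← _root_.zpow_mul]
      congr 1
      ring
    have guu : Gr (2 * ((n : ℤ) * (b * W)) - 1)
        (star (TM b H n).det * (TM b H n).det - qf ^ ((n : ℤ) * (b * W))) := by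
      rw [← hTT]
      have e1 : star (TM b H n).det * (TM b H n).det - star (TM b T n).det * (TM b T n).det =
          star ((TM b H n).det - (TM b T n).det) * (TM b H n).det +
          star (TM b T n).det * ((TM b H n).det - (TM b T n).det) := by
        rw [star_sub]
        ring
      rw [e1]
      refine ((gd.star.mul gu).mono ?_).add ((gu'.star.mul gd).mono ?_)
      · linarith
      · linarith
    -- Cramer's rule
    have hsys : (TM b H n).mulVec (fun l : Fin b => coeff ((l : ℕ) + 1) C) =
        fun i : Fin b => coeff (n + 1 + (i : ℕ)) Y - coeff (n + 1 + (i : ℕ)) H := by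
      funext i
      rw [← rec_cz hC0 hC h (n + 1 + i)]
      simp only [Matrix.mulVec, dotProduct, TM, Matrix.of_apply]
      apply Finset.sum_congr rfl
      intro l _
      congr 2
      push_cast
      ring
    have hcr : (TM b H n).det * coeff ((j : ℕ) + 1) C =
        ∑ i, (TM b H n).adjugate j i * (coeff (n + 1 + i) Y - coeff (n + 1 + i) H) := by
      have h1 : (TM b H n).adjugate.mulVec ((TM b H n).mulVec
          (fun l : Fin b => coeff ((l : ℕ) + 1) C)) =
          (TM b H n).det • (fun l : Fin b => coeff ((l : ℕ) + 1) C) := by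
        rw [Matrix.mulVec_mulVec, Matrix.adjugate_mul, Matrix.smul_mulVec, Matrix.one_mulVec]
      rw [hsys] at h1
      have h2 := congrFun h1 j
      rw [Pi.smul_apply, smul_eq_mul] at h2
      rw [← h2]
      rfl
    set s : Fam N := -∑ i, (TM b H n).adjugate j i * coeff (n + 1 + i) H with hs
    have hsmem : s ∈ hat A hA := (hat A hA).neg_mem ((hat A hA).sum_mem (fun i _ =>
      (hat A hA).mul_mem (adjugate_mem hMem _ _) (hH.2 _)))
    have hut : Gr ((n : ℤ) * (b * W) + f - n) ((TM b H n).det * coeff ((j : ℕ) + 1) C - s) := by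
      have e1 : (TM b H n).det * coeff ((j : ℕ) + 1) C - s =
          ∑ i, (TM b H n).adjugate j i * coeff (n + 1 + i) Y := by
        rw [hcr, hs, sub_neg_eq_add, ← Finset.sum_add_distrib]
        apply Finset.sum_congr rfl
        intro i _
        ring
      rw [e1]
      apply Gr.sum
      intro i _
      refine ((Gr.adjugate (hM1 n) j i).mul (hY.2 _)).mono ?_
      rw [hsum]
      simp only [u, v, f]
      push_cast
      nlinarith [Int.natCast_nonneg (i : ℕ)]
    obtain ⟨t', ht', hg⟩ := approx_div hA hu gu guu hsmem hut (hCW.2 ((j : ℕ) + 1))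
    refine ⟨t', ht', hg.mono ?_⟩
    have h3 := Int.self_le_toNat f
    simp only [n]
    push_cast
    linarith
  have hCm : PM (hat A hA) C := by
    refine ⟨hC0, fun m => ?_⟩
    rcases Nat.eq_zero_or_pos m with rfl | hm
    · rw [coeff_zero_eq_constantCoeff_apply, hC0]
      exact (hat A hA).one_mem
    · rcases lt_or_ge b m with hb | hb
      · rw [hC m hb]
        exact (hat A hA).zero_mem
      · have := key ⟨m - 1, by omega⟩
        simpa [Nat.sub_add_cancel hm] using this
  refine ⟨hCm, ?_⟩
  rw [← h]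
  exact hCm.mul hH

end Pool.Agent.H32.HW
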