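import Mathlib

/-!
Definitions for the theorem on the separation of weights: point counts, Frobenius eigenvalues,
L-functions.
-/

namespace Pool.Agent.H32.HW

open Complex Finset
open scoped LinearAlgebra.Projectivization

/-- The pairs `(p, k)` of a prime `p` which does not divide `N` and an integer `k ≥ 1`. -/
@[ext] structure Idx (N : ℕ) where
  /-- the prime -/
  p : ℕ
  /-- the exponent -/
  k : ℕ
  prime : p.Prime
  ndvd : ¬ p ∣ N
  pos : k ≠ 0

variable {N : ℕ}

/-- The field with `p ^ k` elements. -/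
abbrev Idx.K (x : Idx N) : Type := @GaloisField x.p ⟨x.prime⟩ x.k

/-- The numbers of points, over the fields with `p ^ k` elements, of the closed subscheme of the
projective space over `ℤ[1/N]` with homogeneous coordinates indexed by `σ`, defined by a finite
set `F` of homogeneous polynomials. -/
noncomputable def points {σ : Type} (F : Finset (MvPolynomial σ ℤ)) (N : ℕ) (x : Idx N) : ℕ :=
  Nat.card {v : ℙ x.K (σ → x.K) // ∀ f ∈ F, MvPolynomial.aeval v.rep f = 0}

/-- The numbers of points of the linear section of the Segre variety `ℙ^(a-1) × ℙ^(b-1)` over `ℤ`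
cut out by the bilinear forms with coefficients `T i j l`, one form for every `i`. -/
noncomputable def segre {n a b : ℕ} (T : Fin n → Fin a → Fin b → ℤ) (x : Idx 1) : ℕ :=
  Nat.card {v : ℙ x.K (Fin a → x.K) × ℙ x.K (Fin b → x.K) //
    ∀ i, ∑ j, ∑ l, (T i j l : x.K) * v.1.rep j * v.2.rep l = 0}

/-- The term `t (p, k) p ^ (- k s) / k`. -/
noncomputable def lterm (t : Idx N → ℂ) (s : ℂ) (x : Idx N) : ℂ :=
  t x / x.k * (x.p : ℂ) ^ (-(x.k * s))

/-- The L-function of a family `t` of numbers: the exponential of the sum of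
`t (p, k) p ^ (- k s) / k`. -/
noncomputable def LF (t : Idx N → ℂ) (s : ℂ) : ℂ := exp (∑' x, lterm t s x)

/-- The L-function of `t` extends to a meromorphic function on `ℂ`, all of whose zeros and
poles have their real parts in `E`. -/
def Good (E : Set ℝ) (t : Idx N → ℂ) : Prop :=
  ∃ g : ℂ → ℂ, Meromorphic g ∧ (∀ s, meromorphicOrderAt g s ≠ 0 → s.re ∈ E) ∧
    ∃ c : ℝ, ∀ s : ℂ, c < s.re → g s = LF t s

/-- The numbers `α i p j` (`i < n`, `j < b i`, `p` a prime which does not divide `N`) are pure of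
weight `i`, and the `c (p, k)` are the alternating sums of their `k`-th powers. -/
structure Weil (N n : ℕ) (b : ℕ → ℕ) (α : (i : ℕ) → ℕ → Fin (b i) → ℂ) (c : Idx N → ℤ) :
    Prop where
  /-- purity -/
  pure : ∀ i < n, ∀ p : ℕ, p.Prime → ¬ p ∣ N → ∀ j, ‖α i p j‖ = (p : ℝ) ^ ((i : ℝ) / 2)
  /-- trace formula -/
  trace : ∀ x : Idx N, (c x : ℂ) = ∑ i ∈ range n, (-1) ^ i * ∑ j, α i x.p j ^ x.k

/-- The traces of the powers of Frobenius on the `m`-th exterior power of a space with
Frobenius eigenvalues `α i p j`. -/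
noncomputable def ext {b : ℕ → ℕ} (α : (i : ℕ) → ℕ → Fin (b i) → ℂ) (i m : ℕ) (x : Idx N) : ℂ :=
  ∑ S ∈ (univ : Finset (Fin (b i))).powersetCard m, ∏ j ∈ S, α i x.p j ^ x.k

/-- The point counts of all projective schemes `X` over `ℤ[1/N]`, and the traces of the powers of
Frobenius on the `m`-th exterior power of the cohomology of `X` in degree `i`, for all `i` and `m`
(if `X` has Frobenius eigenvalues as in `Weil`, for instance if `X` is smooth). -/
def Gens (N : ℕ) : Set (Idx N → ℂ) :=
  {u | ∃ (σ : Type) (_ : Fintype σ) (F : Finset (MvPolynomial σ ℤ)),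
    (∀ f ∈ F, ∃ d : ℕ, f.IsHomogeneous d) ∧ (u = (fun x => (points F N x : ℂ)) ∨
      ∃ (n : ℕ) (b : ℕ → ℕ) (α : (i : ℕ) → ℕ → Fin (b i) → ℂ) (i m : ℕ),
        Weil N n b α (fun x => (points F N x : ℤ)) ∧ i < n ∧ u = ext α i m)}

/-- The index `(p, (j + 1) k)`. -/
def Idx.up (x : Idx N) (j : ℕ) : Idx N where
  p := x.p
  k := (j + 1) * x.k
  prime := x.prime
  ndvd := x.ndvd
  pos := Nat.mul_ne_zero (Nat.succ_ne_zero j) x.pos

/-- If `t (p, k)` is the number of points of `X` over the field with `p ^ k` elements, then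
`hs t n (p, k)` is the number of points of the `n`-th symmetric power of `X`: the coefficient of
`z ^ n` in the exponential of the sum of `t (p, j k) z ^ j / j` over `j ≥ 1`. -/
noncomputable def hs (t : Idx N → ℂ) : ℕ → Idx N → ℂ
  | 0 => 1
  | n + 1 => fun x => (1 / ((n : ℂ) + 1)) * ∑ j : Fin (n + 1), t (x.up j) * hs t (n - j) x

end Pool.Agent.H32.HW
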