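import Pool.Agent.H32.HW.Peel

/-!
Separation of weights.
-/

namespace Pool.Agent.H32.HW

open PowerSeries

variable {N : ℕ}

/-- The Adams operation `t (p, k) ↦ t (p, (j + 1) k)`. -/
def psi (j : ℕ) (t : Fam N) : Fam N := fun x => t (x.up j)

/-- The generating series of the `hs t n`. -/
noncomputable def HS (t : Fam N) : PowerSeries (Fam N) := PowerSeries.mk (hs t)

/-- The generating series of the Adams operations. -/
noncomputable def PP (t : Fam N) : PowerSeries (Fam N) := PowerSeries.mk (fun j => psi j t)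

theorem PP_add (t u : Fam N) : PP (t + u) = PP t + PP u := by
  ext n : 1
  rw [map_add, PP, PP, PP, coeff_mk, coeff_mk, coeff_mk]
  rfl

theorem PP_neg (t : Fam N) : PP (-t) = -PP t := by
  ext n : 1
  rw [map_neg, PP, PP, coeff_mk, coeff_mk]
  rfl

theorem PP_zero : PP (0 : Fam N) = 0 := by
  ext n : 1
  rw [PP, coeff_mk, map_zero]
  rfl

theorem HS_zero (t : Fam N) : constantCoeff (HS t) = 1 := by
  rw [← coeff_zero_eq_constantCoeff_apply, HS, coeff_mk, hs]

theorem HS_deriv (t : Fam N) : derivative (Fam N) (HS t) = PP t * HS t := by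
  ext n : 1
  rw [coeff_derivative, coeff_mul, Finset.Nat.sum_antidiagonal_eq_sum_range_succ
    (fun i j => coeff i (PP t) * coeff j (HS t))]
  simp only [PP, HS, coeff_mk]
  rw [hs]
  funext x
  rw [Finset.sum_apply, Finset.sum_range]
  simp only [Pi.mul_apply, psi, Pi.add_apply, Pi.natCast_apply, Pi.one_apply]
  have : ((n : ℂ) + 1) ≠ 0 := Nat.cast_add_one_ne_zero n
  field_simp

theorem ode_unique {Q Y Z : PowerSeries (Fam N)} (h0 : constantCoeff Y = constantCoeff Z)
    (hY : derivative (Fam N) Y = Q * Y) (hZ : derivative (Fam N) Z = Q * Z) : Y = Z := by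
  ext n : 1
  induction n using Nat.strong_induction_on with
  | _ n ih =>
    cases n with
    | zero => rw [coeff_zero_eq_constantCoeff_apply, coeff_zero_eq_constantCoeff_apply, h0]
    | succ n =>
      have h1 := congrArg (coeff n) hY
      have h2 := congrArg (coeff n) hZ
      rw [coeff_derivative, coeff_mul] at h1 h2
      have h3 : ∑ p ∈ Finset.HasAntidiagonal.antidiagonal n, coeff p.1 Q * coeff p.2 Y =
          ∑ p ∈ Finset.HasAntidiagonal.antidiagonal n, coeff p.1 Q * coeff p.2 Z := by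
        apply Finset.sum_congr rfl
        rintro ⟨i, j⟩ hij
        replace hij : i + j = n := by simpa using hij
        simp only
        rw [ih j (by omega)]
      rw [← h3, ← h1] at h2
      funext x
      have h4 := congrFun h2 x
      simp only [Pi.mul_apply, Pi.add_apply, Pi.natCast_apply, Pi.one_apply] at h4
      exact (mul_right_cancel₀ (Nat.cast_add_one_ne_zero n) h4).symm

/-- `Y' = P(t) Y`. -/
def Lg (t : Fam N) (Y : PowerSeries (Fam N)) : Prop :=
  constantCoeff Y = 1 ∧ derivative (Fam N) Y = PP t * Y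

theorem Lg.mul {t u : Fam N} {Y Z : PowerSeries (Fam N)} (hY : Lg t Y) (hZ : Lg u Z) :
    Lg (t + u) (Y * Z) := by
  refine ⟨by rw [map_mul, hY.1, hZ.1, one_mul], ?_⟩
  rw [Derivation.leibniz, hY.2, hZ.2, PP_add, smul_eq_mul, smul_eq_mul]
  ring

theorem Lg.one : Lg (0 : Fam N) 1 := by
  refine ⟨by simp, ?_⟩
  rw [PP_zero, zero_mul, Derivation.map_one_eq_zero]

theorem Lg.inv {t : Fam N} {Y Z : PowerSeries (Fam N)} (hY : Lg t Y) (h : Y * Z = 1) :
    Lg (-t) Z := by
  constructor
  · have := congrArg constantCoeff h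
    rwa [map_mul, hY.1, one_mul, map_one] at this
  · have h1 : derivative (Fam N) (Y * Z) = 0 := by
      rw [h, Derivation.map_one_eq_zero]
    rw [Derivation.leibniz, hY.2, smul_eq_mul, smul_eq_mul] at h1
    rw [PP_neg]
    linear_combination Z * h1 - (derivative (Fam N) Z + PP t * Z) * h

theorem Lg.prod {ι : Type*} {s : Finset ι} {t : ι → Fam N} {Y : ι → PowerSeries (Fam N)}
    (h : ∀ i ∈ s, Lg (t i) (Y i)) : Lg (∑ i ∈ s, t i) (∏ i ∈ s, Y i) := by
  classical
  induction s using Finset.induction_on with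
  | empty => simpa using Lg.one
  | insert i s hi ih =>
    rw [Finset.prod_insert hi, Finset.sum_insert hi]
    exact (h i (by simp)).mul (ih (fun j hj => h j (by simp [hj])))

theorem Lg.unique {t : Fam N} {Y Z : PowerSeries (Fam N)} (hY : Lg t Y) (hZ : Lg t Z) : Y = Z :=
  ode_unique (hY.1.trans hZ.1.symm) hY.2 hZ.2

theorem Lg.HS (t : Fam N) : Lg t (HS t) := ⟨HS_zero t, HS_deriv t⟩

theorem HS_add (t u : Fam N) : HS (t + u) = HS t * HS u :=
  (Lg.HS _).unique ((Lg.HS t).mul (Lg.HS u))

/-- The linear factor. -/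
noncomputable def lin (a : Fam N) : PowerSeries (Fam N) := 1 - C a * X

theorem lin_zero (a : Fam N) : constantCoeff (lin a) = 1 := by simp [lin]

/-- The series of `1 - a z`, where `a (p, j k) = a (p, k) ^ j`. -/
theorem Lg.lin {a : Fam N} (ha : ∀ j, psi j a = a ^ (j + 1)) : Lg (-a) (lin a) := by
  refine ⟨lin_zero a, ?_⟩
  have h1 : HW.lin a * PP a = C a := by
    ext n : 1
    rw [HW.lin, sub_mul, one_mul, map_sub, mul_assoc, coeff_C_mul]
    cases n with
    | zero =>
      rw [coeff_zero_X_mul, mul_zero, sub_zero, PP, coeff_mk, ha, coeff_C]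
      simp
    | succ n =>
      rw [coeff_succ_X_mul, PP, coeff_mk, coeff_mk, ha, ha, coeff_C, if_neg (Nat.succ_ne_zero n)]
      ring
  have h2 : derivative (Fam N) (HW.lin a) = -C a := by
    rw [HW.lin, map_sub, Derivation.map_one_eq_zero, zero_sub, Derivation.leibniz,
      derivative_C, derivative_X]
    simp
  rw [h2, PP_neg, neg_mul, mul_comm, h1]

theorem PS.lin {w : ℤ} {a : Fam N} (ha : Gr w a) : PS w (lin a) := by
  refine ⟨lin_zero a, fun m => ?_⟩
  rw [HW.lin, map_sub, coeff_one, coeff_C_mul, coeff_X]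
  rcases m with _ | _ | m
  · simpa using Gr.one
  · simpa using ha.neg
  · simpa using Gr.zero (N := N) _

/-- A product of linear factors. -/
noncomputable def lins {b : ℕ} (a : Fin b → Fam N) : PowerSeries (Fam N) := ∏ j, lin (a j)

/-- The elementary symmetric functions. -/
noncomputable def es {b : ℕ} (a : Fin b → Fam N) (m : ℕ) : Fam N :=
  ∑ S ∈ Finset.univ.powersetCard m, ∏ j ∈ S, a j

theorem coeff_lins {b : ℕ} (a : Fin b → Fam N) (m : ℕ) :
    coeff m (lins a) = (-1) ^ m * es a m := by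
  have h1 : lins a = ∏ j, (1 + C (-a j) * X) := by
    unfold lins lin
    apply Finset.prod_congr rfl
    intro j _
    rw [map_neg]
    ring
  rw [h1, Finset.prod_one_add, map_sum, es, Finset.mul_sum]
  have h2 : ∀ S : Finset (Fin b), coeff m (∏ j ∈ S, (C (-a j) * X : PowerSeries (Fam N))) =
      if S.card = m then (-1) ^ m * ∏ j ∈ S, a j else 0 := by
    intro S
    rw [Finset.prod_mul_distrib, Finset.prod_const, ← map_prod, coeff_C_mul, coeff_X_pow]
    by_cases h : m = S.card
    · rw [if_pos h, if_pos h.symm, mul_one, Finset.prod_neg, h]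
    · rw [if_neg h, if_neg (fun h' => h h'.symm), mul_zero]
  rw [Finset.sum_congr rfl (fun S _ => h2 S), ← Finset.sum_filter]
  apply Finset.sum_congr _ (fun _ _ => rfl)
  ext S
  simp [Finset.mem_powersetCard]

theorem es_mem {S : Subring (Fam N)} {b : ℕ} {a : Fin b → Fam N} (h : PM S (lins a)) (m : ℕ) :
    es a m ∈ S := by
  have h1 : es a m = (-1) ^ m * coeff m (lins a) := by
    rw [coeff_lins, ← mul_assoc, ← pow_add, ← two_mul, pow_mul, neg_one_sq, one_pow, one_mul]
  rw [h1]
  exact S.mul_mem (S.pow_mem (S.neg_mem S.one_mem) m) (h.2 m)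

theorem coeff_lins_gt {b : ℕ} (a : Fin b → Fam N) (m : ℕ) (hm : b < m) :
    coeff m (lins a) = 0 := by
  rw [coeff_lins, es, Finset.powersetCard_eq_empty.2 (by simpa using hm), Finset.sum_empty,
    mul_zero]

variable {A : Subring (Fam N)} (hA : Adm A)

/-- **Separation of weights**, power series form. -/
theorem separate_series (n : ℕ) {b : ℕ → ℕ} (a : (i : ℕ) → Fin (b i) → Fam N)
    (ha : ∀ i < n, ∀ j, star (a i j) * a i j = qf ^ (i : ℤ))
    (ha' : ∀ i < n, ∀ j, Gr (i : ℤ) (a i j)) (H : PowerSeries (Fam N))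
    (hH : PM (hat A hA) H)
    (h : H * ∏ i ∈ (Finset.range n).filter (fun i => Even i), lins (a i) =
      ∏ i ∈ (Finset.range n).filter (fun i => ¬ Even i), lins (a i)) :
    ∀ i < n, PM (hat A hA) (lins (a i)) := by
  induction n generalizing H with
  | zero => intro i hi; omega
  | succ n ih =>
    have hW : PS (n : ℤ) (lins (a n)) := PS.prod (fun j _ => PS.lin (ha' n (by omega) j))
    have hb : star (coeff (b n) (lins (a n))) * coeff (b n) (lins (a n)) =
        qf ^ ((b n : ℕ) * (n : ℤ)) := by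
      rw [coeff_lins, es]
      have e1 : (Finset.univ : Finset (Fin (b n))).powersetCard (b n) = {Finset.univ} := by
        have := Finset.powersetCard_self (Finset.univ : Finset (Fin (b n)))
        rwa [Finset.card_univ, Fintype.card_fin] at this
      rw [e1, Finset.sum_singleton, star_mul', star_pow, star_neg, star_one, star_prod]
      have e2 : ((-1 : Fam N) ^ (b n)) * (-1) ^ (b n) = 1 := by
        rw [← pow_add, ← two_mul, pow_mul, neg_one_sq, one_pow]
      have e3 : (-1 : Fam N) ^ b n * (∏ j, star (a n j)) * ((-1) ^ b n * ∏ j, a n j) =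
          ∏ j, (star (a n j) * a n j) := by
        rw [Finset.prod_mul_distrib]
        linear_combination ((∏ j, star (a n j)) * ∏ j, a n j) * e2
      rw [e3, Finset.prod_congr rfl (fun j _ => ha n (by omega) j), Finset.prod_const,
        Finset.card_univ, Fintype.card_fin, ← zpow_natCast, ← zpow_mul, mul_comm]
    have hlow : ∀ s ⊆ Finset.range n, PS ((n : ℤ) - 1) (∏ i ∈ s, lins (a i)) := by
      intro s hs
      apply PS.prod
      intro i hi
      have hi' := Finset.mem_range.1 (hs hi)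
      refine PS.prod (fun j _ => (PS.lin (ha' i (by omega) j)).mono (by omega))
    set E : PowerSeries (Fam N) := ∏ i ∈ (Finset.range n).filter (fun i => Even i), lins (a i)
      with hE
    set O : PowerSeries (Fam N) := ∏ i ∈ (Finset.range n).filter (fun i => ¬ Even i), lins (a i)
      with hO
    have hE' : PS ((n : ℤ) - 1) E := hlow _ (Finset.filter_subset _ _)
    have hO' : PS ((n : ℤ) - 1) O := hlow _ (Finset.filter_subset _ _)
    rw [Finset.range_add_one, Finset.filter_insert, Finset.filter_insert] at h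
    -- the goal for smaller indices from a suitable series
    have hfin : ∀ Y : PowerSeries (Fam N), PM (hat A hA) Y → Y * E = O →
        PM (hat A hA) (lins (a n)) → ∀ i < n + 1, PM (hat A hA) (lins (a i)) := by
      intro Y hY hYE hn i hi
      rcases Nat.lt_succ_iff_lt_or_eq.1 hi with hi' | rfl
      · exact ih (fun i hi j => ha i (by omega) j) (fun i hi j => ha' i (by omega) j) Y hY hYE i hi'
      · exact hn
    by_cases hev : Even n
    · rw [if_pos hev, if_neg (not_not.2 hev), Finset.prod_insert (by simp)] at h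
      have hY : (lins (a n) * H) * E = O := by
        rw [hE, hO]
        linear_combination h
      have hYW : PS ((n : ℤ) - 1) (lins (a n) * H) := by
        obtain ⟨F, hF⟩ : ∃ F : PowerSeries (Fam N), E * F = 1 :=
          ⟨invOfUnit E 1, mul_invOfUnit E 1 (by simpa using hE'.1)⟩
        have : lins (a n) * H = O * F := by
          rw [← hY, mul_assoc, hF, mul_one]
        rw [this]
        exact hO'.mul (hE'.of_mul_eq_one hF)
      obtain ⟨h1, h2⟩ := peel hA hW (coeff_lins_gt _) hb rfl hYW hH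
      exact hfin _ h2 hY h1
    · rw [if_neg hev, if_pos hev, Finset.prod_insert (by simp)] at h
      obtain ⟨H', hH'⟩ : ∃ H' : PowerSeries (Fam N), H * H' = 1 :=
        ⟨invOfUnit H 1, mul_invOfUnit H 1 (by simpa using hH.1)⟩
      have hH'm := hH.of_mul_eq_one hH'
      have hY : (lins (a n) * H') * O = E := by
        have h' : H * E = lins (a n) * O := by
          rw [hE, hO]
          exact h
        linear_combination E * hH' - H' * h'
      have hYW : PS ((n : ℤ) - 1) (lins (a n) * H') := by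
        obtain ⟨F, hF⟩ : ∃ F : PowerSeries (Fam N), O * F = 1 :=
          ⟨invOfUnit O 1, mul_invOfUnit O 1 (by simpa using hO'.1)⟩
        have : lins (a n) * H' = E * F := by
          rw [← hY, mul_assoc, hF, mul_one]
        rw [this]
        exact hE'.mul (hO'.of_mul_eq_one hF)
      obtain ⟨h1, h2⟩ := peel hA hW (coeff_lins_gt _) hb rfl hYW hH'm
      obtain ⟨Y, hYinv⟩ : ∃ Y : PowerSeries (Fam N), (lins (a n) * H') * Y = 1 :=
        ⟨invOfUnit _ 1, mul_invOfUnit _ 1 (by simpa using h2.1)⟩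
      refine hfin Y (h2.of_mul_eq_one hYinv) ?_ h1
      rw [← hY]
      linear_combination O * hYinv

/-- The eigenvalues as families: `(p, k) ↦ α_p ^ k`. -/
def ev {b : ℕ → ℕ} (α : (i : ℕ) → ℕ → Fin (b i) → ℂ) (i : ℕ) (j : Fin (b i)) : Fam N :=
  fun x => (α i x.p j) ^ x.k

theorem psi_ev {b : ℕ → ℕ} (α : (i : ℕ) → ℕ → Fin (b i) → ℂ) (i : ℕ) (j : Fin (b i)) (l : ℕ) :
    psi l (ev α i j : Fam N) = ev α i j ^ (l + 1) := by
  funext x
  simp only [psi, ev, Idx.up, Pi.pow_apply]
  rw [← pow_mul, mul_comm]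

theorem norm_ev {b : ℕ → ℕ} {α : (i : ℕ) → ℕ → Fin (b i) → ℂ} {i : ℕ} {j : Fin (b i)}
    {x : Idx N} (h : ‖α i x.p j‖ = (x.p : ℝ) ^ ((i : ℝ) / 2)) :
    ‖(ev α i j : Fam N) x‖ = x.r ^ (i : ℤ) := by
  rw [ev, norm_pow, h, x.r_eq, zpow_natCast, ← Real.rpow_natCast, ← Real.rpow_natCast,
    ← Real.rpow_mul (Nat.cast_nonneg _), ← Real.rpow_mul (Nat.cast_nonneg _)]
  congr 1
  ring

/-- The generating series of the complete symmetric operations, from the trace formula. -/
theorem HS_trace (n : ℕ) {b : ℕ → ℕ} (α : (i : ℕ) → ℕ → Fin (b i) → ℂ)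
    (t : Fam N) (ht : ∀ x : Idx N, t x = ∑ i ∈ Finset.range n, (-1) ^ i * ∑ j, α i x.p j ^ x.k) :
    HS t * ∏ i ∈ (Finset.range n).filter (fun i => Even i), lins (ev α i : Fin (b i) → Fam N) =
      ∏ i ∈ (Finset.range n).filter (fun i => ¬ Even i), lins (ev α i : Fin (b i) → Fam N) := by
  have h1 : ∀ i : ℕ, Lg (-∑ j, (ev α i j : Fam N)) (lins (ev α i)) := by
    intro i
    rw [← Finset.sum_neg_distrib]
    exact Lg.prod (fun j _ => Lg.lin (psi_ev α i j))
  have h2 := (Lg.HS t).mul (Lg.prod (s := (Finset.range n).filter (fun i => Even i))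
    (fun i _ => h1 i))
  have h3 := Lg.prod (s := (Finset.range n).filter (fun i => ¬ Even i)) (fun i _ => h1 i)
  have h4 : t + ∑ i ∈ (Finset.range n).filter (fun i => Even i), -∑ j, (ev α i j : Fam N) =
      ∑ i ∈ (Finset.range n).filter (fun i => ¬ Even i), -∑ j, (ev α i j : Fam N) := by
    funext x
    rw [Pi.add_apply, ht x, ← Finset.sum_filter_add_sum_filter_not (Finset.range n)
      (fun i => Even i)]
    simp only [Finset.sum_apply, Pi.neg_apply]
    have e1 : ∑ i ∈ (Finset.range n).filter (fun i => Even i),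
        (-1 : ℂ) ^ i * ∑ j, α i x.p j ^ x.k =
        ∑ i ∈ (Finset.range n).filter (fun i => Even i), ∑ j, (ev α i j : Fam N) x := by
      apply Finset.sum_congr rfl
      intro i hi
      rw [(Finset.mem_filter.1 hi).2.neg_one_pow, one_mul]
      rfl
    have e2 : ∑ i ∈ (Finset.range n).filter (fun i => ¬ Even i),
        (-1 : ℂ) ^ i * ∑ j, α i x.p j ^ x.k =
        ∑ i ∈ (Finset.range n).filter (fun i => ¬ Even i), -∑ j, (ev α i j : Fam N) x := by
      apply Finset.sum_congr rfl
      intro i hi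
      rw [(Nat.not_even_iff_odd.1 (Finset.mem_filter.1 hi).2).neg_one_pow, neg_one_mul]
      rfl
    rw [e1, e2]
    simp only [Finset.sum_neg_distrib]
    ring
  rw [h4] at h2
  exact h2.unique h3

theorem ev_star {b : ℕ → ℕ} {α : (i : ℕ) → ℕ → Fin (b i) → ℂ} {i : ℕ} {j : Fin (b i)}
    (h : ∀ x : Idx N, ‖α i x.p j‖ = (x.p : ℝ) ^ ((i : ℝ) / 2)) :
    star (ev α i j : Fam N) * ev α i j = qf ^ (i : ℤ) := by
  funext x
  have h1 := norm_ev (h x)
  have h2 : star ((ev α i j : Fam N) x) * (ev α i j : Fam N) x =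
      ((‖(ev α i j : Fam N) x‖ ^ 2 : ℝ) : ℂ) := by
    have := Complex.conj_mul' ((ev α i j : Fam N) x)
    rw [Complex.ofReal_pow]
    exact this
  rw [Pi.mul_apply, Pi.star_apply, h2, h1, Pi.pow_apply, zpow_natCast, zpow_natCast, ← pow_mul,
    mul_comm i 2, pow_mul, x.r_sq, qf]
  push_cast
  rfl

theorem ev_gr {b : ℕ → ℕ} {α : (i : ℕ) → ℕ → Fin (b i) → ℂ} {i : ℕ} {j : Fin (b i)}
    (h : ∀ x : Idx N, ‖α i x.p j‖ = (x.p : ℝ) ^ ((i : ℝ) / 2)) :
    Gr (i : ℤ) (ev α i j : Fam N) :=
  ⟨1, zero_le_one, fun x => by rw [one_mul, norm_ev (h x)]⟩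

/-- **Separation of weights.** -/
theorem separate (n : ℕ) {b : ℕ → ℕ} (α : (i : ℕ) → ℕ → Fin (b i) → ℂ)
    (hα : ∀ i < n, ∀ x : Idx N, ∀ j, ‖α i x.p j‖ = (x.p : ℝ) ^ ((i : ℝ) / 2))
    (t : Fam N) (ht : ∀ x : Idx N, t x = ∑ i ∈ Finset.range n, (-1) ^ i * ∑ j, α i x.p j ^ x.k)
    (hm : ∀ m, hs t m ∈ hat A hA) (i : ℕ) (hi : i < n) (m : ℕ) :
    es (ev α i) m ∈ hat A hA := by
  apply es_mem
  refine separate_series hA n (ev α) (fun i hi j => ev_star (fun x => hα i hi x j))
    (fun i hi j => ev_gr (fun x => hα i hi x j)) (HS t) ⟨HS_zero t, fun m => ?_⟩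
    (HS_trace n α t ht) i hi
  rw [HS, coeff_mk]
  exact hm m

end Pool.Agent.H32.HW
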