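import Pool.Agent.H32.HW.Bij
import Pool.Agent.H32.HW.Sep
import Pool.Agent.H73.ZetaProj

/-!
The complete symmetric operations on the point counts of an affine scheme are limits, in the
weight topology, of combinations of point counts.
-/

namespace Pool.Agent.H32.HW

open Finset Pool.Agent.H73.Zeta

variable {N : ℕ}

/-- The prime. -/
def Idx.pr (x : Idx N) : Nat.Primes := ⟨x.p, x.prime⟩

/-- The field with `q = p ^ k` elements. -/
abbrev FK (x : Idx N) : Type := FF x.pr x.k

theorem card_FK (x : Idx N) : Nat.card (FK x) = x.q := by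
  have := card_FF x.pr x.pos
  have h2 : (Nat.card (FK x) : ℤ) = ((x.p ^ x.k : ℕ) : ℤ) := by
    rw [this]; push_cast; rfl
  exact_mod_cast h2

/-- The point counts of an affine scheme. -/
noncomputable def cf {s ι : Type} (F : ι → MvPolynomial s ℤ) : Fam N := fun x =>
  (Nat.card {v : s → FK x // ∀ i, MvPolynomial.aeval v (F i) = 0} : ℂ)

section field

variable {n r : ℕ} {s ι : Type}
variable {K U : Type} [Field K] [Field U] [Algebra K U] [Finite K] [IsAlgClosed U]

/-- Frobenius on the points of an affine scheme. -/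
def frV (U : Type) [Field U] (q : ℕ) (F : ι → MvPolynomial s ℤ)
    (hq : ∀ v : s → U, (∀ i, MvPolynomial.aeval v (F i) = 0) →
      ∀ i, MvPolynomial.aeval (fun t => v t ^ q) (F i) = 0) :
    {v : s → U // ∀ i, MvPolynomial.aeval v (F i) = 0} →
      {v : s → U // ∀ i, MvPolynomial.aeval v (F i) = 0} :=
  fun v => ⟨fun t => v.1 t ^ q, hq v.1 v.2⟩

omit [IsAlgClosed U] in
variable (K) in
theorem frV_ok (F : ι → MvPolynomial s ℤ) (v : s → U)
    (hv : ∀ i, MvPolynomial.aeval v (F i) = 0) (i : ι) :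
    MvPolynomial.aeval (fun t => v t ^ Nat.card K) (F i) = 0 := by
  have h1 := hom_ev (frobHom K U) v (F i)
  rw [ev_eq, ev_eq, hv i, map_zero] at h1
  exact h1.symm

omit [IsAlgClosed U] in
theorem frV_iterate (q : ℕ) (F : ι → MvPolynomial s ℤ)
    (hq : ∀ v : s → U, (∀ i, MvPolynomial.aeval v (F i) = 0) →
      ∀ i, MvPolynomial.aeval (fun t => v t ^ q) (F i) = 0) (m : ℕ)
    (v : {v : s → U // ∀ i, MvPolynomial.aeval v (F i) = 0}) (t : s) :
    ((frV U q F hq)^[m] v).1 t = v.1 t ^ (q ^ m) := by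
  induction m with
  | zero => simp
  | succ m ih =>
    rw [Function.iterate_succ_apply']
    show ((frV U q F hq)^[m] v).1 t ^ q = _
    rw [ih, ← pow_mul, pow_succ]

omit [IsAlgClosed U] in
theorem card_VF (q : ℕ) (F : ι → MvPolynomial s ℤ)
    (hq : ∀ v : s → U, (∀ i, MvPolynomial.aeval v (F i) = 0) →
      ∀ i, MvPolynomial.aeval (fun t => v t ^ q) (F i) = 0) (σ : Equiv.Perm (Fin n)) :
    Nat.card (VF U q F σ) = vc (frV U q F hq) σ (fun _ => 1) := by
  unfold vc VS
  apply Nat.card_congr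
  refine
    { toFun := fun v => ⟨fun i => ⟨v.1 i, v.2.1 i⟩, fun i => ?_⟩
      invFun := fun w => ⟨fun i => (w.1 i).1, fun i => (w.1 i).2, fun i t => ?_⟩
      left_inv := fun v => rfl
      right_inv := fun w => rfl }
  · apply Subtype.ext
    funext t
    rw [frV_iterate, pow_one]
    exact v.2.2 i t
  · have h1 := w.2 i
    have h2 := congrFun (congrArg Subtype.val h1) t
    rw [frV_iterate, pow_one] at h2
    exact h2

/-- Points over a finite subfield are the points fixed by a power of Frobenius. -/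
theorem card_points {L : Type} [Field L] [Finite L] (f : L →+* U)
    (F : ι → MvPolynomial s ℤ) :
    Nat.card {v : s → L // ∀ i, MvPolynomial.aeval v (F i) = 0} =
      Nat.card {v : {v : s → U // ∀ i, MvPolynomial.aeval v (F i) = 0} //
        ∀ t, v.1 t ^ Nat.card L = v.1 t} := by
  let _ : Algebra L U := f.toAlgebra
  have hmap : ∀ (v : s → L) (i : ι), MvPolynomial.aeval (fun t => f (v t)) (F i) =
      f (MvPolynomial.aeval v (F i)) := by
    intro v i
    have := hom_ev f v (F i)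
    rw [ev_eq, ev_eq] at this
    exact this.symm
  apply card_eq_of_rel (fun v w => ∀ t, w.1.1 t = f (v.1 t))
  · intro v
    refine ⟨⟨⟨fun t => f (v.1 t), fun i => by rw [hmap, v.2 i, map_zero]⟩, fun t => ?_⟩,
      fun t => rfl⟩
    show f (v.1 t) ^ Nat.card L = f (v.1 t)
    have _ := Fintype.ofFinite L
    rw [← map_pow, Nat.card_eq_fintype_card, FiniteField.pow_card]
  · intro w
    have h1 : ∀ t, ∃ c : L, f c = w.1.1 t := fun t => mem_range_of_pow (K := L) (w.2 t)
    choose v hv using h1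
    refine ⟨⟨v, fun i => ?_⟩, fun t => (hv t).symm⟩
    apply f.injective
    rw [map_zero, ← hmap]
    simp only [hv]
    exact w.1.2 i
  · intro v w w' h h'
    apply Subtype.ext
    apply Subtype.ext
    funext t
    rw [h, h']
  · intro v v' w h h'
    apply Subtype.ext
    funext t
    exact f.injective ((h t).symm.trans (h' t))

theorem card_WW (F : ι → MvPolynomial s ℤ) (hfin : ∀ σ : Equiv.Perm (Fin n),
    Finite (VF U (Nat.card K) F σ)) :
    Nat.card (WW U (Nat.card K) n r F) =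
      ∑ σ : Equiv.Perm (Fin n), Nat.card (TH U (Nat.card K) σ) ^ (r + 1) *
        Nat.card (VF U (Nat.card K) F σ) := by
  have h1 : ∀ σ : Equiv.Perm (Fin n), Finite (TH U (Nat.card K) σ) := fun σ =>
    Subtype.finite
  rw [Nat.card_sigma]
  apply Finset.sum_congr rfl
  intro σ _
  rw [Nat.card_prod, Nat.card_prod, Nat.card_fun, Nat.card_eq_fintype_card (α := Fin r),
    Fintype.card_fin, pow_succ]
  ring

theorem card_VF_le [Finite s] (F : ι → MvPolynomial s ℤ) (σ : Equiv.Perm (Fin n)) :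
    Finite (VF U (Nat.card K) F σ) ∧
      Nat.card (VF U (Nat.card K) F σ) ≤ Nat.card K ^ (n * Nat.card s) := by
  let g : VF U (Nat.card K) F σ → (s → AS U (Nat.card K) σ) := fun v t =>
    ⟨fun i => v.1 i t, fun i => v.2.2 i t⟩
  have hg : Function.Injective g := by
    intro v w h
    apply Subtype.ext
    funext i t
    exact congrFun (congrArg Subtype.val (congrFun h t)) i
  have hfin : Finite (s → AS U (Nat.card K) σ) := inferInstance
  refine ⟨Finite.of_injective g hg, ?_⟩
  have h1 := Nat.card_le_card_of_injective g hg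
  rw [Nat.card_fun, card_AS (K := K), Fintype.card_fin, ← pow_mul] at h1
  exact h1

/-- The fixed points of the powers of Frobenius. -/
theorem fx_frV (F : ι → MvPolynomial s ℤ) {L : Type} [Field L] [Finite L] (f : L →+* U) {j : ℕ}
    (hL : Nat.card L = Nat.card K ^ j) :
    fx (frV U (Nat.card K) F (frV_ok K F)) j =
      Nat.card {v : s → L // ∀ i, MvPolynomial.aeval v (F i) = 0} := by
  rw [card_points f F]
  unfold fx
  apply Nat.card_congr
  apply Equiv.subtypeEquivRight
  intro v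
  rw [hL]
  constructor
  · intro h t
    have := congrFun (congrArg Subtype.val h) t
    rwa [frV_iterate] at this
  · intro h
    apply Subtype.ext
    funext t
    rw [frV_iterate]
    exact h t

/-- The number of solutions of the system. -/
theorem card_sys [Finite s] (F : ι → MvPolynomial s ℤ) (n r : ℕ) :
    (n.factorial : ℂ) * (Nat.card {y : JJ r s × Fin n → K //
        ∀ x, MvPolynomial.aeval y (sysF n r F x) = 0} : ℂ) =
      ∑ σ : Equiv.Perm (Fin n), (Nat.card (TH U (Nat.card K) σ) : ℂ) ^ (r + 1) *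
        (Nat.card (VF U (Nat.card K) F σ) : ℂ) := by
  have h1 := card_labels (K := K) (U := U) (n := n) (r := r) F
  rw [← card_LS, card_WW F (fun σ => (card_VF_le F σ).1)] at h1
  have h2 := congrArg (Nat.cast : ℕ → ℂ) h1
  push_cast at h2
  exact h2.symm

omit [IsAlgClosed U] in
variable (K U) in
theorem S1_frV (F : ι → MvPolynomial s ℤ) (n : ℕ) :
    (S1 (frV U (Nat.card K) F (frV_ok K F)) n : ℂ) = ∑ σ : Equiv.Perm (Fin n),
      (Nat.card (VF U (Nat.card K) F σ) : ℂ) := by
  unfold S1 tc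
  push_cast
  apply Finset.sum_congr rfl
  intro σ _
  rw [card_VF _ F (frV_ok K F)]

theorem binom (m : ℕ) (z : ℂ) :
    ∑ r ∈ range m, (-1) ^ r * (m.choose (r + 1) : ℂ) * z ^ (r + 1) = 1 - (1 - z) ^ m := by
  have h1 : (1 - z) ^ m = ∑ j ∈ range (m + 1), (-z) ^ j * (m.choose j : ℂ) := by
    have := add_pow (-z) 1 m
    rw [neg_add_eq_sub] at this
    rw [this]
    apply Finset.sum_congr rfl
    intro j _
    rw [one_pow, mul_one]
  rw [h1, Finset.sum_range_succ']
  simp only [pow_zero, Nat.choose_zero_right, Nat.cast_one, mul_one]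
  rw [sub_add_eq_sub_sub_swap, sub_self, zero_sub, ← Finset.sum_neg_distrib]
  apply Finset.sum_congr rfl
  intro j _
  rw [neg_pow z (j + 1), pow_succ (-1 : ℂ) j]
  ring

theorem card_TH_bound (σ : Equiv.Perm (Fin n)) :
    ‖1 - (Nat.card (TH U (Nat.card K) σ) : ℂ) / (Nat.card K : ℂ) ^ n‖ ≤
      (n : ℝ) ^ 2 / Nat.card K := by
  have hq : (0 : ℝ) < Nat.card K := by exact_mod_cast (Nat.card_pos : 0 < Nat.card K)
  have h1 := card_bad (K := K) (U := U) σ
  rw [Fintype.card_fin] at h1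
  have h2 : Nat.card (TH U (Nat.card K) σ) +
      Nat.card {w : AS U (Nat.card K) σ // ¬ Function.Injective w.1} = Nat.card K ^ n := by
    have h3 : Nat.card (AS U (Nat.card K) σ) = Nat.card K ^ n := by
      rw [card_AS (K := K), Fintype.card_fin]
    rw [← h3, ← Nat.card_sum]
    apply Nat.card_congr
    classical
    exact Equiv.sumCompl (fun w : AS U (Nat.card K) σ => Function.Injective w.1)
  set B : ℕ := Nat.card {w : AS U (Nat.card K) σ // ¬ Function.Injective w.1} with hB
  have h3 : ((Nat.card K : ℂ) ^ n) ≠ 0 := by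
    exact_mod_cast pow_ne_zero n (Nat.card_pos : 0 < Nat.card K).ne'
  have h4 : 1 - (Nat.card (TH U (Nat.card K) σ) : ℂ) / (Nat.card K : ℂ) ^ n =
      (B : ℂ) / (Nat.card K : ℂ) ^ n := by
    have h5 := congrArg (Nat.cast : ℕ → ℂ) h2
    push_cast at h5
    rw [eq_div_iff h3, sub_mul, div_mul_cancel₀ _ h3, one_mul, ← h5]
    ring
  rw [h4, norm_div, norm_pow, Complex.norm_natCast, Complex.norm_natCast,
    div_le_div_iff₀ (pow_pos hq n) hq]
  exact_mod_cast h1

/-- **The approximation over one finite field.** -/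
theorem approx_field [Finite s] (F : ι → MvPolynomial s ℤ) (n m : ℕ) :
    ‖(S1 (frV U (Nat.card K) F (frV_ok K F)) n : ℂ) / (n.factorial : ℂ) -
      ∑ r ∈ range m, (-1) ^ r * (m.choose (r + 1) : ℂ) *
        ((((Nat.card K : ℂ) ^ n)⁻¹) ^ (r + 1) * (Nat.card {y : JJ r s × Fin n → K //
        ∀ x, MvPolynomial.aeval y (sysF n r F x) = 0} : ℂ))‖ ≤
      (Nat.card K : ℝ) ^ (n * Nat.card s) * ((n : ℝ) ^ 2 / Nat.card K) ^ m := by
  have h0 : (n.factorial : ℂ) ≠ 0 := by exact_mod_cast Nat.factorial_ne_zero n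
  have h1 : ∀ r ∈ range m, (-1) ^ r * (m.choose (r + 1) : ℂ) *
        ((((Nat.card K : ℂ) ^ n)⁻¹) ^ (r + 1) * (Nat.card {y : JJ r s × Fin n → K //
        ∀ x, MvPolynomial.aeval y (sysF n r F x) = 0} : ℂ)) =
      (1 / (n.factorial : ℂ)) * ∑ σ : Equiv.Perm (Fin n),
        (Nat.card (VF U (Nat.card K) F σ) : ℂ) * ((-1) ^ r * (m.choose (r + 1) : ℂ) *
        ((Nat.card (TH U (Nat.card K) σ) : ℂ) / (Nat.card K : ℂ) ^ n) ^ (r + 1)) := by
    intro r _
    have h2 := card_sys (K := K) (U := U) F n r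
    have h3 : (Nat.card {y : JJ r s × Fin n → K //
        ∀ x, MvPolynomial.aeval y (sysF n r F x) = 0} : ℂ) =
        (1 / (n.factorial : ℂ)) * ∑ σ : Equiv.Perm (Fin n),
      (Nat.card (TH U (Nat.card K) σ) : ℂ) ^ (r + 1) *
        (Nat.card (VF U (Nat.card K) F σ) : ℂ) := by
      rw [← h2]
      field_simp
    rw [h3, Finset.mul_sum, Finset.mul_sum, Finset.mul_sum, Finset.mul_sum]
    apply Finset.sum_congr rfl
    intro σ _
    rw [div_eq_mul_inv (Nat.card (TH U (Nat.card K) σ) : ℂ), mul_pow]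
    ring
  have h2 : ∀ σ : Equiv.Perm (Fin n), ∑ r ∈ range m,
      (Nat.card (VF U (Nat.card K) F σ) : ℂ) * ((-1) ^ r * (m.choose (r + 1) : ℂ) *
        ((Nat.card (TH U (Nat.card K) σ) : ℂ) / (Nat.card K : ℂ) ^ n) ^ (r + 1)) =
      (Nat.card (VF U (Nat.card K) F σ) : ℂ) *
        (1 - (1 - (Nat.card (TH U (Nat.card K) σ) : ℂ) / (Nat.card K : ℂ) ^ n) ^ m) := by
    intro σ
    rw [← Finset.mul_sum, binom]
  have h3 : (S1 (frV U (Nat.card K) F (frV_ok K F)) n : ℂ) / (n.factorial : ℂ) -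
      ∑ r ∈ range m, (-1) ^ r * (m.choose (r + 1) : ℂ) *
        ((((Nat.card K : ℂ) ^ n)⁻¹) ^ (r + 1) * (Nat.card {y : JJ r s × Fin n → K //
        ∀ x, MvPolynomial.aeval y (sysF n r F x) = 0} : ℂ)) =
      (1 / (n.factorial : ℂ)) * ∑ σ : Equiv.Perm (Fin n),
        (Nat.card (VF U (Nat.card K) F σ) : ℂ) *
        (1 - (Nat.card (TH U (Nat.card K) σ) : ℂ) / (Nat.card K : ℂ) ^ n) ^ m := by
    rw [S1_frV, Finset.sum_congr rfl h1, ← Finset.mul_sum, Finset.sum_comm,
      Finset.sum_congr rfl (fun σ _ => h2 σ), div_eq_inv_mul, ← one_div, ← mul_sub,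
      ← Finset.sum_sub_distrib]
    congr 1
    apply Finset.sum_congr rfl
    intro σ _
    ring
  rw [h3, norm_mul, norm_div, norm_one, Complex.norm_natCast]
  have h4 : ‖∑ σ : Equiv.Perm (Fin n), (Nat.card (VF U (Nat.card K) F σ) : ℂ) *
        (1 - (Nat.card (TH U (Nat.card K) σ) : ℂ) / (Nat.card K : ℂ) ^ n) ^ m‖ ≤
      ∑ _σ : Equiv.Perm (Fin n), (Nat.card K : ℝ) ^ (n * Nat.card s) *
        ((n : ℝ) ^ 2 / Nat.card K) ^ m := by
    apply norm_sum_le_of_le
    intro σ _
    rw [norm_mul, norm_pow, Complex.norm_natCast]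
    apply mul_le_mul
    · exact_mod_cast (card_VF_le F σ).2
    · exact pow_le_pow_left₀ (norm_nonneg _) (card_TH_bound σ) m
    · positivity
    · positivity
  rw [Finset.sum_const, Finset.card_univ, Fintype.card_perm, Fintype.card_fin, nsmul_eq_mul] at h4
  have h5 : (0 : ℝ) < n.factorial := by exact_mod_cast Nat.factorial_pos n
  calc 1 / (n.factorial : ℝ) * ‖∑ σ : Equiv.Perm (Fin n),
        (Nat.card (VF U (Nat.card K) F σ) : ℂ) *
        (1 - (Nat.card (TH U (Nat.card K) σ) : ℂ) / (Nat.card K : ℂ) ^ n) ^ m‖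
      ≤ 1 / (n.factorial : ℝ) * (n.factorial * ((Nat.card K : ℝ) ^ (n * Nat.card s) *
        ((n : ℝ) ^ 2 / Nat.card K) ^ m)) := by gcongr
    _ = _ := by field_simp

end field

section approx

variable {s ι : Type}

theorem exists_hom (x : Idx N) (j : ℕ) : Nonempty (FK (x.up j) →+* AlgebraicClosure (FK x)) := by
  have _ : Fact x.p.Prime := ⟨x.prime⟩
  have h : GaloisField x.p ((j + 1) * x.k) →ₐ[ZMod x.p] AlgebraicClosure (GaloisField x.p x.k) :=
    IsAlgClosed.lift
  exact ⟨h.toRingHom⟩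

theorem card_FK_up (x : Idx N) (j : ℕ) : Nat.card (FK (x.up j)) = Nat.card (FK x) ^ (j + 1) := by
  rw [card_FK, card_FK]
  show x.p ^ ((j + 1) * x.k) = (x.p ^ x.k) ^ (j + 1)
  rw [← pow_mul, mul_comm]

theorem hs_cf (F : ι → MvPolynomial s ℤ) (x : Idx N) (n : ℕ) :
    hs (cf F) n x = (S1 (frV (AlgebraicClosure (FK x)) (Nat.card (FK x)) F (frV_ok (FK x) F)) n :
      ℂ) / (n.factorial : ℂ) := by
  induction n using Nat.strong_induction_on with
  | _ n ih =>
    cases n with
    | zero =>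
      rw [hs, S1_zero]
      simp
    | succ n =>
      have h1 := S1_rec (frV (AlgebraicClosure (FK x)) (Nat.card (FK x)) F (frV_ok (FK x) F)) n
      have h2 : ∑ j : Fin (n + 1), cf F (x.up j) * hs (cf F) (n - j) x =
          ((n : ℂ) + 1) * ((S1 (frV (AlgebraicClosure (FK x)) (Nat.card (FK x)) F
            (frV_ok (FK x) F)) (n + 1) : ℂ) / ((n + 1).factorial : ℂ)) := by
        rw [h1, Finset.sum_range]
        apply Finset.sum_congr rfl
        intro j _
        rw [ih (n - j) (by omega)]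
        congr 1
        obtain ⟨f⟩ := exists_hom x j
        rw [fx_frV F f (card_FK_up x j)]
        rfl
      have h3 : hs (cf F) (n + 1) x = (1 / ((n : ℂ) + 1)) *
          ∑ j : Fin (n + 1), cf F (x.up j) * hs (cf F) (n - j) x := by rw [hs]
      rw [h3, h2]
      have : ((n : ℂ) + 1) ≠ 0 := Nat.cast_add_one_ne_zero n
      field_simp

/-- The alternating sums of the solution counts. -/
noncomputable def aa (n : ℕ) (F : ι → MvPolynomial s ℤ) (m : ℕ) : Fam N :=
  ∑ r ∈ range m, (((-1) ^ r * (m.choose (r + 1) : ℤ) : ℤ) : Fam N) *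
    (((qf : Fam N)⁻¹) ^ (n * (r + 1)) * cf (sysF n r F))

/-- **The approximation.** -/
theorem approx_hs [Finite s] (F : ι → MvPolynomial s ℤ) (n m : ℕ) :
    Gr (2 * (n * Nat.card s : ℕ) - 2 * m) (hs (cf F) n - aa n F m : Fam N) := by
  refine ⟨((n : ℝ) ^ 2) ^ m, by positivity, fun x => ?_⟩
  have h1 := approx_field (K := FK x) (U := AlgebraicClosure (FK x)) F n m
  rw [← hs_cf] at h1
  have h2 : aa n F m x = ∑ r ∈ range m, (-1) ^ r * (m.choose (r + 1) : ℂ) *
        ((((Nat.card (FK x) : ℂ) ^ n)⁻¹) ^ (r + 1) * (Nat.card {y : JJ r s × Fin n → FK x //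
        ∀ z, MvPolynomial.aeval y (sysF n r F z) = 0} : ℂ)) := by
    rw [aa, Finset.sum_apply]
    apply Finset.sum_congr rfl
    intro r _
    simp only [Pi.mul_apply, Pi.intCast_apply, Pi.pow_apply, Pi.inv_apply, cf, qf]
    rw [card_FK, ← inv_pow, ← pow_mul]
    push_cast
    rfl
  rw [Pi.sub_apply, h2]
  refine h1.trans (le_of_eq ?_)
  rw [card_FK]
  have hr : x.r ≠ 0 := x.r_pos.ne'
  rw [zpow_sub₀ hr, ← x.r_sq, div_pow]
  rw [show (2 * ((n * Nat.card s : ℕ) : ℤ)) = ((2 * (n * Nat.card s) : ℕ) : ℤ) by push_cast; ring,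
    show (2 * (m : ℤ)) = ((2 * m : ℕ) : ℤ) by push_cast; ring, zpow_natCast, zpow_natCast,
    pow_mul x.r 2, pow_mul x.r 2]
  ring

end approx

end Pool.Agent.H32.HW
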