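import Pool.Agent.H32.HW.Final2

/-!
Meromorphic continuation (or the Riemann hypothesis) for the zeta functions of smooth affine cubic
hypersurfaces over `ℤ` implies the same for every single Hasse-Weil L-function `L(i; X, s)`.
-/

namespace Pool.Agent.H32.HW.ResultV2

open Pool.Agent.H32.HW

/-- **Theorem.**  Let `E` be a set of real numbers with `E + 1 = E` (for instance all real numbers,
or all half integers).

(I) Suppose that the zeta functions of all affine cubic hypersurfaces `T (x, y, z) = 1` over `ℤ`
(they are smooth over `ℤ`), `T` a trilinear form with coefficients in `{-1, 0, 1}`, extend to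
meromorphic functions on `ℂ` all of whose zeros and poles have real part in `E` (`Cubics E`).  Then

* the same holds for the L-function of every element of the ring generated by the point counts of
  all affine and of all projective schemes over `ℤ[1/N]` and by the traces of Frobenius on the
  exterior powers of the cohomology of all projective `X` with Frobenius eigenvalues as in `Weil`
  (purity and trace formula; for `X` smooth over `ℤ[1/N]` this is Deligne's theorem), in
  particular for the L-functions of all tensor products of exterior powers of such spaces; and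
  conversely this implies the hypothesis;
* the same holds for each single L-function
  `L(i; X, s) = ∏_p ∏_j (1 - α i p j * p ^ (-s))⁻¹` of every `X` as before, with Frobenius
  eigenvalues `α i p j` on its `i`-th cohomology.

(II) For one scheme `X` with point counts `c` and Frobenius eigenvalues `α`: the zeta functions of
all products of symmetric powers of `X` extend in this way if and only if the L-functions of all
tensor products of exterior powers of the cohomology spaces of `X` do. -/
theorem result (E : Set ℝ) (hE : ∀ x : ℝ, x + 1 ∈ E ↔ x ∈ E) :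
    (Cubics E ↔ ∀ N : ℕ, ∀ t ∈ Subring.closure (Gens2 N), Good E t) ∧
    (Cubics E →
      ∀ (σ : Type) [Fintype σ] (F : Finset (MvPolynomial σ ℤ)),
        (∀ f ∈ F, ∃ d : ℕ, f.IsHomogeneous d) →
        ∀ (N n : ℕ) (b : ℕ → ℕ) (α : (i : ℕ) → ℕ → Fin (b i) → ℂ),
        Weil N n b α (fun x => (points F N x : ℤ)) →
        ∀ i < n, ∃ g : ℂ → ℂ, Meromorphic g ∧
          (∀ s, meromorphicOrderAt g s ≠ 0 → s.re ∈ E) ∧
          ∃ c : ℝ, ∀ s : ℂ, c < s.re → g s = ∏' p : {p : ℕ // p.Prime ∧ ¬ p ∣ N},
            (∏ j, (1 - α i p j * (p : ℂ) ^ (-s)))⁻¹) ∧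
    (∀ (N n : ℕ) (b : ℕ → ℕ) (α : (i : ℕ) → ℕ → Fin (b i) → ℂ) (c : Idx N → ℤ),
      Weil N n b α c →
      ((∀ l : List ℕ, Good E (l.map (hs (fun x => (c x : ℂ)))).prod) ↔
        ∀ l : List (ℕ × ℕ), (∀ z ∈ l, z.1 < n) →
          Good E (l.map (fun z => (ext α z.1 z.2 : Idx N → ℂ))).prod)) :=
  ⟨⟨fun h N t ht => all_schemes2 hE h N t ht, fun h => cubics_of_closure (h 1)⟩,
    fun h σ _ F hF N n b α hW i hi =>
      single2 (fun t ht => all_schemes2 hE h N t ht) σ F hF n b α hW i hi,
    fun N n b α c hW => one_scheme hE N n b α c hW⟩

end Pool.Agent.H32.HW.ResultV2
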