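import Pool.Agent.H32.HW.Interp

/-!
The system of polynomial equations whose solutions are: a separable monic polynomial `g` of degree
`n`, `r` further generators of the algebra `K[X] / g`, and a point of a given affine scheme with
values in that algebra.
-/

namespace Pool.Agent.H32.HW

open Finset Polynomial

/-- The polynomials of the system: `g` (without its leading term), an inverse of `g'`, the
generators and the polynomials which express `X` by them, and the coordinates of the point. -/
abbrev JJ (r : ℕ) (s : Type) : Type := Bool ⊕ (Fin r ⊕ Fin r) ⊕ s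

/-- The equations. -/
abbrev II (r : ℕ) (ι : Type) : Type := Unit ⊕ Fin r ⊕ ι

variable {n r : ℕ} {s ι : Type}

section poly

variable {R S : Type*} [CommRing R] [CommRing S]

/-- The polynomials of the system. -/
noncomputable def pj (y : JJ r s × Fin n → R) (j : JJ r s) : R[X] := pol (fun i => y (j, i))

/-- The monic polynomial. -/
noncomputable def gP (y : JJ r s × Fin n → R) : R[X] := X ^ n + pj y (Sum.inl false)

/-- The equations, to be read modulo `gP`. -/
noncomputable def eqn (y : JJ r s × Fin n → R) (F : ι → MvPolynomial s ℤ) : II r ι → R[X]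
  | Sum.inl _ => pj y (Sum.inl true) * derivative (gP y) - 1
  | Sum.inr (Sum.inl l) =>
      (pj y (Sum.inr (Sum.inl (Sum.inr l)))).comp (pj y (Sum.inr (Sum.inl (Sum.inl l)))) - X
  | Sum.inr (Sum.inr f) =>
      MvPolynomial.eval₂ (Int.castRingHom R[X]) (fun t => pj y (Sum.inr (Sum.inr t))) (F f)

theorem hom_ev {A B : Type*} [CommRing A] [CommRing B] (g : A →+* B) (v : s → A)
    (f : MvPolynomial s ℤ) :
    g (MvPolynomial.eval₂ (Int.castRingHom A) v f) =
      MvPolynomial.eval₂ (Int.castRingHom B) (fun t => g (v t)) f := by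
  rw [MvPolynomial.eval₂_comp_left g (Int.castRingHom A) v f]
  congr 1
  exact RingHom.ext_int _ _

theorem ev_eq {A : Type*} [CommRing A] [Algebra ℤ A] (v : s → A) (f : MvPolynomial s ℤ) :
    MvPolynomial.eval₂ (Int.castRingHom A) v f = MvPolynomial.aeval v f := by
  rw [MvPolynomial.aeval_def]
  congr 1
  exact RingHom.ext_int _ _

theorem pj_map (y : JJ r s × Fin n → R) (φ : R →+* S) (j : JJ r s) :
    (pj y j).map φ = pj (fun x => φ (y x)) j := pol_map _ _

theorem gP_map (y : JJ r s × Fin n → R) (φ : R →+* S) :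
    (gP y).map φ = gP (fun x => φ (y x)) := by
  rw [gP, Polynomial.map_add, Polynomial.map_pow, map_X, pj_map]
  rfl

theorem eqn_map (y : JJ r s × Fin n → R) (F : ι → MvPolynomial s ℤ) (φ : R →+* S) (i : II r ι) :
    (eqn y F i).map φ = eqn (fun x => φ (y x)) F i := by
  rcases i with _ | l | f
  · simp only [eqn]
    rw [Polynomial.map_sub, Polynomial.map_mul, pj_map, ← derivative_map, gP_map,
      Polynomial.map_one]
  · simp only [eqn]
    rw [Polynomial.map_sub, Polynomial.map_comp, pj_map, pj_map, map_X]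
  · simp only [eqn]
    have := hom_ev (mapRingHom φ) (fun t => pj y (Sum.inr (Sum.inr t))) (F f)
    simp only [coe_mapRingHom] at this
    rw [this]
    simp only [pj_map]

theorem gP_monic (y : JJ r s × Fin n → R) : (gP y).Monic :=
  monic_X_pow_add (degree_pol_lt _)

theorem gP_natDegree [Nontrivial R] (y : JJ r s × Fin n → R) : (gP y).natDegree = n := by
  apply natDegree_eq_of_degree_eq_some
  rw [gP, degree_add_eq_left_of_degree_lt, degree_X_pow]
  rw [degree_X_pow]
  exact degree_pol_lt _

/-- The system of equations, with integer coefficients. -/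
noncomputable def sysF (n r : ℕ) (F : ι → MvPolynomial s ℤ) :
    II r ι × Fin n → MvPolynomial (JJ r s × Fin n) ℤ :=
  fun x => (eqn MvPolynomial.X F x.1 %ₘ gP MvPolynomial.X).coeff x.2

theorem aeval_sysF (y : JJ r s × Fin n → R) (F : ι → MvPolynomial s ℤ) (x : II r ι × Fin n) :
    MvPolynomial.aeval y (sysF n r F x) = (eqn y F x.1 %ₘ gP y).coeff x.2 := by
  let φ : MvPolynomial (JJ r s × Fin n) ℤ →+* R := (MvPolynomial.aeval y).toRingHom
  have h1 : φ (sysF n r F x) =
      ((eqn MvPolynomial.X F x.1 %ₘ gP MvPolynomial.X).map φ).coeff x.2 := by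
    rw [coeff_map]
    rfl
  have h2 : (fun z : JJ r s × Fin n => φ (MvPolynomial.X z)) = y := by
    funext z
    exact MvPolynomial.aeval_X y z
  rw [map_modByMonic _ (gP_monic _), eqn_map, gP_map, h2] at h1
  exact h1

theorem sol_iff [Nontrivial R] (y : JJ r s × Fin n → R) (F : ι → MvPolynomial s ℤ) :
    (∀ x, MvPolynomial.aeval y (sysF n r F x) = 0) ↔ ∀ i, eqn y F i %ₘ gP y = 0 := by
  constructor
  · intro h i
    ext k
    rw [coeff_zero]
    rcases lt_or_ge k n with hk | hk
    · have := h (i, ⟨k, hk⟩)
      rwa [aeval_sysF] at this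
    · apply coeff_eq_zero_of_degree_lt
      refine lt_of_lt_of_le (degree_modByMonic_lt _ (gP_monic y)) ?_
      rw [degree_eq_natDegree (gP_monic y).ne_zero, gP_natDegree]
      exact_mod_cast hk
  · intro h x
    rw [aeval_sysF, h, coeff_zero]

end poly

section field

variable {K U : Type*} [Field K] [Field U] [Algebra K U]

/-- Divisibility by `gP` can be tested at its zeros. -/
theorem ev_zero (y : JJ r s × Fin n → K) {ρ : Fin n → U} (hρ : Function.Injective ρ)
    (hr : ∀ i, aeval (ρ i) (gP y) = 0) (P : K[X]) :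
    P %ₘ gP y = 0 ↔ ∀ i, aeval (ρ i) P = 0 := by
  have h1 : ∀ i, aeval (ρ i) (P %ₘ gP y) = aeval (ρ i) P := by
    intro i
    have := congrArg (aeval (ρ i)) (modByMonic_add_div P (gP y))
    rw [map_add, map_mul, hr, zero_mul, add_zero] at this
    exact this
  constructor
  · intro h i
    rw [← h1, h, map_zero]
  · intro h
    refine eq_zero_of_roots (U := U) (n := n) ?_ hρ (fun i => by rw [h1, h])
    refine lt_of_lt_of_le (degree_modByMonic_lt _ (gP_monic y)) ?_
    rw [degree_eq_natDegree (gP_monic y).ne_zero, gP_natDegree]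

/-- The equations at a zero of `gP`. -/
theorem aeval_eqn (y : JJ r s × Fin n → K) (F : ι → MvPolynomial s ℤ) (z : U) :
    (∀ i, aeval z (eqn y F i) = 0) ↔
      (aeval z (pj y (Sum.inl true)) * aeval z (derivative (gP y)) = 1 ∧
      (∀ l, aeval (aeval z (pj y (Sum.inr (Sum.inl (Sum.inl l)))))
        (pj y (Sum.inr (Sum.inl (Sum.inr l)))) = z) ∧
      ∀ f, MvPolynomial.aeval (fun t => aeval z (pj y (Sum.inr (Sum.inr t)))) (F f) = 0) := by
  have h3 : ∀ f, aeval z (MvPolynomial.eval₂ (Int.castRingHom K[X])
      (fun t => pj y (Sum.inr (Sum.inr t))) (F f)) =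
      MvPolynomial.aeval (fun t => aeval z (pj y (Sum.inr (Sum.inr t)))) (F f) := fun f => by
    rw [← ev_eq]
    exact hom_ev (aeval z).toRingHom (fun t => pj y (Sum.inr (Sum.inr t))) (F f)
  constructor
  · intro h
    refine ⟨?_, fun l => ?_, fun f => ?_⟩
    · have := h (Sum.inl ())
      simp only [eqn, map_sub, map_mul, map_one] at this
      exact sub_eq_zero.1 this
    · have := h (Sum.inr (Sum.inl l))
      simp only [eqn, map_sub, aeval_comp, aeval_X] at this
      exact sub_eq_zero.1 this
    · have := h (Sum.inr (Sum.inr f))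
      simp only [eqn] at this
      rw [← h3]
      exact this
  · rintro ⟨h1, h2, h4⟩ (_ | l | f)
    · simp only [eqn, map_sub, map_mul, map_one]
      exact sub_eq_zero.2 h1
    · simp only [eqn, map_sub, aeval_comp, aeval_X]
      exact sub_eq_zero.2 (h2 l)
    · simp only [eqn]
      rw [h3]
      exact h4 f

variable [Finite K] [IsAlgClosed U]

/-- Solutions together with a labelling of the zeros of `gP`. -/
abbrev LS (K U : Type*) [Field K] [Field U] [Algebra K U] (n r : ℕ) (F : ι → MvPolynomial s ℤ) :
    Type _ :=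
  Σ y : {y : JJ r s × Fin n → K // ∀ x, MvPolynomial.aeval y (sysF n r F x) = 0},
    {ρ : Fin n → U // Function.Injective ρ ∧ ∀ i, aeval (ρ i) (gP y.1) = 0}

omit [Finite K] in
theorem card_labels [Finite K] [Finite s] (F : ι → MvPolynomial s ℤ) :
    Nat.card (LS K U n r F) = n.factorial *
      Nat.card {y : JJ r s × Fin n → K // ∀ x, MvPolynomial.aeval y (sysF n r F x) = 0} := by
  classical
  have hfin : Finite {y : JJ r s × Fin n → K // ∀ x, MvPolynomial.aeval y (sysF n r F x) = 0} :=
    inferInstance
  have _ := Fintype.ofFinite {y : JJ r s × Fin n → K //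
    ∀ x, MvPolynomial.aeval y (sysF n r F x) = 0}
  have h1 : ∀ y : {y : JJ r s × Fin n → K // ∀ x, MvPolynomial.aeval y (sysF n r F x) = 0},
      Nat.card {ρ : Fin n → U // Function.Injective ρ ∧ ∀ i, aeval (ρ i) (gP y.1) = 0} =
        n.factorial := by
    intro y
    have hy := (sol_iff y.1 F).1 y.2 (Sum.inl ())
    rw [modByMonic_eq_zero_iff_dvd (gP_monic y.1)] at hy
    have hsep : (gP y.1).Separable := by
      obtain ⟨c, hc⟩ := hy
      refine ⟨-c, pj y.1 (Sum.inl true), ?_⟩
      simp only [eqn] at hc
      linear_combination hc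
    have hcard := card_rootSet_eq_natDegree (K := U) hsep (IsAlgClosed.splits _)
    rw [gP_natDegree] at hcard
    have hne : gP y.1 ≠ 0 := (gP_monic y.1).ne_zero
    have e : {ρ : Fin n → U // Function.Injective ρ ∧ ∀ i, aeval (ρ i) (gP y.1) = 0} ≃
        (Fin n ↪ (gP y.1).rootSet U) :=
      { toFun := fun ρ => ⟨fun i => ⟨ρ.1 i, mem_rootSet.2 ⟨hne, ρ.2.2 i⟩⟩, fun i j h =>
          ρ.2.1 (congrArg Subtype.val h)⟩
        invFun := fun f => ⟨fun i => (f i : U), fun i j h => f.injective (Subtype.ext h),
          fun i => (mem_rootSet.1 (f i).2).2⟩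
        left_inv := fun ρ => rfl
        right_inv := fun f => rfl }
    rw [Nat.card_congr e, Nat.card_eq_fintype_card, Fintype.card_embedding_eq, hcard,
      Fintype.card_fin, Nat.descFactorial_self]
  have hfin2 : ∀ y : {y : JJ r s × Fin n → K // ∀ x, MvPolynomial.aeval y (sysF n r F x) = 0},
      Finite {ρ : Fin n → U // Function.Injective ρ ∧ ∀ i, aeval (ρ i) (gP y.1) = 0} :=
    fun y => Nat.finite_of_card_ne_zero (by rw [h1]; exact Nat.factorial_ne_zero n)
  rw [Nat.card_sigma, Finset.sum_congr rfl (fun y _ => h1 y), Finset.sum_const, smul_eq_mul,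
    Finset.card_univ, ← Nat.card_eq_fintype_card, mul_comm]

/-- Families of points of the scheme with prescribed action of Frobenius. -/
abbrev VF (U : Type*) [Field U] (q : ℕ) (F : ι → MvPolynomial s ℤ) (σ : Equiv.Perm (Fin n)) :
    Type _ :=
  {v : Fin n → s → U // (∀ i f, MvPolynomial.aeval (v i) (F f) = 0) ∧
    ∀ i t, v i t ^ q = v (σ i) t}

/-- Families of different numbers with prescribed action of Frobenius. -/
abbrev TH (U : Type*) [Field U] (q : ℕ) (σ : Equiv.Perm (Fin n)) : Type _ :=
  {w : AS U q σ // Function.Injective w.1}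

/-- Families of data over `U` with prescribed action of Frobenius. -/
abbrev WW (U : Type*) [Field U] (q n r : ℕ) (F : ι → MvPolynomial s ℤ) : Type _ :=
  Σ σ : Equiv.Perm (Fin n), TH U q σ × (Fin r → TH U q σ) × VF U q F σ

omit [IsAlgClosed U] in
/-- Frobenius permutes the zeros. -/
theorem exists_perm (y : JJ r s × Fin n → K) {ρ : Fin n → U} (hρ : Function.Injective ρ)
    (hr : ∀ i, aeval (ρ i) (gP y) = 0) :
    ∃ σ : Equiv.Perm (Fin n), ∀ i, ρ i ^ Nat.card K = ρ (σ i) := by
  classical
  have hne : gP y ≠ 0 := (gP_monic y).ne_zero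
  -- every zero is one of the `ρ i`
  have hall : ∀ z : U, aeval z (gP y) = 0 → ∃ i, ρ i = z := by
    intro z hz
    by_contra hcon
    push Not at hcon
    have h1 : Function.Injective (fun o : Option (Fin n) => Option.elim o z ρ) := by
      intro o o' h
      cases o with
      | none =>
        cases o' with
        | none => rfl
        | some j => exact absurd h.symm (hcon j)
      | some i =>
        cases o' with
        | none => exact absurd h (hcon i)
        | some j => exact congrArg some (hρ h)
    have h2 := eq_zero_of_natDegree_lt_card_of_eval_eq_zero ((gP y).map (algebraMap K U)) h1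
      (fun o => by
        rw [eval_map_algebraMap]
        cases o with
        | none => exact hz
        | some i => exact hr i)
      (by rw [natDegree_map, gP_natDegree, Fintype.card_option, Fintype.card_fin]; exact
        Nat.lt_succ_self n)
    exact hne ((Polynomial.map_eq_zero _).1 h2)
  have h1 : ∀ i, ∃ j, ρ j = ρ i ^ Nat.card K := by
    intro i
    apply hall
    rw [← frob_aeval, hr, zero_pow Nat.card_pos.ne']
  choose f hf using h1
  have hinj : Function.Injective f := by
    intro i j h
    have h2 : ρ i ^ Nat.card K = ρ j ^ Nat.card K := by rw [← hf, ← hf, h]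
    exact hρ ((frobHom K U).injective h2)
  exact ⟨Equiv.ofBijective f (Finite.injective_iff_bijective.1 hinj), fun i => (hf i).symm⟩

omit [Finite K] [IsAlgClosed U] in
/-- The zeros and the values of the polynomials of a solution. -/
theorem data_of_sol {F : ι → MvPolynomial s ℤ} (y : JJ r s × Fin n → K) {ρ : Fin n → U}
    (hρ : Function.Injective ρ) (hr : ∀ i, aeval (ρ i) (gP y) = 0) :
    (∀ x, MvPolynomial.aeval y (sysF n r F x) = 0) ↔
      (∀ i, aeval (ρ i) (pj y (Sum.inl true)) * aeval (ρ i) (derivative (gP y)) = 1) ∧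
      (∀ i l, aeval (aeval (ρ i) (pj y (Sum.inr (Sum.inl (Sum.inl l)))))
        (pj y (Sum.inr (Sum.inl (Sum.inr l)))) = ρ i) ∧
      ∀ i f, MvPolynomial.aeval (fun t => aeval (ρ i) (pj y (Sum.inr (Sum.inr t)))) (F f) = 0 := by
  rw [sol_iff]
  have h1 : (∀ i, eqn y F i %ₘ gP y = 0) ↔ ∀ j, ∀ i, aeval (ρ j) (eqn y F i) = 0 := by
    constructor
    · intro h j i
      exact (ev_zero y hρ hr _).1 (h i) j
    · intro h i
      exact (ev_zero y hρ hr _).2 (fun j => h j i)
  rw [h1]
  simp only [aeval_eqn]
  constructor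
  · intro h
    exact ⟨fun i => (h i).1, fun i l => (h i).2.1 l, fun i f => (h i).2.2 f⟩
  · rintro ⟨h2, h3, h4⟩ i
    exact ⟨h2 i, h3 i, h4 i⟩

end field

end Pool.Agent.H32.HW
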